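import Pool.Agent.Lib.LL.B_CUB

/-! Row `BES`: the inequality of Bessel for plane waves on a cube. -/

open scoped ComplexConjugate
open MeasureTheory Set

noncomputable section

namespace Pool.Agent.Lib.LL

open Pool.Agent.Lib.MP_791321_mp

namespace T33

/-- The plane wave. -/
def wv (L : ℝ) (z : Fin 3 → ℤ) (x : V3) : ℂ :=
  Complex.exp (Complex.I * (inner ℝ (mom L z) x : ℝ))

@[fun_prop]
lemma wv_cont (L : ℝ) (z : Fin 3 → ℤ) : Continuous (wv L z) := by
  unfold wv
  fun_prop

lemma wv_prod (L : ℝ) (z : Fin 3 → ℤ) (x : V3) :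
    wv L z x = ∏ i, Complex.exp (Complex.I * (2 * Real.pi / L * z i) * x i) := by
  rw [wv, ← Complex.exp_sum, PiLp.inner_apply]
  congr 1
  simp only [mom, RCLike.inner_apply, conj_trivial]
  push_cast
  rw [Finset.mul_sum]
  exact Finset.sum_congr rfl fun i _ => by ring

lemma wv_mul (L : ℝ) (z w : Fin 3 → ℤ) (x : V3) :
    wv L z x * conj (wv L w x) = wv L (z - w) x := by
  have : mom L (z - w) = mom L z - mom L w := by
    ext i
    simp only [mom, Pi.sub_apply, Int.cast_sub, PiLp.sub_apply]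
    ring
  rw [wv, wv, wv, this, inner_sub_left, ← Complex.exp_conj, ← Complex.exp_add]
  simp only [map_mul, Complex.conj_I, Complex.conj_ofReal]
  push_cast
  ring_nf

lemma one_dim {L : ℝ} (hL : 0 < L) (c : ℝ) (k : ℤ) :
    ∫ x in Ico c (c + L), Complex.exp (Complex.I * (2 * Real.pi / L * k) * x) =
      if k = 0 then (L : ℂ) else 0 := by
  rw [integral_Ico_eq_integral_Ioc, ← intervalIntegral.integral_of_le (by linarith)]
  have h0 : (L : ℂ) ≠ 0 := Complex.ofReal_ne_zero.2 hL.ne'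
  split_ifs with h
  · simp [h]
  · have h1 : Complex.I * (2 * Real.pi / L * k) ≠ 0 := by
      simp [h, h0, Real.pi_ne_zero]
    rw [integral_exp_mul_complex h1]
    have : Complex.I * (2 * Real.pi / L * k) * ((c + L : ℝ) : ℂ) =
        Complex.I * (2 * Real.pi / L * k) * c + k * (2 * Real.pi * Complex.I) := by
      push_cast
      field_simp
    rw [this, Complex.exp_add, Complex.exp_int_mul_two_pi_mul_I, mul_one, sub_self, zero_div]

lemma orth {L : ℝ} (hL : 0 < L) (c : V3) (z : Fin 3 → ℤ) :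
    ∫ x in cube c L, wv L z x = if z = 0 then (L : ℂ) ^ 3 else 0 := by
  have e := (PiLp.volume_preserving_ofLp (Fin 3)).setIntegral_preimage_emb
    (MeasurableEquiv.toLp 2 (Fin 3 → ℝ)).symm.measurableEmbedding
    (fun y : Fin 3 → ℝ => ∏ i, Complex.exp (Complex.I * (2 * Real.pi / L * z i) * y i))
    (Set.pi univ fun i => Ico (c i) (c i + L))
  simp only [wv_prod]
  rw [T12.cube_eq, e, volume_pi, Measure.restrict_pi_pi, integral_fintype_prod_eq_prod
    (f := fun i (t : ℝ) => Complex.exp (Complex.I * (2 * Real.pi / L * z i) * t))]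
  simp only [one_dim hL]
  split_ifs with h
  · simp [h]
  · obtain ⟨i, hi⟩ := Function.ne_iff.1 h
    exact Finset.prod_eq_zero (Finset.mem_univ i) (if_neg hi)

end T33

open T33 T12 in
theorem st_BES : St_BES := by
  intro L Λ c R Y hL hR hY
  change ∑ z : Kset L Λ, ‖∫ x in cube c R, Y x * wv L z x‖ ^ 2 ≤ _
  set a : Kset L Λ → ℂ := fun z => ∫ x in cube c R, Y x * wv L z x with ha
  set P : V3 → ℂ := fun x => ∑ z : Kset L Λ, conj (a z) * wv L z x with hP
  have cP : Continuous P := continuous_finsetSum _ fun z _ => continuous_const.mul (wv_cont L z)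
  have h1 : ((∑ z, ‖a z‖ ^ 2 : ℝ) : ℂ) = ∫ x in cube c R, Y x * P x := by
    simp only [hP, Finset.mul_sum, mul_left_comm (Y _)]
    rw [integral_finsetSum _ fun z _ => intOn c R (by fun_prop)]
    push_cast
    exact Finset.sum_congr rfl fun z _ => by rw [integral_const_mul, Complex.conj_mul']
  have h2 : ∫ x in cube c L, ‖P x‖ ^ 2 = L ^ 3 * ∑ z, ‖a z‖ ^ 2 := by
    apply Complex.ofReal_injective
    have e : ∀ x, ((‖P x‖ ^ 2 : ℝ) : ℂ) = ∑ z : Kset L Λ, ∑ w : Kset L Λ,
        conj (a z) * a w * wv L (z.1 - w.1) x := fun x => by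
      rw [Complex.ofReal_pow, ← Complex.mul_conj', hP]
      simp only [map_sum, map_mul, Complex.conj_conj, Finset.sum_mul_sum, ← wv_mul]
      exact Finset.sum_congr rfl fun z _ => Finset.sum_congr rfl fun w _ => by ring
    rw [← integral_complex_ofReal]
    simp only [e]
    rw [integral_finsetSum _ fun z _ => intOn c L (by fun_prop)]
    push_cast
    rw [Finset.mul_sum]
    refine Finset.sum_congr rfl fun z _ => ?_
    rw [integral_finsetSum _ fun w _ => intOn c L (by fun_prop)]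
    simp only [integral_const_mul, orth hL, sub_eq_zero, Subtype.val_inj, mul_ite, mul_zero,
      Finset.sum_ite_eq, Finset.mem_univ, if_true, Complex.conj_mul']
    ring
  have h3 : ∫ x in cube c R, ‖P x‖ ^ 2 ≤ ∫ x in cube c L, ‖P x‖ ^ 2 :=
    setIntegral_mono_set (intOn c L (cP.norm.pow 2)) (ae_of_all _ fun x => sq_nonneg _)
      (LE.le.eventuallyLE fun x hx i => ⟨(hx i).1, by linarith [(hx i).2]⟩)
  have l3 : 0 < L ^ 3 := by positivity
  have h4 : ∑ z, ‖a z‖ ^ 2 ≤
      ∫ x in cube c R, (L ^ 3 / 2 * ‖Y x‖ ^ 2 + 1 / (2 * L ^ 3) * ‖P x‖ ^ 2) := by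
    refine (Real.le_norm_self _).trans ?_
    rw [← Complex.norm_real, h1]
    refine (norm_integral_le_integral_norm _).trans (integral_mono (intOn c R (hY.mul cP).norm)
      (intOn c R (by fun_prop)) fun x => ?_)
    have : L ^ 3 / 2 * ‖Y x‖ ^ 2 + 1 / (2 * L ^ 3) * ‖P x‖ ^ 2 - ‖Y x‖ * ‖P x‖ =
        (L ^ 3 * ‖Y x‖ - ‖P x‖) ^ 2 / (2 * L ^ 3) := by
      field_simp
      ring
    have h : 0 ≤ (L ^ 3 * ‖Y x‖ - ‖P x‖) ^ 2 / (2 * L ^ 3) := by positivity
    simp only [norm_mul]
    linarith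
  rw [integral_add (intOn c R (by fun_prop)) (intOn c R (by fun_prop)), integral_const_mul,
    integral_const_mul] at h4
  have h5 := mul_le_mul_of_nonneg_left (h3.trans_eq h2) (by positivity : 0 ≤ 1 / (2 * L ^ 3))
  rw [show 1 / (2 * L ^ 3) * (L ^ 3 * ∑ z, ‖a z‖ ^ 2) = (∑ z, ‖a z‖ ^ 2) / 2 by field_simp] at h5
  linarith

end Pool.Agent.Lib.LL
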