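import Pool.Agent.Lib.LL.Blue

/-! Row `BMP`: a smooth bump in a cube, equal to one on the middle cube. -/

open scoped ContDiff Topology
open Filter

noncomputable section

namespace Pool.Agent.Lib.LL

open Pool.Agent.Lib.MP_791321_mp

namespace T55

def bb : ContDiffBump (0 : V3) := ⟨3 / 10, 9 / 20, by norm_num, by norm_num⟩

theorem exists_bound : ∃ G : ℝ, 0 < G ∧ ∀ y, ‖fderiv ℝ (bb : V3 → ℝ) y‖ ≤ G := by
  have h1 : Continuous (fderiv ℝ (bb : V3 → ℝ)) :=
    (bb.contDiff (n := 1)).continuous_fderiv one_ne_zero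
  obtain ⟨G, hG⟩ := h1.bounded_above_of_compact_support (bb.hasCompactSupport.fderiv (𝕜 := ℝ))
  exact ⟨G + 1, by linarith [hG 0, norm_nonneg (fderiv ℝ (bb : V3 → ℝ) 0)],
    fun y => by linarith [hG y]⟩

end T55

theorem st_BMP : St_BMP := by
  obtain ⟨G, hG0, hG⟩ := T55.exists_bound
  refine ⟨2 * G, by positivity, fun c s hs => ⟨fun x => T55.bb (s⁻¹ • (x - sh c (s / 2))),
    ⟨T55.bb.contDiff.comp ((contDiff_id.sub contDiff_const).const_smul _),
      fun x => T55.bb.nonneg, fun x => T55.bb.le_one, fun x hx i => ?_, fun x => ?_⟩,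
    fun x hx => ?_⟩⟩
  · have h1 : s⁻¹ • (x - sh c (s / 2)) ∈ Metric.ball (0 : V3) T55.bb.rOut := by
      rw [← T55.bb.support_eq]; exact hx
    rw [mem_ball_zero_iff] at h1
    have h2 := (PiLp.norm_apply_le (s⁻¹ • (x - sh c (s / 2))) i).trans_lt h1
    have h3 : (s⁻¹ • (x - sh c (s / 2))) i = s⁻¹ * (x i - (c i + s / 2)) := by simp [sh]
    rw [h3, Real.norm_eq_abs, abs_mul, abs_of_pos (inv_pos.mpr hs), inv_mul_lt_iff₀ hs,
      show T55.bb.rOut = 9 / 20 from rfl, abs_lt] at h2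
    constructor <;> linarith [h2.1, h2.2]
  · have h1 : HasFDerivAt (fun x : V3 => s⁻¹ • (x - sh c (s / 2)))
        (s⁻¹ • ContinuousLinearMap.id ℝ V3) x := ((hasFDerivAt_id x).sub_const (sh c (s / 2))).const_smul s⁻¹
    have h2 := (((T55.bb.contDiff (n := 1)).differentiable one_ne_zero)
      (s⁻¹ • (x - sh c (s / 2)))).hasFDerivAt.comp x h1
    have h3 : ∀ i, pd i (fun x : V3 => T55.bb (s⁻¹ • (x - sh c (s / 2)))) x ^ 2 ≤ (G / s) ^ 2 := by
      intro i
      have h4 : pd i (fun x : V3 => T55.bb (s⁻¹ • (x - sh c (s / 2)))) x =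
          s⁻¹ * fderiv ℝ (T55.bb : V3 → ℝ) (s⁻¹ • (x - sh c (s / 2))) (ei i) := by
        have h5 := h2.fderiv
        rw [pd, show (fun x : V3 => T55.bb (s⁻¹ • (x - sh c (s / 2)))) =
          (T55.bb : V3 → ℝ) ∘ fun x : V3 => s⁻¹ • (x - sh c (s / 2)) from rfl, h5]
        simp
      have h6 := (fderiv ℝ (T55.bb : V3 → ℝ) (s⁻¹ • (x - sh c (s / 2)))).le_opNorm (ei i)
      have h7 : ‖ei i‖ = 1 := by simp [ei]
      rw [h7, mul_one, Real.norm_eq_abs] at h6
      rw [h4, ← sq_abs, abs_mul, abs_of_pos (inv_pos.mpr hs), div_eq_inv_mul G]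
      exact pow_le_pow_left₀ (mul_nonneg (inv_pos.mpr hs).le (abs_nonneg _))
        (mul_le_mul_of_nonneg_left (h6.trans (hG _)) (inv_pos.mpr hs).le) 2
    calc gr2 _ x ≤ ∑ _i : Fin 3, (G / s) ^ 2 := Finset.sum_le_sum fun i _ => h3 i
      _ = 3 * (G / s) ^ 2 := by simp
      _ ≤ (2 * G / s) ^ 2 := by
        rw [mul_div_assoc, mul_pow]
        nlinarith [sq_nonneg (G / s)]
  · refine T55.bb.one_of_mem_closedBall ?_
    rw [mem_closedBall_zero_iff, norm_smul, Real.norm_eq_abs, abs_of_pos (inv_pos.mpr hs),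
      inv_mul_le_iff₀ hs, show T55.bb.rIn = 3 / 10 from rfl]
    refine le_of_sq_le_sq ?_ (by positivity) |>.trans le_rfl
    rw [EuclideanSpace.norm_sq_eq]
    have h1 : ∀ i, ‖(x - sh c (s / 2)) i‖ ^ 2 ≤ (s / 6) ^ 2 := fun i => by
      have h2 := hx i
      have h3 : (x - sh c (s / 2)) i = x i - (c i + s / 2) := by simp [sh]
      have h4 : sh c (s / 3) i = c i + s / 3 := by simp [sh]
      rw [h4] at h2
      rw [h3, Real.norm_eq_abs, sq_abs]
      exact sq_le_sq' (by linarith [h2.1]) (by linarith [h2.2])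
    calc _ ≤ ∑ _i : Fin 3, (s / 6) ^ 2 := Finset.sum_le_sum fun i _ => h1 i
      _ = 3 * (s / 6) ^ 2 := by simp
      _ ≤ _ := by nlinarith [sq_nonneg s]

end Pool.Agent.Lib.LL
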