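import Pool.Agent.Lib.LL.Blue

/-! Row `CUB`: elementary facts on cubes. -/

open MeasureTheory Set

noncomputable section

namespace Pool.Agent.Lib.LL

open Pool.Agent.Lib.MP_791321_mp

namespace T12

lemma cube_eq (c : V3) (s : ℝ) :
    cube c s = WithLp.ofLp ⁻¹' Set.pi univ fun i => Ico (c i) (c i + s) := by
  ext x
  simp [cube]

lemma meas (c : V3) (s : ℝ) : MeasurableSet (cube c s) := by
  rw [cube_eq]
  exact (PiLp.volume_preserving_ofLp (Fin 3)).measurable
    (MeasurableSet.univ_pi fun _ => measurableSet_Ico)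

lemma vol (c : V3) (s : ℝ) : volume (cube c s) = ENNReal.ofReal s ^ 3 := by
  rw [cube_eq, (PiLp.volume_preserving_ofLp (Fin 3)).measure_preimage
    (MeasurableSet.univ_pi fun _ => measurableSet_Ico).nullMeasurableSet, Real.volume_pi_Ico]
  simp

lemma conv (c : V3) (s : ℝ) : Convex ℝ (cube c s) := fun _ hx _ hy _ _ ha hb hab i =>
  convex_Ico (c i) (c i + s) (hx i) (hy i) ha hb hab

lemma dist_le {c : V3} {s : ℝ} {x y : V3} (hx : x ∈ cube c s) (hy : y ∈ cube c s) :
    ‖x - y‖ ^ 2 ≤ 3 * s ^ 2 := by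
  have h : ∀ i, (x - y) i ^ 2 ≤ s ^ 2 := fun i => by
    have h1 := hx i
    have h2 := hy i
    rw [PiLp.sub_apply]
    exact sq_le_sq' (by linarith [h1.1, h2.2]) (by linarith [h1.2, h2.1])
  rw [EuclideanSpace.real_norm_sq_eq, Fin.sum_univ_three]
  linarith [h 0, h 1, h 2]

lemma sub_ball (c : V3) (s : ℝ) : cube c s ⊆ Metric.closedBall c (2 * |s|) := fun x hx => by
  have hc : c ∈ cube c s := fun i => ⟨le_rfl, (hx i).1.trans_lt (hx i).2⟩
  rw [mem_closedBall_iff_norm]
  refine abs_le_of_sq_le_sq' ?_ (by positivity) |>.2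
  have := dist_le hx hc
  rw [mul_pow, sq_abs]
  nlinarith [sq_nonneg s]

lemma intOn {F : Type} [NormedAddCommGroup F] (c : V3) (s : ℝ) {f : V3 → F} (hf : Continuous f) :
    IntegrableOn f (cube c s) :=
  (hf.continuousOn.integrableOn_compact (isCompact_closedBall _ _)).mono_set (sub_ball c s)

lemma mem_cell {c : V3} {s : ℝ} (hs : 0 < s) {M : ℕ} (z : Fin 3 → Fin M) (x : V3) :
    x ∈ cube (pt c s z) s ↔ ∀ i, ⌊(x i - c i) / s⌋ = ((z i : ℕ) : ℤ) := by
  refine forall_congr' fun i => ?_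
  rw [Int.floor_eq_iff, le_div_iff₀ hs, div_lt_iff₀ hs]
  simp only [pt, Int.cast_natCast]
  constructor <;> rintro ⟨h1, h2⟩ <;> constructor <;> linarith

lemma mem_big {c : V3} {s : ℝ} (hs : 0 < s) (M : ℕ) (x : V3) :
    x ∈ cube c (M * s) ↔ ∀ i, 0 ≤ ⌊(x i - c i) / s⌋ ∧ ⌊(x i - c i) / s⌋ < M := by
  refine forall_congr' fun i => ?_
  rw [Int.floor_nonneg, Int.floor_lt, le_div_iff₀ hs, div_lt_iff₀ hs]
  simp only [Int.cast_natCast]
  constructor <;> rintro ⟨h1, h2⟩ <;> constructor <;> linarith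

lemma union_cell (c : V3) {s : ℝ} (hs : 0 < s) (M : ℕ) :
    ⋃ z : Fin 3 → Fin M, cube (pt c s z) s = cube c (M * s) := by
  ext x
  simp only [mem_iUnion, mem_cell hs, mem_big hs]
  constructor
  · rintro ⟨z, hz⟩ i
    have := (z i).2
    rw [hz i]
    omega
  · intro h
    refine ⟨fun i => ⟨⌊(x i - c i) / s⌋.toNat, ?_⟩, fun i => ?_⟩
    · have := h i
      omega
    · have := h i
      simp only
      omega

lemma disj (c : V3) {s : ℝ} (hs : 0 < s) (M : ℕ) :
    Pairwise fun z z' : Fin 3 → Fin M => Disjoint (cube (pt c s z) s) (cube (pt c s z') s) :=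
  fun z z' h => Set.disjoint_left.2 fun x hx hx' => h (funext fun i => Fin.ext (by
    have h1 := (mem_cell hs z x).1 hx i
    have h2 := (mem_cell hs z' x).1 hx' i
    omega))

end T12

open T12 in
theorem st_CUB : St_CUB := by
  refine ⟨fun c s => ⟨meas c s, conv c s, ?_, fun hs => ?_, fun _ hx _ hy => dist_le hx hy,
    fun _ hf => intOn c s hf, fun _ hf => intOn c s hf⟩, fun c s M hs => ⟨fun z => ?_,
    disj c hs M, fun f hf => ?_⟩, fun χ c s γ h => ⟨?_, fun x hx i => ?_⟩⟩
  · rw [vol]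
    exact ENNReal.pow_lt_top ENNReal.ofReal_lt_top
  · rw [Measure.real, vol, ENNReal.toReal_pow, ENNReal.toReal_ofReal hs]
  · rw [← union_cell c hs M]
    exact subset_iUnion (fun z : Fin 3 → Fin M => cube (pt c s z) s) z
  · rw [← union_cell c hs M, integral_iUnion_fintype (fun _ => meas _ _) (disj c hs M)
      fun _ => intOn _ _ hf]
  · exact HasCompactSupport.of_support_subset_isCompact (isCompact_closedBall c (2 * |s|))
      fun x hx => sub_ball c s (h.su x hx)
  · have h0 : χ x = 0 := by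
      by_contra h0
      exact hx (h.su x h0)
    have hm : IsLocalMin χ x := Filter.Eventually.of_forall fun y => by
      rw [h0]
      exact h.nn y
    simp [pd, hm.fderiv_eq_zero]

end Pool.Agent.Lib.LL
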