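import Pool.Agent.Lib.LL.Defs
import Pool.Agent.Lib.LL39.Gauss

/-! Project ll90: calculus on Gaussian space. -/

open scoped ComplexConjugate InnerProductSpace ContDiff ENNReal
open MeasureTheory

set_option linter.unusedSectionVars false

noncomputable section

namespace Pool.Agent.Lib.LL

variable {I : Type} [Fintype I] {F : Type} [NormedAddCommGroup F]

theorem gam_eq_pi : gam I = LL39.gam I := by
  have h0 : (0 : ℝ) < (√(2 * Real.pi))⁻¹ ^ Fintype.card I :=
    pow_pos (inv_pos.2 (Real.sqrt_pos.2 (by positivity))) _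
  have h1 : ∫ q : I → ℝ, LL39.wt q = 1 := by
    have := LL39.int_gam (I := I) fun _ => (1 : ℝ)
    simpa using this.symm
  have h2 : (√(2 * Real.pi))⁻¹ ^ Fintype.card I * ∫ q : I → ℝ, gw q = 1 := by
    rw [← integral_const_mul, ← h1]
    exact integral_congr_ae (Filter.Eventually.of_forall fun q => (LL39.wt_eq q).symm)
  rw [LL39.gam_eq, gam]
  refine congrArg _ (funext fun q => congrArg _ ?_)
  rw [LL39.wt_eq, eq_inv_of_mul_eq_one_right h2, div_inv_eq_mul, mul_comm]
  rfl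

instance gam_prob : IsProbabilityMeasure (gam I) := by rw [gam_eq_pi]; infer_instance

theorem gw_pos (q : I → ℝ) : 0 < gw q := Real.exp_pos _

theorem integral_gam [NormedSpace ℝ F] (f : (I → ℝ) → F) :
    ∫ q, f q ∂gam I = ∫ q, LL39.wt q • f q := by rw [gam_eq_pi, LL39.int_gam]

instance gam_open : (gam I).IsOpenPosMeasure := by
  rw [gam_eq_pi, LL39.gam_eq]
  exact Measure.AbsolutelyContinuous.isOpenPosMeasure (withDensity_absolutelyContinuous'
    LL39.wt_meas.aemeasurable (Filter.Eventually.of_forall fun q =>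
      (ENNReal.ofReal_pos.2 (LL39.wt_pos q)).ne'))

theorem pg_iff {f : (I → ℝ) → F} : PG f ↔ Continuous f ∧ LL39.PG f :=
  ⟨fun ⟨h, C, k, hb⟩ => ⟨h, C, k, by simpa using (norm_nonneg _).trans (hb 0), hb⟩,
    fun ⟨h, C, k, _, hb⟩ => ⟨h, C, k, hb⟩⟩

namespace PG

variable {f g : (I → ℝ) → F}

theorem cont (h : PG f) : Continuous f := h.1

theorem gr (h : PG f) : LL39.PG f := (pg_iff.1 h).2

theorem integrable (h : PG f) : Integrable f (gam I) := by
  rw [gam_eq_pi]; exact h.gr.integrable h.1.aestronglyMeasurable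

theorem const (c : F) : PG fun _ : I → ℝ => c := pg_iff.2 ⟨continuous_const, .const c⟩

theorem coord (l : I) : PG fun q : I → ℝ => q l := pg_iff.2 ⟨continuous_apply l, .coord l⟩

theorem add (hf : PG f) (hg : PG g) : PG fun q => f q + g q :=
  pg_iff.2 ⟨hf.1.add hg.1, hf.gr.add hg.gr⟩

theorem neg (hf : PG f) : PG fun q => -f q := pg_iff.2 ⟨hf.1.neg, hf.gr.neg⟩

theorem sub (hf : PG f) (hg : PG g) : PG fun q => f q - g q :=
  pg_iff.2 ⟨hf.1.sub hg.1, hf.gr.sub hg.gr⟩

theorem sum {ι : Type} {s : Finset ι} {f : ι → (I → ℝ) → F} (h : ∀ i ∈ s, PG (f i)) :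
    PG fun q => ∑ i ∈ s, f i q :=
  pg_iff.2 ⟨continuous_finsetSum _ fun i hi => (h i hi).1, .sum fun i hi => (h i hi).gr⟩

theorem of_le {G : Type} [NormedAddCommGroup G] {g : (I → ℝ) → G} (hg : PG g) (hc : Continuous f)
    (hle : ∀ q, ‖f q‖ ≤ ‖g q‖) : PG f := pg_iff.2 ⟨hc, hg.gr.of_le hle⟩

theorem of_le' {g : (I → ℝ) → ℝ} (hg : PG g) (hc : Continuous f) (hle : ∀ q, ‖f q‖ ≤ g q) :
    PG f := hg.of_le hc fun q => (hle q).trans (le_abs_self _)

theorem of_bound (hc : Continuous f) {C : ℝ} (h : ∀ q, ‖f q‖ ≤ C) : PG f :=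
  pg_iff.2 ⟨hc, .of_bound h⟩

theorem mul {A : Type} [NormedRing A] {f g : (I → ℝ) → A} (hf : PG f) (hg : PG g) :
    PG fun q => f q * g q := pg_iff.2 ⟨hf.1.mul hg.1, hf.gr.mul hg.gr⟩

theorem const_mul {A : Type} [NormedRing A] {f : (I → ℝ) → A} (c : A) (hf : PG f) :
    PG fun q => c * f q := (const c).mul hf

theorem mul_const {A : Type} [NormedRing A] {f : (I → ℝ) → A} (hf : PG f) (c : A) :
    PG fun q => f q * c := hf.mul (const c)

theorem div_const {f : (I → ℝ) → ℝ} (hf : PG f) (c : ℝ) : PG fun q => f q / c := hf.mul_const c⁻¹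

theorem smul {A : Type} [NormedField A] [NormedSpace A F] {f : (I → ℝ) → A} (hf : PG f)
    (hg : PG g) : PG fun q => f q • g q := pg_iff.2 ⟨hf.1.smul hg.1, hf.gr.smul hg.gr⟩

theorem pow {A : Type} [NormedRing A] {f : (I → ℝ) → A} (hf : PG f) (k : ℕ) :
    PG fun q => f q ^ k := pg_iff.2 ⟨hf.1.pow k, hf.gr.pow k⟩

theorem norm (hf : PG f) : PG fun q => ‖f q‖ := pg_iff.2 ⟨hf.1.norm, hf.gr.norm⟩

theorem norm_sq (hf : PG f) : PG fun q => ‖f q‖ ^ 2 := hf.norm.pow 2

theorem abs {f : (I → ℝ) → ℝ} (hf : PG f) : PG fun q => |f q| := hf.norm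

theorem ofReal {f : (I → ℝ) → ℝ} (hf : PG f) : PG fun q => (f q : ℂ) :=
  pg_iff.2 ⟨Complex.continuous_ofReal.comp hf.1, hf.gr.ofReal⟩

theorem re {f : (I → ℝ) → ℂ} (hf : PG f) : PG fun q => (f q).re :=
  hf.of_le (Complex.continuous_re.comp hf.1) fun _ => Complex.abs_re_le_norm _

theorem im {f : (I → ℝ) → ℂ} (hf : PG f) : PG fun q => (f q).im :=
  hf.of_le (Complex.continuous_im.comp hf.1) fun _ => Complex.abs_im_le_norm _

theorem cj {f : (I → ℝ) → ℂ} (hf : PG f) : PG fun q => conj (f q) :=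
  hf.of_le (Complex.continuous_conj.comp hf.1) fun _ => (RCLike.norm_conj _).le

theorem clm {K G : Type} [NontriviallyNormedField K] [NormedSpace K F] [NormedAddCommGroup G]
    [NormedSpace K G] (A : F →L[K] G) (hf : PG f) : PG fun q => A (f q) :=
  ((const ‖A‖).mul hf.norm).of_le' (A.continuous.comp hf.1) fun _ => A.le_opNorm _

theorem memLp (hf : PG f) (k : ℕ) : MemLp f k (gam I) := by
  rcases Nat.eq_zero_or_pos k with rfl | hk
  · simpa using hf.1.aestronglyMeasurable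
  · rw [← integrable_norm_rpow_iff hf.1.aestronglyMeasurable (by simpa using hk.ne') (by simp)]
    simpa using (hf.norm.pow k).integrable

theorem memLp_two (hf : PG f) : MemLp f 2 (gam I) := by simpa using hf.memLp 2

/-- Division by a function bounded below. -/
theorem inv {f : (I → ℝ) → ℝ} (hc : Continuous f) {c : ℝ} (h0 : 0 < c) (h : ∀ q, c ≤ f q) :
    PG fun q => (f q)⁻¹ :=
  of_bound (C := c⁻¹) (hc.inv₀ fun q => (h0.trans_le (h q)).ne') fun q => by
    rw [Real.norm_of_nonneg (inv_pos.2 (h0.trans_le (h q))).le]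
    exact inv_anti₀ h0 (h q)

end PG

variable [DecidableEq I] [NormedSpace ℝ F] {f g : (I → ℝ) → F} {q : I → ℝ} (l : I)

theorem dl_line (hf : DifferentiableAt ℝ f q) : HasLineDerivAt ℝ f (dl l f q) q (Pi.single l 1) :=
  hf.hasFDerivAt.hasLineDerivAt _

theorem dl_of_line {a : F} (hf : DifferentiableAt ℝ f q)
    (h : HasLineDerivAt ℝ f a q (Pi.single l 1)) : dl l f q = a := (dl_line l hf).unique h

theorem dl_const (c : F) (q : I → ℝ) : dl l (fun _ => c) q = 0 := by simp [dl]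

theorem dl_coord (j : I) (q : I → ℝ) : dl l (fun q : I → ℝ => q j) q = if j = l then 1 else 0 := by
  rw [dl, (hasFDerivAt_apply j q).fderiv, ContinuousLinearMap.proj_apply, Pi.single_apply]

theorem dl_add (hf : DifferentiableAt ℝ f q) (hg : DifferentiableAt ℝ g q) :
    dl l (fun q => f q + g q) q = dl l f q + dl l g q := by
  rw [dl, fderiv_fun_add hf hg]; rfl

theorem dl_neg : dl l (fun q => -f q) q = -dl l f q := by rw [dl, fderiv_fun_neg]; rfl

theorem dl_sub (hf : DifferentiableAt ℝ f q) (hg : DifferentiableAt ℝ g q) :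
    dl l (fun q => f q - g q) q = dl l f q - dl l g q := by
  rw [dl, fderiv_fun_sub hf hg]; rfl

theorem dl_sum {ι : Type} {s : Finset ι} {f : ι → (I → ℝ) → F}
    (h : ∀ i ∈ s, DifferentiableAt ℝ (f i) q) :
    dl l (fun q => ∑ i ∈ s, f i q) q = ∑ i ∈ s, dl l (f i) q := by
  rw [dl, fderiv_fun_sum h, sum_apply]; rfl

theorem dl_clm {G : Type} [NormedAddCommGroup G] [NormedSpace ℝ G] (A : F →L[ℝ] G)
    (hf : DifferentiableAt ℝ f q) : dl l (fun q => A (f q)) q = A (dl l f q) :=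
  congrArg (fun B : (I → ℝ) →L[ℝ] G => B (Pi.single l 1))
    (A.hasFDerivAt.comp q hf.hasFDerivAt).fderiv

theorem dl_mul {A : Type} [NormedRing A] [NormedAlgebra ℝ A] {f g : (I → ℝ) → A}
    (hf : DifferentiableAt ℝ f q) (hg : DifferentiableAt ℝ g q) :
    dl l (fun q => f q * g q) q = dl l f q * g q + f q * dl l g q := by
  refine dl_of_line l (hf.mul hg) ?_
  have := (dl_line l hf).fun_mul (dl_line l hg)
  simp only [zero_smul, add_zero] at this
  exact this

theorem dl_const_mul {A : Type} [NormedRing A] [NormedAlgebra ℝ A] {f : (I → ℝ) → A} (c : A)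
    (hf : DifferentiableAt ℝ f q) : dl l (fun q => c * f q) q = c * dl l f q := by
  rw [dl_mul l (differentiableAt_const c) hf, dl_const, zero_mul, zero_add]

theorem dl_mul_const {A : Type} [NormedRing A] [NormedAlgebra ℝ A] {f : (I → ℝ) → A} (c : A)
    (hf : DifferentiableAt ℝ f q) : dl l (fun q => f q * c) q = dl l f q * c := by
  rw [dl_mul l hf (differentiableAt_const c), dl_const, mul_zero, add_zero]

theorem dl_smul {K : Type} [RCLike K] [NormedSpace K F] [IsScalarTower ℝ K F]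
    {f : (I → ℝ) → K} (hf : DifferentiableAt ℝ f q) (hg : DifferentiableAt ℝ g q) :
    dl l (fun q => f q • g q) q = dl l f q • g q + f q • dl l g q := by
  refine dl_of_line l (hf.smul hg) ?_
  have := (dl_line l hf).fun_smul (dl_line l hg)
  simp only [zero_smul, add_zero] at this
  rw [add_comm]
  exact this

theorem dl_comp {f : (I → ℝ) → ℝ} {φ : ℝ → F} {a : F} (hφ : HasDerivAt φ a (f q))
    (hf : DifferentiableAt ℝ f q) : dl l (fun q => φ (f q)) q = dl l f q • a := by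
  refine dl_of_line l (hφ.differentiableAt.comp q hf) ?_
  exact HasDerivAt.scomp_of_eq (0 : ℝ) hφ (dl_line l hf) (by simp)

theorem dl_pow {f : (I → ℝ) → ℝ} (hf : DifferentiableAt ℝ f q) (k : ℕ) :
    dl l (fun q => f q ^ k) q = k * f q ^ (k - 1) * dl l f q := by
  rw [dl_comp l (hasDerivAt_pow k (f q)) hf, smul_eq_mul, mul_comm]

theorem dl_inv {f : (I → ℝ) → ℝ} (hf : DifferentiableAt ℝ f q) (h0 : f q ≠ 0) :
    dl l (fun q => (f q)⁻¹) q = -(f q ^ 2)⁻¹ * dl l f q := by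
  rw [dl_comp l (hasDerivAt_inv h0) hf, smul_eq_mul, mul_comm]

theorem dl_ofReal {f : (I → ℝ) → ℝ} (hf : DifferentiableAt ℝ f q) :
    dl l (fun q => (f q : ℂ)) q = (dl l f q : ℝ) := dl_clm l Complex.ofRealCLM hf

theorem dl_re {f : (I → ℝ) → ℂ} (hf : DifferentiableAt ℝ f q) :
    dl l (fun q => (f q).re) q = (dl l f q).re := dl_clm l Complex.reCLM hf

theorem dl_im {f : (I → ℝ) → ℂ} (hf : DifferentiableAt ℝ f q) :
    dl l (fun q => (f q).im) q = (dl l f q).im := dl_clm l Complex.imCLM hf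

theorem dl_conj {f : (I → ℝ) → ℂ} (hf : DifferentiableAt ℝ f q) :
    dl l (fun q => conj (f q)) q = conj (dl l f q) :=
  dl_clm l (Complex.conjCLE : ℂ →L[ℝ] ℂ) hf

omit l

namespace C1

theorem diff (h : C1 f) : Differentiable ℝ f := h.1

theorem pg (h : C1 f) : PG f := h.2.1

theorem pgd (h : C1 f) (l : I) : PG (dl l f) := h.2.2 l

theorem mk' {f' : I → (I → ℝ) → F} (hd : Differentiable ℝ f) (hf : PG f) (hp : ∀ l, PG (f' l))
    (he : ∀ l q, dl l f q = f' l q) : C1 f :=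
  ⟨hd, hf, fun l => by rw [funext (he l)]; exact hp l⟩

theorem const (c : F) : C1 fun _ : I → ℝ => c :=
  mk' (differentiable_const c) (.const c) (fun _ => .const 0) fun l q => dl_const l c q

theorem coord (j : I) : C1 fun q : I → ℝ => q j :=
  mk' (differentiable_apply j) (.coord j) (fun _ => .const _) fun l q => dl_coord l j q

theorem add (hf : C1 f) (hg : C1 g) : C1 fun q => f q + g q :=
  mk' (hf.1.add hg.1) (hf.pg.add hg.pg) (fun l => (hf.pgd l).add (hg.pgd l))
    fun l q => dl_add l (hf.1 q) (hg.1 q)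

theorem neg (hf : C1 f) : C1 fun q => -f q :=
  mk' hf.1.neg hf.pg.neg (fun l => (hf.pgd l).neg) fun l _ => dl_neg l

theorem sub (hf : C1 f) (hg : C1 g) : C1 fun q => f q - g q :=
  mk' (hf.1.sub hg.1) (hf.pg.sub hg.pg) (fun l => (hf.pgd l).sub (hg.pgd l))
    fun l q => dl_sub l (hf.1 q) (hg.1 q)

theorem sum {ι : Type} {s : Finset ι} {f : ι → (I → ℝ) → F} (h : ∀ i ∈ s, C1 (f i)) :
    C1 fun q => ∑ i ∈ s, f i q :=
  mk' (Differentiable.fun_sum fun i hi => (h i hi).1) (.sum fun i hi => (h i hi).pg)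
    (fun l => .sum fun i hi => (h i hi).pgd l) fun l q => dl_sum l fun i hi => (h i hi).1 q

theorem clm {G : Type} [NormedAddCommGroup G] [NormedSpace ℝ G] (A : F →L[ℝ] G) (hf : C1 f) :
    C1 fun q => A (f q) :=
  mk' (A.differentiable.comp hf.1) (hf.pg.clm A) (fun l => (hf.pgd l).clm A)
    fun l q => dl_clm l A (hf.1 q)

theorem mul {A : Type} [NormedRing A] [NormedAlgebra ℝ A] {f g : (I → ℝ) → A} (hf : C1 f)
    (hg : C1 g) : C1 fun q => f q * g q :=
  mk' (hf.1.mul hg.1) (hf.pg.mul hg.pg) (fun l => ((hf.pgd l).mul hg.pg).add (hf.pg.mul (hg.pgd l)))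
    fun l q => dl_mul l (hf.1 q) (hg.1 q)

theorem const_mul {A : Type} [NormedRing A] [NormedAlgebra ℝ A] {f : (I → ℝ) → A} (c : A)
    (hf : C1 f) : C1 fun q => c * f q := (const c).mul hf

theorem mul_const {A : Type} [NormedRing A] [NormedAlgebra ℝ A] {f : (I → ℝ) → A} (hf : C1 f)
    (c : A) : C1 fun q => f q * c := hf.mul (const c)

theorem div_const {f : (I → ℝ) → ℝ} (hf : C1 f) (c : ℝ) : C1 fun q => f q / c := hf.mul_const c⁻¹

theorem smul {K : Type} [RCLike K] [NormedSpace K F] [IsScalarTower ℝ K F] {f : (I → ℝ) → K}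
    (hf : C1 f) (hg : C1 g) : C1 fun q => f q • g q :=
  mk' (hf.1.smul hg.1) (hf.pg.smul hg.pg)
    (fun l => ((hf.pgd l).smul hg.pg).add (hf.pg.smul (hg.pgd l)))
    fun l q => dl_smul l (hf.1 q) (hg.1 q)

theorem pow {A : Type} [NormedRing A] [NormedAlgebra ℝ A] {f : (I → ℝ) → A} (hf : C1 f) (k : ℕ) :
    C1 fun q => f q ^ k := by
  induction k with
  | zero => simpa using const (1 : A)
  | succ k ih => simpa only [pow_succ] using ih.mul hf

theorem ofReal {f : (I → ℝ) → ℝ} (hf : C1 f) : C1 fun q => (f q : ℂ) := hf.clm Complex.ofRealCLM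

theorem re {f : (I → ℝ) → ℂ} (hf : C1 f) : C1 fun q => (f q).re := hf.clm Complex.reCLM

theorem im {f : (I → ℝ) → ℂ} (hf : C1 f) : C1 fun q => (f q).im := hf.clm Complex.imCLM

theorem cj {f : (I → ℝ) → ℂ} (hf : C1 f) : C1 fun q => conj (f q) :=
  hf.clm (Complex.conjCLE : ℂ →L[ℝ] ℂ)

/-- Composition with a function of one variable. -/
theorem comp {f : (I → ℝ) → ℝ} {φ φ' : ℝ → F} (hf : C1 f) (hφ : ∀ q, HasDerivAt φ (φ' (f q)) (f q))
    (h0 : PG fun q => φ (f q)) (h1 : PG fun q => φ' (f q)) : C1 fun q => φ (f q) :=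
  mk' (fun q => (hφ q).differentiableAt.comp q (hf.1 q)) h0 (fun l => (hf.pgd l).smul h1)
    fun l q => dl_comp l (hφ q) (hf.1 q)

theorem inv {f : (I → ℝ) → ℝ} (hf : C1 f) {c : ℝ} (h0 : 0 < c) (h : ∀ q, c ≤ f q) :
    C1 fun q => (f q)⁻¹ :=
  hf.comp (φ := fun x => x⁻¹) (φ' := fun x => -(x ^ 2)⁻¹)
    (fun q => hasDerivAt_inv (h0.trans_le (h q)).ne') (.inv hf.pg.1 h0 h)
    (by simpa only [inv_pow] using ((PG.inv hf.pg.1 h0 h).pow 2).neg)

end C1

/-- Gaussian integration by parts. -/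
theorem ibp (hf : C1 f) (l : I) : ∫ q, dl l f q ∂gam I = ∫ q, q l • f q ∂gam I := by
  rw [gam_eq_pi]
  exact LL39.ibp l (fun q => dl_line l (hf.1 q)) hf.pg.1 (hf.pgd l).1 hf.pg.gr (hf.pgd l).gr

theorem ibp_real {f : (I → ℝ) → ℝ} (hf : C1 f) (l : I) :
    ∫ q, dl l f q ∂gam I = ∫ q, q l * f q ∂gam I := ibp hf l

theorem ibp_cplx {f : (I → ℝ) → ℂ} (hf : C1 f) (l : I) :
    ∫ q, dl l f q ∂gam I = ∫ q, (q l : ℂ) * f q ∂gam I := ibp hf l

/-- Integration by parts for a product. -/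
theorem ibp_mul {A : Type} [NormedRing A] [NormedAlgebra ℝ A] {f g : (I → ℝ) → A} (hf : C1 f)
    (hg : C1 g) (l : I) : ∫ q, f q * dl l g q ∂gam I =
      ∫ q, (q l • f q - dl l f q) * g q ∂gam I := by
  have h := ibp (hf.mul hg) l
  simp only [fun q => dl_mul l (hf.1 q) (hg.1 q)] at h
  have i1 := ((hf.pgd l).mul hg.pg).integrable
  rw [integral_add i1 (hf.pg.mul (hg.pgd l)).integrable] at h
  simp only [sub_mul, smul_mul_assoc]
  rw [integral_sub ((PG.coord l).smul (hf.pg.mul hg.pg)).integrable i1, ← h, add_sub_cancel_left]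

end Pool.Agent.Lib.LL
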