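import Pool.Agent.Lib.LL.Blue
import Pool.Agent.Lib.LL.Gauss

open scoped ComplexConjugate InnerProductSpace
open MeasureTheory

noncomputable section

namespace Pool.Agent.Lib.LL

namespace T66

variable {I : Type} {T : Type} [SeminormedAddCommGroup T] [InnerProductSpace ℂ T]
  {B B' : Type} [Fintype B] [Fintype B']

theorem inner_vc (p : B → (I → ℝ) → ℂ) (e : B → T) (p' : B' → (I → ℝ) → ℂ) (e' : B' → T)
    (q : I → ℝ) :
    ⟪vc p e q, vc p' e' q⟫_ℂ = ∑ b, ∑ c, conj (p b q) * (p' c q * ⟪e b, e' c⟫_ℂ) := by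
  rw [vc, sum_inner]
  simp only [vc, inner_sum, inner_smul_left, inner_smul_right, mul_left_comm]

theorem nsq_vc (p : B → (I → ℝ) → ℂ) (e : B → T) (q : I → ℝ) :
    ‖vc p e q‖ ^ 2 = (∑ b, ∑ c, conj (p b q) * (p c q * ⟪e b, e c⟫_ℂ)).re := by
  rw [← inner_vc, ← inner_self_eq_norm_sq (𝕜 := ℂ)]
  rfl

variable [Fintype I]

theorem pg_nsq {p : B → (I → ℝ) → ℂ} (hp : ∀ b, PG (p b)) (e : B → T) :
    PG fun q => ‖vc p e q‖ ^ 2 := by
  simp only [nsq_vc]
  exact (PG.sum fun b _ => PG.sum fun c _ => (hp b).cj.mul ((hp c).mul_const _)).re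

theorem sD_vc (P : T →ₗ[ℂ] T) (M : I → T →ₗ[ℂ] T) (p : B → (I → ℝ) → ℂ) (e : B → T)
    (q : I → ℝ) : sD P M q (vc p e q) =
      vc (Sum.elim p fun t : I × B => fun q => (q t.1 : ℂ) * p t.2 q)
        (Sum.elim (fun b => P (e b)) fun t : I × B => M t.1 (e t.2)) q := by
  simp only [sD, vc, LinearMap.add_apply, LinearMap.sum_apply, LinearMap.smul_apply, map_sum,
    map_smul, Fintype.sum_sum_type, Sum.elim_inl, Sum.elim_inr, Fintype.sum_prod_type, smul_add,
    Finset.sum_add_distrib, Finset.smul_sum, smul_smul]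
  rw [Finset.sum_comm]
  simp only [mul_comm]

variable [DecidableEq I]

theorem c1_rh {p : B → (I → ℝ) → ℂ} (hp : ∀ b, C1 (p b)) (e : B → T) : C1 (rh p e) := by
  have : rh p e = fun q => (∑ b, ∑ c, conj (p b q) * (p c q * ⟪e b, e c⟫_ℂ)).re :=
    funext fun q => nsq_vc p e q
  rw [this]
  exact (C1.sum fun b _ => C1.sum fun c _ => (hp b).cj.mul ((hp c).mul_const _)).re

theorem dl_rh {p : B → (I → ℝ) → ℂ} (hp : ∀ b, C1 (p b)) (e : B → T) (l : I) (q : I → ℝ) :
    dl l (rh p e) q = 2 * (⟪vc p e q, vc (fun b => dl l (p b)) e q⟫_ℂ).re := by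
  have : rh p e = fun q => (∑ b, ∑ c, conj (p b q) * (p c q * ⟪e b, e c⟫_ℂ)).re :=
    funext fun q => nsq_vc p e q
  have h1 : ∀ b c, C1 fun q => conj (p b q) * (p c q * ⟪e b, e c⟫_ℂ) := fun b c =>
    (hp b).cj.mul ((hp c).mul_const _)
  rw [this, dl_re l ((C1.sum fun b _ => C1.sum fun c _ => h1 b c).diff q),
    dl_sum l fun b _ => (C1.sum fun c _ => h1 b c).diff q]
  have h2 : ∀ b, dl l (fun q => ∑ c, conj (p b q) * (p c q * ⟪e b, e c⟫_ℂ)) q =
      ∑ c, conj (dl l (p b) q) * (p c q * ⟪e b, e c⟫_ℂ) +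
        ∑ c, conj (p b q) * (dl l (p c) q * ⟪e b, e c⟫_ℂ) := fun b => by
    rw [dl_sum l fun c _ => (h1 b c).diff q, ← Finset.sum_add_distrib]
    refine Finset.sum_congr rfl fun c _ => ?_
    rw [dl_mul l ((hp b).cj.diff q) (((hp c).mul_const _).diff q), dl_conj l ((hp b).diff q),
      dl_mul_const l _ ((hp c).diff q)]
  simp only [h2, Finset.sum_add_distrib]
  rw [← inner_vc (fun b => dl l (p b)) e p e q, ← inner_vc p e (fun b => dl l (p b)) e q,
    ← inner_conj_symm (vc (fun b => dl l (p b)) e q), Complex.add_re, Complex.conj_re, two_mul]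

end T66

open T66 in
theorem st_DEN : St_DEN := by
  intro I T B _ _ _ _ _ p e hp
  refine ⟨⟨c1_rh hp e, fun l => pg_nsq (fun b => (hp b).pgd l) e, fun q => sq_nonneg _,
    fun l q => sq_nonneg _, fun l q => ?_⟩, fun J _ P M => ?_⟩
  · rw [dl_rh hp]
    have h1 := (Complex.abs_re_le_norm _).trans
      (norm_inner_le_norm (𝕜 := ℂ) (vc p e q) (vc (fun b => dl l (p b)) e q))
    have h2 := pow_le_pow_left₀ (abs_nonneg _) h1 2
    rw [sq_abs, mul_pow] at h2
    unfold rh de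
    nlinarith
  · unfold ke
    simp only [sD_vc]
    refine PG.sum fun j _ => pg_nsq (fun b => ?_) _
    rcases b with b | t
    · exact (hp b).pg
    · exact (PG.coord t.1).ofReal.mul (hp t.2).pg

end Pool.Agent.Lib.LL
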