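import Pool.Agent.Lib.LL.Defs

/-! Project ll: calculus of `pd`. -/

open scoped ContDiff
open MeasureTheory

noncomputable section

namespace Pool.Agent.Lib.LL

open Pool.Agent.Lib.MP_791321_mp

variable {F : Type} [NormedAddCommGroup F] [NormedSpace ℝ F] {u v : V3 → F} {f g : V3 → ℝ}
  {i j : Fin 3} {x : V3}

theorem pd_const (c : F) : pd i (fun _ => c) x = 0 := by simp [pd]

theorem pd_add (hu : DifferentiableAt ℝ u x) (hv : DifferentiableAt ℝ v x) :
    pd i (fun y => u y + v y) x = pd i u x + pd i v x := by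
  simp only [pd]; rw [fderiv_fun_add hu hv]; rfl

theorem pd_sub (hu : DifferentiableAt ℝ u x) (hv : DifferentiableAt ℝ v x) :
    pd i (fun y => u y - v y) x = pd i u x - pd i v x := by
  simp only [pd]; rw [fderiv_fun_sub hu hv]; rfl

theorem pd_sum {J : Type} {s : Finset J} {w : J → V3 → F}
    (h : ∀ a ∈ s, DifferentiableAt ℝ (w a) x) :
    pd i (fun y => ∑ a ∈ s, w a y) x = ∑ a ∈ s, pd i (w a) x := by
  simp only [pd]; rw [fderiv_fun_sum h]; simp

theorem pd_mul (hf : DifferentiableAt ℝ f x) (hg : DifferentiableAt ℝ g x) :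
    pd i (fun y => f y * g y) x = pd i f x * g x + f x * pd i g x := by
  simp only [pd]; rw [fderiv_fun_mul hf hg]; simp; ring

theorem pd_cmul {u v : V3 → ℂ} (hu : DifferentiableAt ℝ u x) (hv : DifferentiableAt ℝ v x) :
    pd i (fun y => u y * v y) x = pd i u x * v x + u x * pd i v x := by
  simp only [pd]; rw [fderiv_fun_mul hu hv]; simp; ring

theorem pd_const_mul (c : ℝ) (hf : DifferentiableAt ℝ f x) :
    pd i (fun y => c * f y) x = c * pd i f x := by
  rw [pd_mul (differentiableAt_const c) hf, pd_const]; ring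

/-- The chain rule. -/
theorem pd_comp {h : ℝ → ℝ} {h' : ℝ} (hh : HasDerivAt h h' (f x)) (hf : DifferentiableAt ℝ f x) :
    pd i (fun y => h (f y)) x = h' * pd i f x := by
  have := (hh.comp_hasFDerivAt x hf.hasFDerivAt).fderiv
  simp only [pd]
  rw [show (fun y => h (f y)) = h ∘ f from rfl, this]
  simp

theorem pd_pow (n : ℕ) (hf : DifferentiableAt ℝ f x) :
    pd i (fun y => f y ^ n) x = n * f x ^ (n - 1) * pd i f x :=
  pd_comp (h := fun t => t ^ n) (hasDerivAt_pow n (f x)) hf

theorem pd_re {u : V3 → ℂ} (hu : DifferentiableAt ℝ u x) :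
    pd i (fun y => (u y).re) x = (pd i u x).re := by
  have := (Complex.reCLM.hasFDerivAt.comp x hu.hasFDerivAt).fderiv
  simp only [pd]
  rw [show (fun y => (u y).re) = Complex.reCLM ∘ u from rfl, this]
  simp

theorem pd_im {u : V3 → ℂ} (hu : DifferentiableAt ℝ u x) :
    pd i (fun y => (u y).im) x = (pd i u x).im := by
  have := (Complex.imCLM.hasFDerivAt.comp x hu.hasFDerivAt).fderiv
  simp only [pd]
  rw [show (fun y => (u y).im) = Complex.imCLM ∘ u from rfl, this]
  simp

theorem pd_ofReal (hf : DifferentiableAt ℝ f x) :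
    pd i (fun y => (f y : ℂ)) x = (pd i f x : ℝ) := by
  have := (Complex.ofRealCLM.hasFDerivAt.comp x hf.hasFDerivAt).fderiv
  simp only [pd]
  rw [show (fun y => (f y : ℂ)) = Complex.ofRealCLM ∘ f from rfl, this]
  simp

theorem smooth_pd (hu : ContDiff ℝ ∞ u) (i : Fin 3) : ContDiff ℝ ∞ (pd i u) :=
  (hu.fderiv_right (m := ∞) (by simp)).clm_apply contDiff_const

theorem cont_pd (hu : ContDiff ℝ 1 u) (i : Fin 3) : Continuous (pd i u) :=
  (hu.continuous_fderiv one_ne_zero).clm_apply continuous_const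

theorem cpt_pd (hu : HasCompactSupport u) (i : Fin 3) : HasCompactSupport (pd i u) :=
  hu.fderiv_apply ℝ (ei i)

theorem cont_gr2 (hf : ContDiff ℝ 1 f) : Continuous (gr2 f) :=
  continuous_finsetSum _ fun i _ => (cont_pd hf i).pow 2

theorem gr2_nonneg (f : V3 → ℝ) (x : V3) : 0 ≤ gr2 f x := Finset.sum_nonneg fun _ _ => sq_nonneg _

theorem kap_nonneg (a : Fin 3 → V3 → ℝ) (φ : V3 → ℂ) (x : V3) : 0 ≤ kap a φ x :=
  Finset.sum_nonneg fun _ _ => sq_nonneg _

theorem pd_comm [CompleteSpace F] (hu : ContDiff ℝ ∞ u) (i j : Fin 3) (x : V3) :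
    pd i (pd j u) x = pd j (pd i u) x := by
  have h2 : ContDiffAt ℝ 2 u x := (hu.of_le (WithTop.coe_le_coe.2 le_top)).contDiffAt
  have hs := h2.isSymmSndFDerivAt (by simp)
  have hd : DifferentiableAt ℝ (fderiv ℝ u) x :=
    ((hu.fderiv_right (m := ∞) (by simp)).differentiable (by simp)) x
  have e : ∀ a b : Fin 3, pd a (pd b u) x = fderiv ℝ (fderiv ℝ u) x (ei a) (ei b) := fun a b => by
    rw [pd, show pd b u = fun y => fderiv ℝ u y (ei b) from rfl,
      fderiv_clm_apply hd (differentiableAt_const _)]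
    simp
  rw [e, e, hs.eq]

/-- The integral of a derivative vanishes. -/
theorem integral_pd (hf : ContDiff ℝ 1 f) (hc : HasCompactSupport f) (i : Fin 3) :
    ∫ x, pd i f x = 0 := by
  have h := integral_mul_fderiv_eq_neg_fderiv_mul_of_integrable (μ := volume)
    (f := fun _ : V3 => (1 : ℝ)) (g := f) (v := ei i) (by simp)
    (by
      simp only [one_mul]
      exact (cont_pd hf i).integrable_of_hasCompactSupport (cpt_pd hc i))
    (by simpa using hf.continuous.integrable_of_hasCompactSupport hc)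
    (fun x _ => differentiableAt_const _) (fun x _ => hf.differentiable one_ne_zero x)
  simpa [pd] using h

/-- The inequality of Cauchy and Schwarz. -/
theorem cs_int {α : Type} [MeasurableSpace α] {μ : Measure α} {f g : α → ℝ}
    (hf : Integrable (fun x => f x ^ 2) μ) (hg : Integrable (fun x => g x ^ 2) μ)
    (hfg : Integrable (fun x => f x * g x) μ) :
    (∫ x, f x * g x ∂μ) ^ 2 ≤ (∫ x, f x ^ 2 ∂μ) * ∫ x, g x ^ 2 ∂μ := by
  have h : ∀ t : ℝ, 0 ≤ (∫ x, f x ^ 2 ∂μ) * (t * t) + (2 * ∫ x, f x * g x ∂μ) * t +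
      ∫ x, g x ^ 2 ∂μ := fun t => by
    have e : ∫ x, (t * f x + g x) ^ 2 ∂μ = (∫ x, f x ^ 2 ∂μ) * (t * t) +
        (2 * ∫ x, f x * g x ∂μ) * t + ∫ x, g x ^ 2 ∂μ := by
      have e1 : ∀ x, (t * f x + g x) ^ 2 = (t * t * f x ^ 2 + 2 * t * (f x * g x)) + g x ^ 2 :=
        fun x => by ring
      simp only [e1]
      have i1 : Integrable (fun x => t * t * f x ^ 2 + 2 * t * (f x * g x)) μ :=
        (hf.const_mul _).add (hfg.const_mul _)
      rw [integral_add i1 hg,
        integral_add (hf.const_mul _) (hfg.const_mul _), integral_const_mul, integral_const_mul]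
      ring
    rw [← e]
    exact integral_nonneg fun x => sq_nonneg _
  have := discrim_le_zero h
  rw [discrim] at this
  nlinarith

/-- The magnetic energy density in real terms. -/
theorem kap_eq {a : Fin 3 → V3 → ℝ} {φ : V3 → ℂ} (hφ : DifferentiableAt ℝ φ x) :
    kap a φ x = ∑ i, ((pd i (fun y => (φ y).im) x + a i x * (φ x).re) ^ 2 +
      (-pd i (fun y => (φ y).re) x + a i x * (φ x).im) ^ 2) := by
  refine Finset.sum_congr rfl fun i _ => ?_
  rw [pd_re hφ, pd_im hφ, Complex.sq_norm, Complex.normSq_apply]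
  simp; ring

end Pool.Agent.Lib.LL
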