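import Pool.Agent.Lib.LL.Blue
import Pool.Agent.Lib.LL.Pd

/-! Project ll: the curl identity tested against a bump. -/

open scoped ContDiff
open MeasureTheory

noncomputable section

namespace Pool.Agent.Lib.LL

open Pool.Agent.Lib.MP_791321_mp

namespace T90

/-- The curl of the current. -/
theorem curl_cur {u v a b : V3 → ℝ} (hu : ContDiff ℝ ∞ u) (hv : ContDiff ℝ ∞ v)
    (ha : ContDiff ℝ ∞ a) (hb : ContDiff ℝ ∞ b) (i j : Fin 3) (x : V3) :
    pd i (fun y => u y * (pd j v y + b y * u y) + v y * (-pd j u y + b y * v y)) x -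
      pd j (fun y => u y * (pd i v y + a y * u y) + v y * (-pd i u y + a y * v y)) x =
    2 * ((pd i v x + a x * u x) * (-pd j u x + b x * v x) -
      (-pd i u x + a x * v x) * (pd j v x + b x * u x)) +
      (u x ^ 2 + v x ^ 2) * (pd i b x - pd j a x) := by
  have d : ∀ {f : V3 → ℝ}, ContDiff ℝ ∞ f → DifferentiableAt ℝ f x := fun hf =>
    hf.differentiable (by simp) x
  have e : ∀ (i j : Fin 3) {b : V3 → ℝ}, ContDiff ℝ ∞ b →
      pd i (fun y => u y * (pd j v y + b y * u y) + v y * (-pd j u y + b y * v y)) x =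
      pd i u x * (pd j v x + b x * u x) + u x * (pd i (pd j v) x + (pd i b x * u x + b x * pd i u x)) +
      (pd i v x * (-pd j u x + b x * v x) +
        v x * (-pd i (pd j u) x + (pd i b x * v x + b x * pd i v x))) := by
    intro i j b hb
    have n : pd i (fun y => -pd j u y) x = -pd i (pd j u) x := by
      simpa using pd_const_mul (i := i) (-1) (d (smooth_pd hu j))
    rw [pd_add (d (hu.mul ((smooth_pd hv j).add (hb.mul hu))))
        (d (hv.mul ((smooth_pd hu j).neg.add (hb.mul hv)))),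
      pd_mul (d hu) (d ((smooth_pd hv j).add (hb.mul hu))),
      pd_mul (d hv) (d ((smooth_pd hu j).neg.add (hb.mul hv))),
      pd_add (d (smooth_pd hv j)) (d (hb.mul hu)), pd_add (d (smooth_pd hu j).neg) (d (hb.mul hv)),
      pd_mul (d hb) (d hu), pd_mul (d hb) (d hv), n]
  rw [e i j hb, e j i ha, pd_comm hu i j, pd_comm hv i j]
  ring

theorem two_le (j : Fin 3) {f : Fin 3 → ℝ} (hf : ∀ i, 0 ≤ f i) :
    f (j + 1) + f (j + 2) ≤ ∑ i, f i := by
  rw [Fin.sum_univ_three]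
  fin_cases j
  · simpa using (show f 1 + f 2 ≤ f 0 + f 1 + f 2 by linarith [hf 0])
  · simpa using (show f 2 + f 0 ≤ f 0 + f 1 + f 2 by linarith [hf 1])
  · simpa using (show f 0 + f 1 ≤ f 0 + f 1 + f 2 by linarith [hf 2])

/-- The weight as a function of the density. -/
def ff (r t : ℝ) : ℝ := 2 * (3 * r ^ 2 + t ^ 2) / (r + t) ^ 3

theorem ff_der {r t : ℝ} (h : r + t ≠ 0) :
    HasDerivAt (ff r) (-2 * (9 * r ^ 2 - 2 * r * t + t ^ 2) / (r + t) ^ 4) t := by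
  have h1 : HasDerivAt (fun t : ℝ => 2 * (3 * r ^ 2 + t ^ 2)) (2 * (2 * t)) t := by
    simpa using ((hasDerivAt_pow 2 t).const_add (3 * r ^ 2)).const_mul 2
  have h2 : HasDerivAt (fun t : ℝ => (r + t) ^ 3) (3 * (r + t) ^ 2) t := by
    simpa using ((hasDerivAt_id t).const_add r).fun_pow 3
  refine (h1.fun_div h2 (pow_ne_zero 3 h)).congr_deriv ?_
  field_simp
  ring

theorem ff_sq {r t : ℝ} (hr : 0 < r) (ht : 0 ≤ t) : ff r t ^ 2 * t ≤ 36 / r := by
  have h : 0 < r + t := by positivity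
  have h1 : ff r t ≤ 6 / (r + t) := by
    rw [ff, div_le_div_iff₀ (by positivity) h]
    have : 0 ≤ (r + t) * (12 * (r * t) + 4 * t ^ 2) := by positivity
    nlinarith
  have h0 : 0 ≤ ff r t := by rw [ff]; positivity
  calc ff r t ^ 2 * t ≤ (6 / (r + t)) ^ 2 * t := by gcongr
    _ ≤ _ := by
      rw [div_pow, div_mul_eq_mul_div, div_le_div_iff₀ (by positivity) hr]
      nlinarith [sq_nonneg r, sq_nonneg t, mul_nonneg hr.le ht]

theorem ff_mix {r t : ℝ} (hr : 0 < r) (ht : 0 ≤ t) :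
    |-2 * (9 * r ^ 2 - 2 * r * t + t ^ 2) / (r + t) ^ 4 * t + ff r t| ≤ 24 / r := by
  have h : 0 < r + t := by positivity
  have e : -2 * (9 * r ^ 2 - 2 * r * t + t ^ 2) / (r + t) ^ 4 * t + ff r t =
      6 * r * (r - t) ^ 2 / (r + t) ^ 4 := by
    rw [ff]; field_simp; ring
  rw [e, abs_of_nonneg (by positivity), div_le_div_iff₀ (by positivity) hr]
  have h1 : (r - t) ^ 2 ≤ (r + t) ^ 2 := by nlinarith [mul_nonneg hr.le ht]
  have h2 : r ^ 2 ≤ (r + t) ^ 2 := by gcongr; linarith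
  have h3 : r ^ 2 * (r - t) ^ 2 ≤ (r + t) ^ 2 * (r + t) ^ 2 := by gcongr
  nlinarith [pow_pos h 4]

end T90

open T90

theorem st_EA (hC : St_CUB) : St_EA := by
  refine ⟨1200, by norm_num, fun a φ χ c S γ r j ha hχ hS hr => ?_⟩
  obtain ⟨cm, -, cv, cr, -, ci, -⟩ := hC.1 c S
  obtain ⟨hc, -⟩ := hC.2.2 χ c S γ hχ
  obtain ⟨u, hu⟩ : ∃ u : V3 → ℝ, u = fun y => (φ.val y).re := ⟨_, rfl⟩
  obtain ⟨v, hv⟩ : ∃ v : V3 → ℝ, v = fun y => (φ.val y).im := ⟨_, rfl⟩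
  have su : ContDiff ℝ ∞ u := hu ▸ Complex.reCLM.contDiff.comp φ.smooth
  have sv : ContDiff ℝ ∞ v := hv ▸ Complex.imCLM.contDiff.comp φ.smooth
  have d : ∀ {f : V3 → ℝ} {x : V3}, ContDiff ℝ ∞ f → DifferentiableAt ℝ f x := fun hf =>
    hf.differentiable (by simp) _
  have one : ∀ {f : V3 → ℝ}, ContDiff ℝ ∞ f → ContDiff ℝ 1 f := fun hf => hf.of_le (by simp)
  obtain ⟨X, hX⟩ : ∃ X : Fin 3 → V3 → ℝ, X = fun i y => pd i v y + a i y * u y := ⟨_, rfl⟩
  obtain ⟨Y, hY⟩ : ∃ Y : Fin 3 → V3 → ℝ, Y = fun i y => -pd i u y + a i y * v y := ⟨_, rfl⟩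
  have sX : ∀ i, ContDiff ℝ ∞ (X i) := fun i => hX ▸ (smooth_pd sv i).add ((ha i).mul su)
  have sY : ∀ i, ContDiff ℝ ∞ (Y i) := fun i => hY ▸ (smooth_pd su i).neg.add ((ha i).mul sv)
  have hk : ∀ x, kap a φ.val x = ∑ i, (X i x ^ 2 + Y i x ^ 2) := fun x => by
    rw [kap_eq (φ.diff x), hX, hY, hu, hv]
  have ck : Continuous (kap a φ.val) := by
    rw [funext hk]
    exact continuous_finsetSum _ fun i _ => ((sX i).continuous.pow 2).add ((sY i).continuous.pow 2)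
  have hρ : ∀ x, ‖φ.val x‖ ^ 2 = u x ^ 2 + v x ^ 2 := fun x => by
    rw [Complex.sq_norm, Complex.normSq_apply, hu, hv]; ring
  obtain ⟨ρ, eρ⟩ : ∃ ρ : V3 → ℝ, ρ = fun y => u y ^ 2 + v y ^ 2 := ⟨_, rfl⟩
  have sρ : ContDiff ℝ ∞ ρ := eρ ▸ (su.pow 2).add (sv.pow 2)
  have ρ0 : ∀ x, 0 ≤ ρ x := fun x => by rw [eρ]; positivity
  have ne : ∀ x, r + ρ x ≠ 0 := fun x => (add_pos_of_pos_of_nonneg hr (ρ0 x)).ne'
  have dρ : ∀ i x, pd i ρ x = 2 * (v x * X i x - u x * Y i x) := fun i x => by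
    rw [eρ, pd_add (d (su.pow 2)) (d (sv.pow 2)), pd_pow 2 (d su), pd_pow 2 (d sv), hX, hY]
    push_cast; ring
  have sf : ContDiff ℝ ∞ fun y => ff r (ρ y) :=
    (contDiff_const.mul (contDiff_const.add (sρ.pow 2))).div ((contDiff_const.add sρ).pow 3)
      fun y => pow_ne_zero 3 (ne y)
  obtain ⟨ζ, hζ⟩ : ∃ ζ : V3 → ℝ, ζ = fun y => χ y ^ 3 * ff r (ρ y) := ⟨_, rfl⟩
  have sζ : ContDiff ℝ ∞ ζ := hζ ▸ (hχ.sm.pow 3).mul sf
  have c3 : HasCompactSupport fun y => χ y ^ 3 := hc.comp_left (g := fun t : ℝ => t ^ 3) (by simp)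
  have cζ : HasCompactSupport ζ := hζ ▸ c3.mul_right
  obtain ⟨J, hJ⟩ : ∃ J : Fin 3 → V3 → ℝ, J = fun i y => u y * X i y + v y * Y i y := ⟨_, rfl⟩
  have sJ : ∀ i, ContDiff ℝ ∞ (J i) := fun i => hJ ▸ (su.mul (sX i)).add (sv.mul (sY i))
  obtain ⟨H1, h1⟩ : ∃ H1 : V3 → ℝ, H1 = fun y => -(3 * χ y ^ 2 * ff r (ρ y) *
    (pd (j + 1) χ y * J (j + 2) y - pd (j + 2) χ y * J (j + 1) y)) := ⟨_, rfl⟩
  obtain ⟨H2, h2⟩ : ∃ H2 : V3 → ℝ, H2 = fun y => -(2 * χ y ^ 3 *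
    (-2 * (9 * r ^ 2 - 2 * r * ρ y + ρ y ^ 2) / (r + ρ y) ^ 4 * ρ y + ff r (ρ y)) *
    (X (j + 1) y * Y (j + 2) y - Y (j + 1) y * X (j + 2) y)) := ⟨_, rfl⟩
  have key : ∀ x, χ x ^ 3 * (1 - ((r - ‖φ.val x‖ ^ 2) / (r + ‖φ.val x‖ ^ 2)) ^ 3) * curl a j x =
      (pd (j + 1) (fun y => ζ y * J (j + 2) y) x - pd (j + 2) (fun y => ζ y * J (j + 1) y) x) +
        (H1 x + H2 x) := fun x => by
    have e1 := curl_cur su sv (ha (j + 1)) (ha (j + 2)) (j + 1) (j + 2) x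
    have e2 : pd (j + 1) (J (j + 2)) x - pd (j + 2) (J (j + 1)) x =
        2 * (X (j + 1) x * Y (j + 2) x - Y (j + 1) x * X (j + 2) x) + ρ x * curl a j x := by
      rw [hJ, hX, hY, eρ]; exact e1
    have e3 : ∀ i, pd i ζ x = 3 * χ x ^ 2 * pd i χ x * ff r (ρ x) + χ x ^ 3 *
        (-2 * (9 * r ^ 2 - 2 * r * ρ x + ρ x ^ 2) / (r + ρ x) ^ 4 *
          (2 * (v x * X i x - u x * Y i x))) := fun i => by
      rw [hζ, pd_mul (d (hχ.sm.pow 3)) (d sf), pd_pow 3 (d hχ.sm),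
        pd_comp (ff_der (ne x)) (d sρ), dρ]
      push_cast; ring
    have e4 : 1 - ((r - ρ x) / (r + ρ x)) ^ 3 = ρ x * ff r (ρ x) := by
      have := ne x
      rw [ff]; field_simp; ring
    have e5 : ρ x = u x ^ 2 + v x ^ 2 := by rw [eρ]
    have e6 : ζ x = χ x ^ 3 * ff r (ρ x) := by rw [hζ]
    have e7 : ∀ i, J i x = u x * X i x + v x * Y i x := fun i => by rw [hJ]
    rw [hρ, ← e5, e4, pd_mul (d sζ) (d (sJ _)), pd_mul (d sζ) (d (sJ _)), e3, e3, h1, h2, e6]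
    simp only [e7]
    generalize -2 * (9 * r ^ 2 - 2 * r * ρ x + ρ x ^ 2) / (r + ρ x) ^ 4 = D
    linear_combination (-(χ x ^ 3 * ff r (ρ x))) * e2 + 2 * χ x ^ 3 * D *
      (X (j + 1) x * Y (j + 2) x - Y (j + 1) x * X (j + 2) x) * e5
  have z1 : ∀ x, x ∉ cube c S → χ x = 0 := fun x hx => by_contra fun h => hx (hχ.su x h)
  have cχ := hχ.sm.continuous
  have c1 : Continuous H1 := h1 ▸ ((((continuous_const.mul (cχ.pow 2)).mul sf.continuous).mul
    (((cont_pd (one hχ.sm) _).mul (sJ _).continuous).sub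
      ((cont_pd (one hχ.sm) _).mul (sJ _).continuous))).neg)
  have c2 : Continuous H2 := by
    have := sρ.continuous
    have c4 : Continuous fun y => -2 * (9 * r ^ 2 - 2 * r * ρ y + ρ y ^ 2) / (r + ρ y) ^ 4 :=
      Continuous.div (by fun_prop) (by fun_prop) fun y => pow_ne_zero 4 (ne y)
    exact h2 ▸ ((((continuous_const.mul (cχ.pow 3)).mul ((c4.mul this).add sf.continuous)).mul
      (((sX _).continuous.mul (sY _).continuous).sub
        ((sY _).continuous.mul (sX _).continuous))).neg)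
  have b1 : ∀ x, H1 x ^ 2 ≤ 324 * γ ^ 2 / r * kap a φ.val x := fun x => by
    have a1 := two_le j (f := fun i => pd i χ x ^ 2) fun i => sq_nonneg _
    have a2 := two_le j (f := fun i => X i x ^ 2 + Y i x ^ 2) fun i => by positivity
    have a3 := hχ.gr x
    have e7 : ∀ i, J i x ^ 2 ≤ ρ x * (X i x ^ 2 + Y i x ^ 2) := fun i => by
      rw [hJ, eρ]; nlinarith [sq_nonneg (u x * Y i x - v x * X i x)]
    have a4 : J (j + 1) x ^ 2 + J (j + 2) x ^ 2 ≤ ρ x * kap a φ.val x := by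
      rw [hk]; nlinarith [e7 (j + 1), e7 (j + 2), mul_le_mul_of_nonneg_left a2 (ρ0 x)]
    have a5 : (pd (j + 1) χ x * J (j + 2) x - pd (j + 2) χ x * J (j + 1) x) ^ 2 ≤
        γ ^ 2 * (ρ x * kap a φ.val x) := by
      refine le_trans ?_ (mul_le_mul (a1.trans a3) a4 (by positivity) (by positivity))
      nlinarith [sq_nonneg (pd (j + 1) χ x * J (j + 1) x + pd (j + 2) χ x * J (j + 2) x)]
    have a6 : χ x ^ 4 ≤ 1 := pow_le_one₀ (hχ.nn x) (hχ.le x)
    have a7 := ff_sq hr (ρ0 x)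
    have a8 := kap_nonneg a φ.val x
    calc H1 x ^ 2 = 9 * χ x ^ 4 * ff r (ρ x) ^ 2 *
          (pd (j + 1) χ x * J (j + 2) x - pd (j + 2) χ x * J (j + 1) x) ^ 2 := by rw [h1]; ring
      _ ≤ 9 * 1 * ff r (ρ x) ^ 2 * (γ ^ 2 * (ρ x * kap a φ.val x)) := by gcongr
      _ = 9 * γ ^ 2 * kap a φ.val x * (ff r (ρ x) ^ 2 * ρ x) := by ring
      _ ≤ 9 * γ ^ 2 * kap a φ.val x * (36 / r) := by gcongr
      _ = _ := by ring
  have b2 : ∀ x, |H2 x| ≤ 24 / r * kap a φ.val x := fun x => by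
    have a2 := two_le j (f := fun i => X i x ^ 2 + Y i x ^ 2) fun i => by positivity
    have a3 : |2 * (X (j + 1) x * Y (j + 2) x - Y (j + 1) x * X (j + 2) x)| ≤ kap a φ.val x := by
      rw [hk, abs_le]
      constructor <;> nlinarith [sq_nonneg (X (j + 1) x + Y (j + 2) x),
        sq_nonneg (X (j + 1) x - Y (j + 2) x), sq_nonneg (Y (j + 1) x + X (j + 2) x),
        sq_nonneg (Y (j + 1) x - X (j + 2) x)]
    have a6 : |χ x ^ 3| ≤ 1 := by
      rw [abs_of_nonneg (pow_nonneg (hχ.nn x) 3)]; exact pow_le_one₀ (hχ.nn x) (hχ.le x)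
    have a7 := ff_mix hr (ρ0 x)
    calc |H2 x| = |χ x ^ 3| * |-2 * (9 * r ^ 2 - 2 * r * ρ x + ρ x ^ 2) / (r + ρ x) ^ 4 * ρ x +
          ff r (ρ x)| * |2 * (X (j + 1) x * Y (j + 2) x - Y (j + 1) x * X (j + 2) x)| := by
          rw [h2, abs_neg, ← abs_mul, ← abs_mul]; congr 1; ring
      _ ≤ 1 * (24 / r) * kap a φ.val x := by gcongr
      _ = _ := by ring
  have i0 : ∀ i k, Integrable (pd i fun y => ζ y * J k y) := fun i k =>
    (cont_pd (one (sζ.mul (sJ k))) i).integrable_of_hasCompactSupport (cpt_pd cζ.mul_right i)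
  have z2 : ∀ x, x ∉ cube c S → H1 x + H2 x = 0 := fun x hx => by rw [h1, h2]; simp [z1 x hx]
  have i1 : Integrable fun x => H1 x + H2 x :=
    (integrableOn_iff_integrable_of_support_subset fun x hx =>
      by_contra fun h => hx (z2 x h)).1 (ci _ (c1.add c2))
  simp only [key]
  have i2 : Integrable fun x => pd (j + 1) (fun y => ζ y * J (j + 2) y) x -
      pd (j + 2) (fun y => ζ y * J (j + 1) y) x := (i0 _ _).sub (i0 _ _)
  rw [integral_add i2 i1, integral_sub (i0 _ _) (i0 _ _),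
    integral_pd (one (sζ.mul (sJ _))) cζ.mul_right, integral_pd (one (sζ.mul (sJ _))) cζ.mul_right,
    ← setIntegral_eq_integral_of_forall_compl_eq_zero z2, integral_add (ci _ c1) (ci _ c2)]
  have f1 := cs_int (μ := volume.restrict (cube c S)) (f := fun _ => 1) (g := H1)
    (ci _ (continuous_const.pow 2)) (ci _ (c1.pow 2)) (ci _ (continuous_const.mul c1))
  have f2 : ∫ x in cube c S, H1 x ^ 2 ≤ 324 * γ ^ 2 / r * ∫ x in cube c S, kap a φ.val x := by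
    rw [← integral_const_mul]
    exact integral_mono (ci _ (c1.pow 2)) (ci _ (continuous_const.mul ck)) b1
  have f3 : |∫ x in cube c S, H2 x| ≤ 24 / r * ∫ x in cube c S, kap a φ.val x := by
    rw [← integral_const_mul]
    exact abs_integral_le_integral_abs.trans
      (integral_mono (ci _ c2.abs) (ci _ (continuous_const.mul ck)) b2)
  simp only [one_mul, one_pow, integral_const, smul_eq_mul, mul_one, measureReal_restrict_apply_univ,
    cr hS.le] at f1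
  have e0 : 0 ≤ ∫ x in cube c S, kap a φ.val x := integral_nonneg fun x => kap_nonneg _ _ x
  generalize ∫ x in cube c S, kap a φ.val x = e at *
  have f4 := f1.trans (mul_le_mul_of_nonneg_left f2 (by positivity))
  have f5 := sq_le_sq' (abs_le.1 f3).1 (abs_le.1 f3).2
  have f6 : S ^ 3 * (324 * γ ^ 2 / r * e) = 324 * (γ ^ 2 * S ^ 3 * (e / r)) := by ring
  have f7 : (24 / r * e) ^ 2 = 576 * (e / r) ^ 2 := by ring
  have f8 : 0 ≤ γ ^ 2 * S ^ 3 * (e / r) := by positivity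
  rw [f6] at f4
  rw [f7] at f5
  nlinarith [sq_nonneg ((∫ x in cube c S, H1 x) - ∫ x in cube c S, H2 x), sq_nonneg (e / r)]

end Pool.Agent.Lib.LL
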