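import Pool.Agent.Lib.LL.Blue
import Pool.Agent.Lib.LL.Gauss

/-! Project ll90: the commutator bound for the field energy. -/

open MeasureTheory

namespace Pool.Agent.Lib.LL

namespace T39

theorem amgm {c a b : ℝ} (ha : 0 ≤ a) (hb : 0 ≤ b) (h : c ^ 2 ≤ 4 * a * b) : |c| ≤ a + b :=
  abs_le_of_sq_le_sq' (by nlinarith [sq_nonneg (a - b)]) (add_nonneg ha hb) |> abs_le.2

end T39

theorem st_F0 : St_F0 := by
  intro I _ _ ν ρ δ x hν hD hx
  have p : ∀ l, PG fun q => (√(ν l) * dl l (x l) q - x l q ^ 2 - √(ν l) * q l * x l q) * ρ q :=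
    fun l => (((((hx l).pgd l).const_mul _).sub ((hx l).pg.pow 2)).sub
      (((PG.coord l).const_mul _).mul (hx l).pg)).mul hD.c1.pg
  simp only [Finset.sum_mul]
  rw [integral_finsetSum _ fun l _ => (p l).integrable]
  refine Finset.sum_le_sum fun l _ => ?_
  have h1 := ibp_mul (hx l) hD.c1 l
  have i1 := (((hx l).pg.mul (hD.c1.pgd l)).const_mul (√(ν l))).integrable
  have i2 := (((((PG.coord l).smul (hx l).pg).sub ((hx l).pgd l)).mul hD.c1.pg).const_mul
    (√(ν l))).integrable
  have h2 : ∫ q, (√(ν l) * ((q l • x l q - dl l (x l) q) * ρ q) -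
      √(ν l) * (x l q * dl l ρ q)) ∂gam I = 0 := by
    rw [integral_sub i2 i1, integral_const_mul, integral_const_mul, h1, sub_self]
  have i3 : Integrable (fun q => √(ν l) * ((q l • x l q - dl l (x l) q) * ρ q) -
      √(ν l) * (x l q * dl l ρ q)) (gam I) := i2.sub i1
  rw [← integral_const_mul, ← add_zero (∫ q, _ * ρ q ∂gam I), ← h2,
    ← integral_add (p l).integrable i3]
  refine integral_mono ((p l).integrable.add i3) ((hD.pg l).const_mul _).integrable
    fun q => ?_
  have h3 := T39.amgm (c := √(ν l) * (x l q * dl l ρ q)) (mul_nonneg (sq_nonneg (x l q)) (hD.nn q))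
    (mul_nonneg (hν l) (hD.nd l q)) (by
      rw [mul_pow, mul_pow, Real.sq_sqrt (hν l)]
      nlinarith [mul_le_mul_of_nonneg_left (hD.cs l q) (mul_nonneg (hν l) (sq_nonneg (x l q)))])
  simp only [smul_eq_mul]
  linarith [(abs_le.1 h3).1]

end Pool.Agent.Lib.LL
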