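import Pool.Agent.Lib.LL.B_F0

/-! Project ll90: quadratic forms are bounded by the field energy. -/

open MeasureTheory
open scoped Matrix

namespace Pool.Agent.Lib.LL

namespace T39

variable {I : Type} [Fintype I]

theorem sym {M : Matrix I I ℝ} (hM : M.PosSemidef) (x y : I → ℝ) : x ⬝ᵥ M *ᵥ y = y ⬝ᵥ M *ᵥ x := by
  have h : Mᵀ = M := hM.1
  rw [Matrix.dotProduct_mulVec, ← Matrix.mulVec_transpose, h, dotProduct_comm]

theorem psd_cs {M : Matrix I I ℝ} (hM : M.PosSemidef) (x y : I → ℝ) :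
    (x ⬝ᵥ M *ᵥ y) ^ 2 ≤ (x ⬝ᵥ M *ᵥ x) * (y ⬝ᵥ M *ᵥ y) := by
  have h := discrim_le_zero (a := x ⬝ᵥ M *ᵥ x) (b := 2 * (x ⬝ᵥ M *ᵥ y)) (c := y ⬝ᵥ M *ᵥ y)
    fun t => by
      have h1 := hM.dotProduct_mulVec_nonneg (t • x + y)
      simp only [star_trivial, Matrix.mulVec_add, Matrix.mulVec_smul, add_dotProduct,
        dotProduct_add, smul_dotProduct, dotProduct_smul, smul_eq_mul, sym hM y x] at h1
      linarith
  rw [discrim] at h
  linarith

variable [DecidableEq I]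

theorem c1_row (M : Matrix I I ℝ) (l : I) : C1 fun q : I → ℝ => (M *ᵥ q) l :=
  C1.sum (f := fun j q => M l j * q j) fun j _ => (C1.coord j).const_mul _

theorem dl_row (M : Matrix I I ℝ) (l k : I) (q : I → ℝ) :
    dl k (fun q : I → ℝ => (M *ᵥ q) l) q = M l k := by
  refine (dl_sum k (f := fun j q => M l j * q j) fun j _ => ((C1.coord j).const_mul _).1 q).trans ?_
  simp only [fun j => dl_const_mul k (M l j) ((C1.coord j).1 q), dl_coord, mul_ite, mul_one,
    mul_zero, Finset.sum_ite_eq', Finset.mem_univ, if_true]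

theorem c1_qf (M : Matrix I I ℝ) : C1 fun q : I → ℝ => q ⬝ᵥ M *ᵥ q :=
  C1.sum (f := fun l q => q l * (M *ᵥ q) l) fun l _ => (C1.coord l).mul (c1_row M l)

/-- The integrated identity. -/
theorem qf_ibp (M : Matrix I I ℝ) {ρ : (I → ℝ) → ℝ} (hρ : C1 ρ) :
    ∫ q, (q ⬝ᵥ M *ᵥ q) * ρ q ∂gam I = M.trace * ∫ q, ρ q ∂gam I +
      ∫ q, (fun l => dl l ρ q) ⬝ᵥ M *ᵥ q ∂gam I := by
  have h1 : ∀ l, ∫ q, q l * (M *ᵥ q) l * ρ q ∂gam I =
      M l l * ∫ q, ρ q ∂gam I + ∫ q, dl l ρ q * (M *ᵥ q) l ∂gam I := fun l => by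
    have h := ibp_real ((c1_row M l).mul hρ) l
    simp only [fun q => dl_mul l ((c1_row M l).1 q) (hρ.1 q), dl_row] at h
    rw [integral_add (hρ.pg.const_mul _).integrable ((c1_row M l).pg.mul (hρ.pgd l)).integrable,
      integral_const_mul] at h
    simp only [mul_assoc, ← h, mul_comm (dl l ρ _)]
  simp only [dotProduct, Finset.sum_mul, Matrix.trace, Matrix.diag_apply]
  rw [integral_finsetSum _ fun l _ => (((PG.coord l).mul (c1_row M l).pg).mul hρ.pg).integrable,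
    integral_finsetSum _ fun l _ => ((hρ.pgd l).mul (c1_row M l).pg).integrable,
    ← Finset.sum_add_distrib]
  exact Finset.sum_congr rfl fun l _ => h1 l

omit [DecidableEq I] in
theorem dr_eq {ν : I → ℝ} {δ : I → (I → ℝ) → ℝ} (h : ∀ l, PG (δ l)) :
    Dr ν δ = ∫ q, ∑ l, ν l * δ l q ∂gam I := by
  rw [integral_finsetSum _ fun l _ => ((h l).const_mul _).integrable]
  simp only [integral_const_mul, Dr]

end T39

open T39

theorem st_F2 : St_F2 := by
  intro I _ _ ν ρ δ M κ hν hD hM hκ hb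
  have h1 := qf_ibp M hD.c1
  have i1 := ((c1_qf M).pg.mul hD.c1.pg).integrable
  have i2 : Integrable (fun q => ∑ l, ν l * δ l q) (gam I) :=
    (PG.sum fun l _ => (hD.pg l).const_mul _).integrable
  have h2 : ∫ q, (fun l => dl l ρ q) ⬝ᵥ M *ᵥ q ∂gam I ≤
      ∫ q, (1 / 2 * ((q ⬝ᵥ M *ᵥ q) * ρ q) + 2 * κ * ∑ l, ν l * δ l q) ∂gam I := by
    refine integral_mono (PG.sum (f := fun l q => dl l ρ q * (M *ᵥ q) l) fun l _ =>
      (hD.c1.pgd l).mul (c1_row M l).pg).integrable ((i1.const_mul _).add (i2.const_mul _))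
      fun q => (le_abs_self _).trans ?_
    have a0 : 0 ≤ q ⬝ᵥ M *ᵥ q := by simpa using hM.dotProduct_mulVec_nonneg q
    have d0 : 0 ≤ ∑ l, ν l * δ l q := Finset.sum_nonneg fun l _ => mul_nonneg (hν l).le (hD.nd l q)
    have a1 : ∑ l, ν l * dl l ρ q ^ 2 ≤ 4 * ρ q * ∑ l, ν l * δ l q := by
      rw [Finset.mul_sum]
      exact Finset.sum_le_sum fun l _ => by
        linarith [mul_le_mul_of_nonneg_left (hD.cs l q) (hν l).le]
    have a2 := (hb fun l => dl l ρ q).trans (mul_le_mul_of_nonneg_left a1 hκ)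
    have r0 := hD.nn q
    refine amgm (by positivity) (by positivity) ((psd_cs hM _ _).trans ?_)
    linarith [mul_le_mul_of_nonneg_right a2 a0]
  rw [integral_add (i1.const_mul _) (i2.const_mul _), integral_const_mul, integral_const_mul,
    ← dr_eq hD.pg] at h2
  linarith

end Pool.Agent.Lib.LL
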