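import Pool.Agent.Lib.LL.Blue

/-! Row GB: pointwise bounds for the mode functions. -/

open scoped InnerProductSpace ContDiff
open MeasureTheory

noncomputable section

namespace Pool.Agent.Lib.LL

open Pool.Agent.Lib.MP_791321_mp

namespace T93

variable {L Λ : ℝ} {ε : V3 → Fin 2 → V3}

lemma wt_sq (hL : 0 < L) (hε : IsPolarisation ε) (i : Fin 3) (l : Mode L Λ) :
    2 * wt ε i l ^ 2 ≤ 1 / (L ^ 3 * om l) := by
  have h0 := kk_pos l
  have h1 : ε (kk l) l.2 i ^ 2 ≤ 1 := (pol_sq hε (kk_ne l) l.2) ▸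
    Finset.single_le_sum (f := fun i => ε (kk l) l.2 i ^ 2) (fun _ _ => sq_nonneg _)
      (Finset.mem_univ i)
  rw [wt, div_pow, Real.sq_sqrt (by positivity), om]
  calc _ = ε (kk l) l.2 i ^ 2 / (L ^ 3 * ‖kk l‖) := by field_simp
    _ ≤ _ := by gcongr

lemma GG_sq (hL : 0 < L) (hε : IsPolarisation ε) (i : Fin 3) (l : Mode L Λ) (x : V3) :
    GG ε l i x ^ 2 ≤ 1 / (L ^ 3 * om l) := by
  refine le_trans ?_ (wt_sq hL hε i l)
  rw [GG, mul_pow, mul_comm]
  gcongr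
  nlinarith [Real.sin_sq_add_cos_sq (inner ℝ (kk l) x),
    sq_nonneg (Real.cos (inner ℝ (kk l) x) - Real.sin (inner ℝ (kk l) x))]

lemma pd_GG (ε : V3 → Fin 2 → V3) (l : Mode L Λ) (i j : Fin 3) (x : V3) :
    pd j (GG ε l i) x =
      wt ε i l * (kk l j * (Real.cos (inner ℝ (kk l) x) - Real.sin (inner ℝ (kk l) x))) := by
  have h0 : HasFDerivAt (fun x : V3 => inner ℝ (kk l) x) (innerSL ℝ (kk l)) x :=
    (innerSL ℝ (kk l)).hasFDerivAt
  have h1 := ((h0.cos).add (h0.sin)).const_mul (wt ε i l)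
  have h2 : fderiv ℝ (GG ε l i) x = _ := h1.fderiv
  rw [pd, h2]
  simp [ei, EuclideanSpace.inner_single_right]
  ring

lemma pd_sq (hL : 0 < L) (hε : IsPolarisation ε) (i j : Fin 3) (l : Mode L Λ) (x : V3) :
    pd j (GG ε l i) x ^ 2 ≤ om l / L ^ 3 := by
  have h0 : 0 < om l := kk_pos l
  have h1 : kk l j ^ 2 ≤ om l ^ 2 := by
    have := PiLp.norm_apply_le (kk l) j
    rw [← sq_abs]; exact pow_le_pow_left₀ (abs_nonneg _) this 2
  have h2 : (Real.cos (inner ℝ (kk l) x) - Real.sin (inner ℝ (kk l) x)) ^ 2 ≤ 2 := by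
    nlinarith [Real.sin_sq_add_cos_sq (inner ℝ (kk l) x),
      sq_nonneg (Real.cos (inner ℝ (kk l) x) + Real.sin (inner ℝ (kk l) x))]
  rw [pd_GG, mul_pow, mul_pow]
  calc _ ≤ wt ε i l ^ 2 * (om l ^ 2 * 2) := by gcongr
    _ = 2 * wt ε i l ^ 2 * om l ^ 2 := by ring
    _ ≤ 1 / (L ^ 3 * om l) * om l ^ 2 := by gcongr; exact wt_sq hL hε i l
    _ = _ := by field_simp

lemma mul_sq {f : V3 → ℝ} (hf : ContDiff ℝ ∞ f) {c : ℝ} (hc : ∀ x, f x ^ 2 ≤ c) (u : TF) :
    ‖TF.mul f u‖ ^ 2 ≤ c * ‖u‖ ^ 2 := by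
  rw [TF.norm_sq_eq, TF.norm_sq_eq, ← integral_const_mul]
  refine integral_mono (TF.integrable_normSq _) ((TF.integrable_normSq _).const_mul c) fun x => ?_
  simp only [TF.val_mul hf, norm_mul, mul_pow, Complex.norm_real, Real.norm_eq_abs, sq_abs]
  gcongr; exact hc x

end T93
open T93

theorem st_GB (hL : St_LAT) : St_GB := by
  obtain ⟨C, hC, h⟩ := hL
  refine ⟨8 * C, by positivity, fun L Λ ε hL hΛ hε => ?_⟩
  have o0 : ∀ l : Mode L Λ, 0 < om l := fun l => kk_pos l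
  have o1 : ∀ l : Mode L Λ, om l ≤ Λ := fun l => (kk_lt l).le
  have S : ∀ (F : Mode L Λ → ℝ) (a : ℝ) (n : ℕ), 0 ≤ a →
      (∀ l, F l * om l ^ 2 * L ^ 3 ≤ 4 * a * om l ^ n) → ∑ l, F l ≤ 8 * C * a * Λ ^ (n + 1) := by
    intro F a n ha hF
    have h1 : ∑ l : Mode L Λ, 1 / om l ^ 2 ≤ 2 * (C * Λ * L ^ 3) := by
      rw [Fintype.sum_prod_type]
      simp only [om, kk, Finset.sum_const, Finset.card_univ, Fintype.card_fin, nsmul_eq_mul,
        ← Finset.mul_sum, Nat.cast_ofNat]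
      have := h L Λ hL hΛ
      gcongr
    calc _ ≤ ∑ l : Mode L Λ, 4 * a * Λ ^ n / L ^ 3 * (1 / om l ^ 2) := by
          refine Finset.sum_le_sum fun l _ => ?_
          have := o0 l
          rw [mul_one_div, le_div_iff₀ (by positivity), le_div_iff₀ (by positivity)]
          refine (hF l).trans ?_
          gcongr; exact o1 l
      _ ≤ 4 * a * Λ ^ n / L ^ 3 * (2 * (C * Λ * L ^ 3)) := by rw [← Finset.mul_sum]; gcongr
      _ = _ := by field_simp; ring
  refine ⟨fun l => ⟨o0 l, o1 l⟩, fun i x => ?_, fun i j x => ?_, fun i x => ?_, fun α u hα => ?_⟩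
  · simpa using S _ 1 0 zero_le_one fun l => by
      have := o0 l
      have h1 := GG_sq hL hε i l x
      rw [le_div_iff₀ (by positivity)] at h1
      calc _ = GG ε l i x ^ 2 * (L ^ 3 * om l) := by field_simp
        _ ≤ _ := by linarith
  · simpa using S _ 1 2 zero_le_one fun l => by
      have := o0 l
      have h1 := pd_sq hL hε i j l x
      rw [le_div_iff₀ (by positivity)] at h1
      calc _ = pd j (GG ε l i) x ^ 2 * L ^ 3 * om l := by field_simp
        _ ≤ om l * om l := by gcongr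
        _ ≤ _ := by nlinarith
  · simpa using S _ 1 3 zero_le_one fun l => by
      have := o0 l
      have h1 := pd_sq hL hε (i + 2) (i + 1) l x
      have h2 := pd_sq hL hε (i + 1) (i + 2) l x
      rw [le_div_iff₀ (by positivity)] at h1 h2
      have h3 : curl (GG ε l) i x ^ 2 * L ^ 3 ≤ 4 * om l := by
        rw [curl]
        nlinarith [mul_nonneg (sq_nonneg (pd (i + 1) (GG ε l (i + 2)) x +
          pd (i + 2) (GG ε l (i + 1)) x)) (pow_pos hL 3).le]
      calc _ = curl (GG ε l) i x ^ 2 * L ^ 3 * om l ^ 2 := by ring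
        _ ≤ 4 * om l * om l ^ 2 := by gcongr
        _ = _ := by ring
  · have := S (fun l => om l * ∑ i, ‖M1 (gA α ε) i l u‖ ^ 2) (α * ‖u‖ ^ 2) 2 (by positivity)
      fun l => by
        have := o0 l
        have h1 : ∀ i, ‖M1 (gA α ε) i l u‖ ^ 2 ≤ α * (1 / (L ^ 3 * om l)) * ‖u‖ ^ 2 := fun i =>
          mul_sq (gA_sm α ε l i) (fun x => by
            rw [gA, mul_pow, Real.sq_sqrt hα]; gcongr; exact GG_sq hL hε i l x) u
        have h2 : ∑ i, ‖M1 (gA α ε) i l u‖ ^ 2 ≤ 4 * (α * (1 / (L ^ 3 * om l)) * ‖u‖ ^ 2) := by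
          have : 0 ≤ α * (1 / (L ^ 3 * om l)) * ‖u‖ ^ 2 := by positivity
          rw [Fin.sum_univ_three]; linarith [h1 0, h1 1, h1 2]
        calc _ ≤ om l * (4 * (α * (1 / (L ^ 3 * om l)) * ‖u‖ ^ 2)) * om l ^ 2 * L ^ 3 := by gcongr
          _ = _ := by field_simp
    exact this.trans_eq (by ring)

end Pool.Agent.Lib.LL
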