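import Pool.Agent.Lib.LL.Blue

/-! Project ll90: localisation of the electron in a cube. -/

open scoped ComplexConjugate InnerProductSpace ContDiff Convolution
open MeasureTheory

noncomputable section

namespace Pool.Agent.Lib.LL

open Pool.Agent.Lib.MP_791321_mp

namespace T73

lemma conv {h F : V3 → ℝ} (hh : Integrable h) (hF : Integrable F) :
    Integrable (fun y : V3 => ∫ x, h x * F (x - y)) ∧
      ∫ y : V3, ∫ x, h x * F (x - y) = (∫ x, h x) * ∫ x, F x := by
  have hG : Integrable fun z : V3 => F (-z) := hF.comp_neg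
  have e : (fun y : V3 => ∫ x, h x * F (x - y)) =
      h ⋆[ContinuousLinearMap.mul ℝ ℝ, volume] fun z : V3 => F (-z) := by
    funext y
    simp [convolution_def]
  rw [e]
  refine ⟨hh.integrable_convolution _ hG, ?_⟩
  rw [integral_convolution _ hh hG, integral_neg_eq_self F]
  simp

/-- The translate of a function. -/
def trl (a : V3 → ℝ) (y : V3) (x : V3) : ℝ := a (x - y)

lemma trl_sm {a : V3 → ℝ} (ha : ContDiff ℝ ∞ a) (y : V3) : ContDiff ℝ ∞ (trl a y) :=
  ha.comp (contDiff_id.sub contDiff_const)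

lemma pd_sm {a : V3 → ℝ} (ha : ContDiff ℝ ∞ a) (i : Fin 3) : ContDiff ℝ ∞ (pd i a) :=
  (ha.fderiv_right (m := ∞) (by simp)).clm_apply contDiff_const

lemma pd_trl (a : V3 → ℝ) (i : Fin 3) (y x : V3) : pd i (trl a y) x = trl (pd i a) y x := by
  unfold pd trl
  rw [fderiv_comp_sub]

lemma sq_expand (s t : ℝ) (z w : ℂ) : ‖(s : ℂ) * z + -Complex.I * ((t : ℂ) * w)‖ ^ 2 =
    ‖z‖ ^ 2 * (s * s) + ‖w‖ ^ 2 * (t * t) + 2 * (conj z * w).im * (s * t) := by
  simp only [Complex.sq_norm, Complex.normSq_apply]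
  simp
  ring

lemma one {a b : V3 → ℝ} (ha : ContDiff ℝ ∞ a) (hb : ContDiff ℝ ∞ b) (ca : HasCompactSupport a)
    (cb : HasCompactSupport b) (h0 : ∫ x, a x * b x = 0) (D w : TF) :
    Integrable (fun y : V3 => ‖TF.mul (trl a y) D + (-Complex.I) • TF.mul (trl b y) w‖ ^ 2) ∧
      ∫ y : V3, ‖TF.mul (trl a y) D + (-Complex.I) • TF.mul (trl b y) w‖ ^ 2 =
        (∫ x, a x * a x) * ‖D‖ ^ 2 + (∫ x, b x * b x) * ‖w‖ ^ 2 := by
  have iaa : Integrable fun x => a x * a x :=
    (ha.continuous.mul ha.continuous).integrable_of_hasCompactSupport ca.mul_left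
  have ibb : Integrable fun x => b x * b x :=
    (hb.continuous.mul hb.continuous).integrable_of_hasCompactSupport cb.mul_left
  have iab : Integrable fun x => a x * b x :=
    (ha.continuous.mul hb.continuous).integrable_of_hasCompactSupport cb.mul_left
  have i3 : Integrable fun x => 2 * (conj (D.val x) * w.val x).im :=
    (TF.integrable_inner D w).im.const_mul 2
  have k : ∀ {h F : V3 → ℝ}, Integrable h → Continuous F → HasCompactSupport F → ∀ y : V3,
      Integrable fun x => h x * F (x - y) := by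
    intro h F hh hF cF y
    obtain ⟨C, hC⟩ := hF.bounded_above_of_compact_support cF
    exact hh.mul_bdd (c := C) (hF.comp (continuous_id.sub continuous_const)).aestronglyMeasurable
      (Filter.Eventually.of_forall fun x => hC _)
  have e : ∀ y : V3, ‖TF.mul (trl a y) D + (-Complex.I) • TF.mul (trl b y) w‖ ^ 2 =
      (∫ x, ‖D.val x‖ ^ 2 * (a (x - y) * a (x - y))) +
      (∫ x, ‖w.val x‖ ^ 2 * (b (x - y) * b (x - y))) +
      ∫ x, 2 * (conj (D.val x) * w.val x).im * (a (x - y) * b (x - y)) := by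
    intro y
    have j1 : Integrable fun x => ‖D.val x‖ ^ 2 * (a (x - y) * a (x - y)) :=
      k (TF.integrable_normSq D) (ha.continuous.mul ha.continuous) ca.mul_left y
    have j2 : Integrable fun x => ‖w.val x‖ ^ 2 * (b (x - y) * b (x - y)) :=
      k (TF.integrable_normSq w) (hb.continuous.mul hb.continuous) cb.mul_left y
    have j3 : Integrable fun x =>
        2 * (conj (D.val x) * w.val x).im * (a (x - y) * b (x - y)) :=
      k i3 (ha.continuous.mul hb.continuous) cb.mul_left y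
    rw [TF.norm_sq_eq, ← integral_add j1 j2, ← integral_add (j1.fun_add j2) j3]
    refine integral_congr_ae (Filter.Eventually.of_forall fun x => ?_)
    simp only [TF.val_add, TF.val_smul, Pi.add_apply, Pi.smul_apply, smul_eq_mul,
      TF.val_mul (trl_sm ha y), TF.val_mul (trl_sm hb y), trl]
    exact sq_expand _ _ _ _
  obtain ⟨a1, b1⟩ := conv (TF.integrable_normSq D) iaa
  obtain ⟨a2, b2⟩ := conv (TF.integrable_normSq w) ibb
  obtain ⟨a3, b3⟩ := conv i3 iab
  simp only [e]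
  refine ⟨(a1.add a2).add a3, ?_⟩
  rw [integral_add (a1.fun_add a2) a3, integral_add a1 a2, b1, b2, b3, h0, TF.norm_sq_eq,
    TF.norm_sq_eq]
  ring

lemma many {I : Type} {a b : V3 → ℝ} (ha : ContDiff ℝ ∞ a) (hb : ContDiff ℝ ∞ b)
    (ca : HasCompactSupport a) (cb : HasCompactSupport b) (h0 : ∫ x, a x * b x = 0)
    (D w : Fk I TF) :
    Integrable (fun y : V3 =>
      ‖Fk.lift (TF.mul (trl a y)) D + (-Complex.I) • Fk.lift (TF.mul (trl b y)) w‖ ^ 2) ∧
    ∫ y : V3, ‖Fk.lift (TF.mul (trl a y)) D + (-Complex.I) • Fk.lift (TF.mul (trl b y)) w‖ ^ 2 =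
      (∫ x, a x * a x) * ‖D‖ ^ 2 + (∫ x, b x * b x) * ‖w‖ ^ 2 := by
  classical
  set s := D.fin.toFinset ∪ w.fin.toFinset with hs
  have hD : ∀ n, n ∉ s → D.val n = 0 := fun n hn => by
    by_contra h
    exact hn (Finset.mem_union_left _ (by simpa using h))
  have hw : ∀ n, n ∉ s → w.val n = 0 := fun n hn => by
    by_contra h
    exact hn (Finset.mem_union_right _ (by simpa using h))
  have e : ∀ y : V3,
      ‖Fk.lift (TF.mul (trl a y)) D + (-Complex.I) • Fk.lift (TF.mul (trl b y)) w‖ ^ 2 =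
      ∑ n ∈ s, ‖TF.mul (trl a y) (D.val n) + (-Complex.I) • TF.mul (trl b y) (w.val n)‖ ^ 2 := by
    intro y
    rw [Fk.norm_sq_eq _ s fun n hn => by
      simp only [Fk.val_add, Fk.val_smul, Fk.val_lift, hD n hn, hw n hn, map_zero, smul_zero,
        add_zero]]
    rfl
  simp only [e]
  refine ⟨integrable_finsetSum _ fun n _ => (one ha hb ca cb h0 _ _).1, ?_⟩
  rw [integral_finsetSum _ fun n _ => (one ha hb ca cb h0 _ _).1, Fk.norm_sq_eq D s hD,
    Fk.norm_sq_eq w s hw, Finset.mul_sum, Finset.mul_sum, ← Finset.sum_add_distrib]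
  exact Finset.sum_congr rfl fun n _ => (one ha hb ca cb h0 _ _).2

section

variable {I : Type} [Fintype I] [DecidableEq I]

lemma lift_An (P : TF →ₗ[ℂ] TF) (v : EuclideanSpace ℂ I) (u : Fk I TF) :
    Fk.ccr.An v (Fk.lift P u) = Fk.lift P (Fk.ccr.An v u) := by
  rw [CCR.An_apply, CCR.An_apply, map_sum]
  exact Finset.sum_congr rfl fun m _ => by
    rw [map_smul]; exact congrArg _ (Fk.lift_a P m u).symm

lemma lift_Cr (P : TF →ₗ[ℂ] TF) (v : EuclideanSpace ℂ I) (u : Fk I TF) :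
    Fk.ccr.Cr v (Fk.lift P u) = Fk.lift P (Fk.ccr.Cr v u) := by
  rw [CCR.Cr_apply, CCR.Cr_apply, map_sum]
  exact Finset.sum_congr rfl fun m _ => by
    rw [map_smul]; exact congrArg _ (Fk.lift_c P m u).symm

lemma p_mul {a : V3 → ℝ} (ha : ContDiff ℝ ∞ a) (i : Fin 3) (w : TF) :
    TF.p i (TF.mul a w) = TF.mul a (TF.p i w) + (-Complex.I) • TF.mul (pd i a) w := by
  ext x
  have e : (TF.mul a w).val = fun x => a x • w.val x := by
    funext x; rw [TF.val_mul ha]; simp
  simp only [TF.val_add, TF.val_smul, Pi.add_apply, Pi.smul_apply, smul_eq_mul, TF.val_p,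
    TF.val_mul ha, TF.val_mul (pd_sm ha i)]
  rw [e]
  unfold pd
  rw [fderiv_fun_smul (ha.differentiable (by simp) x) (w.diff x)]
  simp
  ring

lemma mul_mul {a f : V3 → ℝ} (ha : ContDiff ℝ ∞ a) (hf : ContDiff ℝ ∞ f) (w : TF) :
    TF.mul f (TF.mul a w) = TF.mul a (TF.mul f w) := by
  ext x
  simp only [TF.val_mul ha, TF.val_mul hf]
  ring

lemma fD_lift {a : V3 → ℝ} (ha : ContDiff ℝ ∞ a) (v : I → EuclideanSpace ℂ I)
    {g : I → Fin 3 → V3 → ℝ} (hg : ∀ l, Sm (g l)) (i : Fin 3) (u : Fk I TF) :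
    fD v (TF.p i) (M1 g i) (Fk.lift (TF.mul a) u) =
      Fk.lift (TF.mul a) (fD v (TF.p i) (M1 g i) u) +
        (-Complex.I) • Fk.lift (TF.mul (pd i a)) u := by
  refine Fk.ext fun n => ?_
  simp only [fD, lift_An, lift_Cr, Fk.val_add, Fk.val_sum, Fk.val_lift, Fk.val_smul, map_add,
    map_sum, p_mul ha, M1, fun l => mul_mul ha (hg l i)]
  abel

end

lemma ibp {a : V3 → ℝ} (ha : ContDiff ℝ ∞ a) (ca : HasCompactSupport a) (i : Fin 3) :
    ∫ x, a x * pd i a x = 0 := by
  have hb := (pd_sm ha i).continuous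
  have h := integral_mul_fderiv_eq_neg_fderiv_mul_of_integrable (μ := (volume : Measure V3))
    (f := a) (g := a) (v := ei i)
    ((hb.mul ha.continuous).integrable_of_hasCompactSupport ca.mul_left)
    ((ha.continuous.mul hb).integrable_of_hasCompactSupport ca.mul_right)
    ((ha.continuous.mul ha.continuous).integrable_of_hasCompactSupport ca.mul_left)
    (fun x _ => ha.differentiable (by simp) x) (fun x _ => ha.differentiable (by simp) x)
  have e : ∫ x, fderiv ℝ a x (ei i) * a x = ∫ x, a x * fderiv ℝ a x (ei i) := by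
    simp only [mul_comm]
  unfold pd
  linarith

end T73

open T73 in
theorem st_IMS (hB : St_BMP) (hC : St_CUB) : St_IMS := by
  obtain ⟨γ, hγ, hB⟩ := hB
  obtain ⟨hC1, -, hC3⟩ := hC
  refine ⟨27 * γ ^ 2, by positivity, fun I _ _ ν v g E R u hg hR hE => ?_⟩
  obtain ⟨χ, hχ, h1⟩ := hB 0 R hR
  obtain ⟨cχ, hout⟩ := hC3 χ 0 R _ hχ
  have sm := hχ.sm
  have cp : ∀ i, HasCompactSupport (pd i χ) := fun i => cχ.fderiv_apply ℝ (ei i)
  set N : ℝ := ∫ x, χ x * χ x with hN
  have iaa : Integrable fun x => χ x * χ x :=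
    (sm.continuous.mul sm.continuous).integrable_of_hasCompactSupport cχ.mul_left
  have hN1 : (R / 3) ^ 3 ≤ N := by
    obtain ⟨m, -, -, vol, -⟩ := hC1 (sh 0 (R / 3)) (R / 3)
    calc (R / 3) ^ 3 = ∫ x in cube (sh 0 (R / 3)) (R / 3), χ x * χ x := by
          rw [setIntegral_congr_fun (g := fun _ => (1 : ℝ)) m fun x hx => by simp [h1 x hx]]
          simp [vol (by positivity)]
      _ ≤ N := setIntegral_le_integral iaa
          (Filter.Eventually.of_forall fun x => mul_self_nonneg _)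
  have hNp : 0 < N := lt_of_lt_of_le (by positivity) hN1
  have ibb : ∀ i, Integrable fun x => pd i χ x * pd i χ x := fun i =>
    ((pd_sm sm i).continuous.mul (pd_sm sm i).continuous).integrable_of_hasCompactSupport
      (cp i).mul_left
  have hG : ∑ i, ∫ x, pd i χ x * pd i χ x ≤ γ ^ 2 * R := by
    obtain ⟨m, -, fin, vol, -⟩ := hC1 0 R
    have ig : Integrable fun x => ∑ i, pd i χ x * pd i χ x :=
      integrable_finsetSum _ fun i _ => ibb i
    rw [← integral_finsetSum _ fun i _ => ibb i,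
      ← setIntegral_eq_integral_of_forall_compl_eq_zero (s := cube 0 R)
        fun x hx => by simp [hout x hx]]
    calc ∫ x in cube 0 R, ∑ i, pd i χ x * pd i χ x ≤ ∫ x in cube 0 R, (γ / R) ^ 2 :=
          setIntegral_mono_on ig.integrableOn (integrableOn_const fin.ne) m fun x _ => by
            have := hχ.gr x
            simpa only [gr2, sq] using this
      _ = γ ^ 2 * R := by
          simp only [integral_const, MeasurableSet.univ, measureReal_restrict_apply,
            Set.univ_inter, smul_eq_mul, vol hR.le]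
          field_simp
  have A : ∀ D : Fk I TF, Integrable (fun y : V3 => ‖Fk.lift (TF.mul (trl χ y)) D‖ ^ 2) ∧
      ∫ y : V3, ‖Fk.lift (TF.mul (trl χ y)) D‖ ^ 2 = N * ‖D‖ ^ 2 := fun D => by
    simpa using many sm (pd_sm sm 0) cχ (cp 0) (ibp sm cχ 0) D 0
  have B := fun i => many sm (pd_sm sm i) cχ (cp i) (ibp sm cχ i) (fD v (TF.p i) (M1 g i) u) u
  have e : ∀ y : V3, fE ν v TF.p (M1 g) (Fk.lift (TF.mul (trl χ y)) u) =
      ∑ l, ν l * ‖Fk.lift (TF.mul (trl χ y)) (Fk.ccr.An (v l) u)‖ ^ 2 +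
      1 / 2 * ∑ i, ‖Fk.lift (TF.mul (trl χ y)) (fD v (TF.p i) (M1 g i) u) +
        (-Complex.I) • Fk.lift (TF.mul (trl (pd i χ) y)) u‖ ^ 2 := by
    intro y
    have : ∀ i, pd i (trl χ y) = trl (pd i χ) y := fun i => funext (pd_trl χ i y)
    simp only [fE, lift_An, fD_lift (trl_sm sm y) v hg, this]
  have i1 : Integrable fun y : V3 =>
      ∑ l, ν l * ‖Fk.lift (TF.mul (trl χ y)) (Fk.ccr.An (v l) u)‖ ^ 2 :=
    integrable_finsetSum _ fun l _ => (A _).1.const_mul _
  have i2 : Integrable fun y : V3 =>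
      ∑ i, ‖Fk.lift (TF.mul (trl χ y)) (fD v (TF.p i) (M1 g i) u) +
        (-Complex.I) • Fk.lift (TF.mul (trl (pd i χ) y)) u‖ ^ 2 :=
    integrable_finsetSum _ fun i _ => (B i).1
  have iE : Integrable fun y : V3 => fE ν v TF.p (M1 g) (Fk.lift (TF.mul (trl χ y)) u) := by
    simp only [e]; exact i1.add (i2.const_mul _)
  have vE : ∫ y : V3, fE ν v TF.p (M1 g) (Fk.lift (TF.mul (trl χ y)) u) =
      N * fE ν v TF.p (M1 g) u + 1 / 2 * (∑ i, ∫ x, pd i χ x * pd i χ x) * ‖u‖ ^ 2 := by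
    simp only [e]
    rw [integral_add i1 (i2.const_mul _), integral_const_mul,
      integral_finsetSum _ fun l _ => (A _).1.const_mul _,
      integral_finsetSum _ fun i _ => (B i).1]
    simp only [integral_const_mul, (A _).2, (B _).2, fE, Finset.sum_add_distrib, ← hN,
      ← Finset.mul_sum, ← Finset.sum_mul]
    have : ∑ l, ν l * (N * ‖Fk.ccr.An (v l) u‖ ^ 2) = N * ∑ l, ν l * ‖Fk.ccr.An (v l) u‖ ^ 2 := by
      rw [Finset.mul_sum]; exact Finset.sum_congr rfl fun l _ => by ring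
    rw [this]
    ring
  by_contra hc
  push Not at hc
  have hle : ∀ y : V3, (E + 27 * γ ^ 2 / R ^ 2) * ‖Fk.lift (TF.mul (trl χ y)) u‖ ^ 2 ≤
      fE ν v TF.p (M1 g) (Fk.lift (TF.mul (trl χ y)) u) := fun y => hc y _ fun n x hx => by
    rw [Fk.val_lift, TF.val_mul (trl_sm sm y)] at hx
    have h2 : χ (x - y) ≠ 0 := fun h => hx (by simp [trl, h])
    intro i
    have := hχ.su _ h2 i
    simp only [PiLp.zero_apply, PiLp.sub_apply, zero_add] at this
    constructor <;> linarith [this.1, this.2]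
  have hi := integral_mono ((A u).1.const_mul _) iE hle
  rw [integral_const_mul, (A u).2, vE] at hi
  have h3 : γ ^ 2 * R ≤ 27 * γ ^ 2 / R ^ 2 * N :=
    calc γ ^ 2 * R = 27 * γ ^ 2 / R ^ 2 * (R / 3) ^ 3 := by field_simp; ring
      _ ≤ _ := by gcongr
  have h4 : 0 ≤ ‖u‖ ^ 2 := sq_nonneg _
  have h5 : 0 ≤ γ ^ 2 * R := by positivity
  have h6 := mul_lt_mul_of_pos_left hE hNp
  have h7 := mul_le_mul_of_nonneg_right (hG.trans h3) h4
  have h8 := mul_nonneg (h5.trans h3) h4
  nlinarith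

end Pool.Agent.Lib.LL
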