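import Pool.Agent.Lib.LL.Blue

/-! Project ll90: row KAP. -/

open scoped ComplexConjugate InnerProductSpace ContDiff
open MeasureTheory

noncomputable section

namespace Pool.Agent.Lib.LL

open Pool.Agent.Lib.MP_791321_mp

namespace T65

theorem kap_eq {a : Fin 3 → V3 → ℝ} (ha : Sm a) (φ : TF) (x : V3) :
    kap a φ.val x = ∑ i, ‖(TF.p i φ + TF.mul (a i) φ).val x‖ ^ 2 := by
  unfold kap
  refine Finset.sum_congr rfl fun i _ => ?_
  rw [TF.val_add, Pi.add_apply, TF.val_p, TF.val_mul (ha i)]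

theorem sD_eq {I : Type} [Fintype I] {g : I → Fin 3 → V3 → ℝ} (hg : ∀ l, Sm (g l)) (q : I → ℝ)
    (i : Fin 3) (φ : TF) :
    sD (TF.p i) (M1 g i) q φ = TF.p i φ + TF.mul (Aq g q i) φ := by
  unfold sD
  rw [LinearMap.add_apply, LinearMap.sum_apply]
  refine congrArg (fun w => TF.p i φ + w) (TF.ext fun x => ?_)
  rw [TF.val_sum, Finset.sum_apply, TF.val_mul (Aq_sm hg q i)]
  unfold Aq
  push_cast
  rw [Finset.sum_mul]
  refine Finset.sum_congr rfl fun l _ => ?_
  rw [LinearMap.smul_apply, TF.val_smul, Pi.smul_apply, M1, TF.val_mul (hg l i), smul_eq_mul,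
    mul_assoc]

theorem pd_Aq {I : Type} [Fintype I] {g : I → Fin 3 → V3 → ℝ} (hg : ∀ l, Sm (g l)) (q : I → ℝ)
    (i j : Fin 3) (x : V3) : pd j (Aq g q i) x = ∑ l, q l * pd j (g l i) x := by
  have h : HasFDerivAt (Aq g q i) (∑ l, q l • fderiv ℝ (g l i) x) x :=
    HasFDerivAt.fun_sum fun l _ =>
      (((hg l i).differentiable (by simp) x).hasFDerivAt).const_mul (q l)
  unfold pd
  rw [h.fderiv, sum_apply]
  rfl

theorem pd_sm {u : V3 → ℝ} (hu : ContDiff ℝ ∞ u) (j : Fin 3) : ContDiff ℝ ∞ (pd j u) :=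
  (hu.fderiv_right (m := ∞) (by simp)).clm_apply contDiff_const

end T65

open T65 in
theorem st_KAP : St_KAP := by
  intro I _ g q hg
  refine ⟨fun φ => ?_, fun i x => ?_, fun a φ ha => ⟨?_, ?_, fun i => ?_⟩⟩
  · simp only [kap_eq (Aq_sm hg q), sD_eq hg, TF.norm_sq_eq]
    exact (integral_finsetSum _ fun i _ => TF.integrable_normSq _).symm
  · unfold curl
    rw [pd_Aq hg, pd_Aq hg, ← Finset.sum_sub_distrib]
    exact Finset.sum_congr rfl fun l _ => (mul_sub _ _ _).symm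
  · rw [show kap a φ.val = _ from funext (kap_eq ha φ)]
    exact continuous_finsetSum _ fun i _ => (TF.cont _).norm.pow 2
  · rw [show kap a φ.val = _ from funext (kap_eq ha φ)]
    exact integrable_finsetSum _ fun i _ => TF.integrable_normSq _
  · exact (pd_sm (ha _) _).sub (pd_sm (ha _) _)

end Pool.Agent.Lib.LL
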