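import Pool.Agent.Lib.LL.Blue

/-! A localised near-minimiser in Gaussian space. -/

open MeasureTheory

noncomputable section

namespace Pool.Agent.Lib.LL

open Pool.Agent.Lib.MP_791321_mp

theorem st_NEAR (hRM : St_RM) (hRED : St_RED) (hIMS : St_IMS) (hREP : St_REP) : St_NEAR := by
  classical
  obtain ⟨C, hC, hI⟩ := hIMS
  refine ⟨C, hC, fun L Λ α E R ε hL hR hε hE => ?_⟩
  obtain ⟨v, hv, hen⟩ := hRM L Λ ε hL hε
  obtain ⟨u, hu⟩ : ∃ u : SS L Λ 1, energy α ε u < E * ‖u‖ ^ 2 := by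
    by_contra hc
    exact absurd (le_E0 α ε E fun u => not_lt.mp fun h => hc ⟨u, h⟩) (not_le.mpr hE)
  rw [hen] at hu
  obtain ⟨u1, hu1⟩ := hRED _ om v (gA α ε) E u (gA_sm α ε) hu
  obtain ⟨c, u2, hS, hu2⟩ := hI _ om v (gA α ε) E R u1 (gA_sm α ε) hR hu1
  obtain ⟨d, p, n, hp, hN, hF⟩ := hREP _ TF (Fin 3) om v TF.p (M1 (gA α ε)) hv u2
  have h1 : 0 ≤ sF om p fun b => u2.val (n b) :=
    Finset.sum_nonneg fun l _ => mul_nonneg (norm_nonneg _) (integral_nonneg fun q => sq_nonneg _)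
  have h2 : 0 ≤ sK TF.p (M1 (gA α ε)) p fun b => u2.val (n b) :=
    integral_nonneg fun q => Finset.sum_nonneg fun j _ => sq_nonneg _
  rw [hF, hN] at hu2
  refine ⟨c, d, p, fun b => u2.val (n b), hp, fun b => hS _, ?_, h1, h2, hu2⟩
  refine lt_of_le_of_ne (hN ▸ sq_nonneg _) fun h => ?_
  rw [← h, mul_zero] at hu2
  linarith

end Pool.Agent.Lib.LL
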