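import Pool.Agent.Lib.LL.Blue

open scoped ComplexConjugate InnerProductSpace ContDiff
open MeasureTheory

noncomputable section

namespace Pool.Agent.Lib.LL

open Pool.Agent.Lib.MP_791321_mp

namespace T84

/-- the diagonal map -/
def dg : V3 ≃L[ℝ] (Fin 1 → V3) := (ContinuousLinearEquiv.funUnique (Fin 1) ℝ V3).symm

lemma dg_apply (x : V3) (j : Fin 1) : dg x j = x := rfl

/-- the component of spin `σ` -/
def Rs (σ : Fin 1 → Fin 2) : Tst 1 →ₗ[ℂ] TF where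
  toFun u := TF.mk (u.val σ ∘ dg)
    ⟨(u.smooth σ).comp dg.contDiff, (u.cpt σ).comp_homeomorph dg.toHomeomorph⟩
  map_add' _ _ := rfl
  map_smul' _ _ := rfl

lemma val_Rs (σ : Fin 1 → Fin 2) (u : Tst 1) : (Rs σ u).val = u.val σ ∘ dg := rfl

lemma norm_Rs (u : Tst 1) : ‖u‖ ^ 2 = ∑ σ, ‖Rs σ u‖ ^ 2 := by
  rw [Tst.norm_sq_eq]
  refine Finset.sum_congr rfl fun σ _ => ?_
  rw [TF.norm_sq_eq]
  exact ((volume_preserving_funUnique (Fin 1) V3).symm.integral_comp'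
    fun x => ‖u.val σ x‖ ^ 2).symm

lemma Rs_p (σ : Fin 1 → Fin 2) (i : Fin 3) (u : Tst 1) :
    Rs σ (PN 1 (0, i) u) = TF.p i (Rs σ u) := by
  ext x
  have h : dg (ei i) = dir 0 i := by
    ext1 j; rw [Subsingleton.elim j 0]; rfl
  rw [TF.val_p, pd, val_Rs σ u, dg.comp_right_fderiv, ContinuousLinearMap.comp_apply,
    ContinuousLinearEquiv.coe_coe, h]
  rfl

lemma Rs_M {I : Type} {g : I → Fin 3 → V3 → ℝ} (hg : ∀ l, Sm (g l)) (σ : Fin 1 → Fin 2)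
    (i : Fin 3) (l : I) (u : Tst 1) : Rs σ (MN 1 g (0, i) l u) = M1 g i l (Rs σ u) := by
  ext x
  rw [M1, TF.val_mul (hg l i), val_Rs, Function.comp_apply, MN, val_mulN (hg l i)]
  rfl

variable {I T T' : Type} [SeminormedAddCommGroup T] [InnerProductSpace ℂ T]
  [SeminormedAddCommGroup T'] [InnerProductSpace ℂ T']

lemma norm_lift {S : Type} [Fintype S] (R : S → T →ₗ[ℂ] T')
    (h : ∀ u, ‖u‖ ^ 2 = ∑ σ, ‖R σ u‖ ^ 2) (u : Fk I T) :
    ‖u‖ ^ 2 = ∑ σ, ‖Fk.lift (R σ) u‖ ^ 2 := by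
  have h0 : ∀ n, n ∉ u.fin.toFinset → u.val n = 0 := fun n hn => by simpa using hn
  rw [Fk.norm_sq_eq u _ h0, Finset.sum_congr rfl fun n _ => h (u.val n), Finset.sum_comm]
  refine Finset.sum_congr rfl fun σ _ => ?_
  rw [Fk.norm_sq_eq _ u.fin.toFinset fun n hn => by simp [h0 n hn]]
  rfl

variable [Fintype I] [DecidableEq I]

lemma lift_An (R : T →ₗ[ℂ] T') (v : EuclideanSpace ℂ I) (u : Fk I T) :
    Fk.lift R (Fk.ccr.An v u) = Fk.ccr.An v (Fk.lift R u) := by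
  simp only [CCR.An_apply, map_sum, map_smul, Fk.ccr, Fk.lift_a]

lemma lift_Cr (R : T →ₗ[ℂ] T') (v : EuclideanSpace ℂ I) (u : Fk I T) :
    Fk.lift R (Fk.ccr.Cr v u) = Fk.ccr.Cr v (Fk.lift R u) := by
  simp only [CCR.Cr_apply, map_sum, map_smul, Fk.ccr, Fk.lift_c]

lemma lift_fD (R : T →ₗ[ℂ] T') (v : I → EuclideanSpace ℂ I) {P : T →ₗ[ℂ] T}
    {M : I → T →ₗ[ℂ] T} {P' : T' →ₗ[ℂ] T'} {M' : I → T' →ₗ[ℂ] T'}
    (hP : ∀ x, R (P x) = P' (R x)) (hM : ∀ l x, R (M l x) = M' l (R x)) (u : Fk I T) :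
    Fk.lift R (fD v P M u) = fD v P' M' (Fk.lift R u) := by
  have h : ∀ {A : T →ₗ[ℂ] T} {A' : T' →ₗ[ℂ] T'}, (∀ x, R (A x) = A' (R x)) → ∀ w : Fk I T,
      Fk.lift R (Fk.lift A w) = Fk.lift A' (Fk.lift R w) := fun hA w => Fk.ext fun n => hA _
  rw [fD, fD, map_add, map_sum, h hP]
  simp only [h (hM _), map_add (Fk.lift R), lift_An, lift_Cr]

end T84

open T84 in
theorem st_RED : St_RED := by
  intro I _ _ ν v g E u hg h
  have he : fE ν v (PN 1) (MN 1 g) u = ∑ σ, fE ν v TF.p (M1 g) (Fk.lift (Rs σ) u) := by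
    simp only [fE, Finset.sum_add_distrib, ← Finset.mul_sum, Fintype.sum_prod_type,
      Fin.sum_univ_one]
    rw [Finset.sum_comm, Finset.sum_comm (γ := Fin 1 → Fin 2)]
    congr 1
    · refine Finset.sum_congr rfl fun l _ => ?_
      rw [norm_lift Rs norm_Rs, Finset.mul_sum]
      simp only [lift_An]
    · congr 1
      refine Finset.sum_congr rfl fun i _ => ?_
      rw [norm_lift Rs norm_Rs]
      exact Finset.sum_congr rfl fun σ _ => by rw [lift_fD _ v (Rs_p σ i) (Rs_M hg σ i)]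
  rw [he, norm_lift Rs norm_Rs u, Finset.mul_sum] at h
  obtain ⟨σ, -, hσ⟩ := Finset.exists_lt_of_sum_lt h
  exact ⟨_, hσ⟩

end Pool.Agent.Lib.LL
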