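import Pool.Agent.Lib.LL.Gauss
import Pool.Agent.Lib.LL39.Rep

/-! Project ll90: existence of the Schroedinger representation. -/

open scoped ComplexConjugate InnerProductSpace
open MeasureTheory MvPolynomial

noncomputable section

namespace Pool.Agent.Lib.LL

open Pool.Agent.Lib.MP_791321_mp

variable {I : Type} [Fintype I] [DecidableEq I]

theorem dl_ev (l : I) (p : MvPolynomial I ℂ) : dl l (LL39.ev p) = LL39.ev (pderiv l p) :=
  funext fun q => LL39.ev_fderiv p l q

omit [DecidableEq I] in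
theorem pg_ev (p : MvPolynomial I ℂ) : PG (LL39.ev p) := pg_iff.2 ⟨LL39.ev_cont p, (LL39.ev_prop p).2⟩

theorem c1_ev (p : MvPolynomial I ℂ) : C1 (LL39.ev p) :=
  ⟨(LL39.ev_prop p).1.differentiable (by simp), pg_ev p, fun l => by rw [dl_ev]; exact pg_ev _⟩

theorem on_sum {v : I → EuclideanSpace ℂ I} (hv : Orthonormal ℂ v) (l l' : I) :
    ∑ m, v l m * conj (v l' m) = if l = l' then 1 else 0 := by
  have h := orthonormal_iff_ite.1 hv l' l
  rw [PiLp.inner_apply] at h
  rw [← if_congr eq_comm rfl rfl, ← h]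
  rfl

/-- The polynomials of the representation. -/
def hv (v : I → EuclideanSpace ℂ I) (n : I → ℕ) : (I → ℝ) → ℂ :=
  LL39.ev (LL39.ph (fun l m => v l m) n)

theorem Jh_hv {T : Type} [SeminormedAddCommGroup T] [InnerProductSpace ℂ T]
    (v : I → EuclideanSpace ℂ I) (u : Fk I T) (q : I → ℝ) :
    Jh (hv v) u q = LL39.JJ (fun l m => v l m) q u := (LL39.JJ_eq _ q u (LL39.out_supp u)).symm

theorem sch_hv {v : I → EuclideanSpace ℂ I} (h : Orthonormal ℂ v) : Sch v (hv v) where
  c1 n := c1_ev _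
  on n n' := by rw [gam_eq_pi]; exact LL39.bb_ph (on_sum h) n n'
  vac q := by
    rw [hv, show (0 : I → ℕ) = fun _ => 0 from rfl, LL39.ph_zero, LL39.ev, map_one]
  an l u q := by
    rw [Jh_hv]
    refine (LL39.JJ_bo_eq _ q l u (LL39.out_supp u)).trans ?_
    unfold Jh hv
    rw [dl_sum l fun n _ => ((c1_ev _).1 q).smul_const _]
    refine Finset.sum_congr rfl fun n _ => ?_
    simp only [smul_eq_mul]
    rw [dl_mul_const l _ ((c1_ev _).1 q), dl_ev]
  cr l u q := by
    rw [Jh_hv, Jh_hv]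
    exact LL39.JJ_field (on_sum h) q l u

theorem exists_sch {v : I → EuclideanSpace ℂ I} (h : Orthonormal ℂ v) : ∃ g, Sch v g :=
  ⟨_, sch_hv h⟩

end Pool.Agent.Lib.LL
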