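import Pool.Agent.Lib.LL.Blue
import Pool.Agent.Lib.LL.Sch

/-! Project ll90: a Fock vector as a finite sum in Gaussian space. -/

open scoped ComplexConjugate InnerProductSpace
open MeasureTheory

noncomputable section

namespace Pool.Agent.Lib.LL

open Pool.Agent.Lib.MP_791321_mp

namespace T80

variable {I T : Type} [Fintype I] [DecidableEq I] [SeminormedAddCommGroup T]
  [InnerProductSpace ℂ T]

/-- An enumeration of the support. -/
def en (u : Fk I T) (b : Fin u.fin.toFinset.card) : I → ℕ := (u.fin.toFinset.equivFin.symm b).1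

omit [Fintype I] [DecidableEq I] in
theorem sum_en (u : Fk I T) (f : (I → ℕ) → T) :
    ∑ b, f (en u b) = ∑ n ∈ u.fin.toFinset, f n := by
  rw [← Finset.sum_coe_sort u.fin.toFinset f]
  exact Equiv.sum_comp u.fin.toFinset.equivFin.symm fun n => f n.1

theorem vc_en (v : I → EuclideanSpace ℂ I) (u : Fk I T) (q : I → ℝ) :
    vc (fun b => hv v (en u b)) (fun b => u.val (en u b)) q = LL39.JJ (fun l m => v l m) q u := by
  rw [LL39.JJ_eq _ q u (LL39.out_supp u)]
  exact sum_en u fun n => hv v n q • u.val n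

theorem vc_dl (v : I → EuclideanSpace ℂ I) (u : Fk I T) (l : I) (q : I → ℝ) :
    vc (fun b => dl l (hv v (en u b))) (fun b => u.val (en u b)) q =
      LL39.JJ (fun l m => v l m) q (Fk.ccr.An (v l) u) := by
  refine Eq.trans ?_ (LL39.JJ_bo_eq _ q l u (LL39.out_supp u)).symm
  simp only [hv, dl_ev]
  exact sum_en u fun n =>
    LL39.ev (MvPolynomial.pderiv l (LL39.ph (fun l m => v l m) n)) q • u.val n

theorem sD_JJ {v : I → EuclideanSpace ℂ I} (h : Orthonormal ℂ v) (P : T →ₗ[ℂ] T)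
    (M : I → T →ₗ[ℂ] T) (u : Fk I T) (q : I → ℝ) :
    sD P M q (LL39.JJ (fun l m => v l m) q u) = LL39.JJ (fun l m => v l m) q (fD v P M u) := by
  have h1 : ∀ l, LL39.JJ (fun l m => v l m) q (Fk.ccr.An (v l) u + Fk.ccr.Cr (v l) u) =
      (q l : ℂ) • LL39.JJ (fun l m => v l m) q u := fun l => LL39.JJ_field (on_sum h) q l u
  rw [fD, map_add, map_sum]
  simp only [LL39.JJ_lift, h1, sD, LinearMap.add_apply, LinearMap.sum_apply,
    LinearMap.smul_apply, map_smul]

theorem int_JJ {v : I → EuclideanSpace ℂ I} (h : Orthonormal ℂ v) (u : Fk I T) :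
    ∫ q, ‖LL39.JJ (fun l m => v l m) q u‖ ^ 2 ∂gam I = ‖u‖ ^ 2 := by
  rw [gam_eq_pi]
  exact LL39.int_rho (on_sum h) u

theorem integrable_JJ (v : I → EuclideanSpace ℂ I) (u : Fk I T) :
    Integrable (fun q => ‖LL39.JJ (fun l m => v l m) q u‖ ^ 2) (gam I) := by
  rw [gam_eq_pi]
  exact LL39.rho_int _ u

end T80

open T80 in
theorem st_REP : St_REP := by
  intro I T J _ _ _ _ _ ν v P M h u
  refine ⟨_, fun b => hv v (en u b), en u, fun b => c1_ev _, ?_, ?_⟩
  · simp only [sN, rh, vc_en, int_JJ h]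
  · simp only [sF, Dr, de, vc_dl, int_JJ h, sK, ke, vc_en, sD_JJ h, fE]
    rw [integral_finsetSum _ fun j _ => integrable_JJ v _]
    simp only [int_JJ h]

end Pool.Agent.Lib.LL
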