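import Pool.Agent.Lib.LL.Blue

/-! Row RM: real modes. -/

open scoped ComplexConjugate InnerProductSpace
open Finset

noncomputable section

namespace Pool.Agent.Lib.LL

open Pool.Agent.Lib.MP_791321_mp

namespace T5

variable {L Λ : ℝ} {ε : V3 → Fin 2 → V3}

def ng (z : Kset L Λ) : Kset L Λ := flipK (fun _ => -1) (fun _ => by simp) z

lemma ng_ng (z : Kset L Λ) : ng (ng z) = z := by
  ext i
  simp [ng, flipK]

lemma mom_ng (z : Kset L Λ) : mom L (ng z).1 = -mom L z := mom_neg z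

def RM (ε : V3 → Fin 2 → V3) (l m : Mode L Λ) : ℝ :=
  if m.1 = ng l.1 then ∑ i, ε (kk m) m.2 i * ε (kk l) l.2 i else 0

lemma RM_symm (l m : Mode L Λ) : RM ε l m = RM ε m l := by
  unfold RM
  by_cases h : m.1 = ng l.1
  · rw [if_pos h, if_pos (by rw [h, ng_ng])]
    exact sum_congr rfl fun i _ => mul_comm _ _
  · rw [if_neg h, if_neg fun h' => h (by rw [h', ng_ng])]

lemma RM_om (l m : Mode L Λ) : om l * RM ε l m = om m * RM ε l m := by
  unfold RM
  split_ifs with h
  · have : om m = om l := by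
      simp only [om, kk]
      rw [h, mom_ng, norm_neg]
    rw [this]
  · simp

/-- the projection of a transverse vector on the polarisation vectors at the opposite momentum -/
lemma proj (hε : IsPolarisation ε) (l : Mode L Λ) (j : Fin 3) :
    ∑ μ, (∑ i, ε (-kk l) μ i * ε (kk l) l.2 i) * ε (-kk l) μ j = ε (kk l) l.2 j := by
  have h0 : -kk l ≠ 0 := neg_ne_zero.2 (kk_ne l)
  have h1 : ∑ μ, (∑ i, ε (-kk l) μ i * ε (kk l) l.2 i) * ε (-kk l) μ j =
      ∑ i, ε (kk l) l.2 i * ∑ μ, ε (-kk l) μ i * ε (-kk l) μ j := by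
    simp only [sum_mul, mul_sum]
    rw [sum_comm]
    exact sum_congr rfl fun i _ => sum_congr rfl fun μ _ => by ring
  have h2 := pol_trans hε (kk_ne l) l.2
  rw [h1]
  simp only [pol_complete hε h0, mul_sub, sum_sub_distrib, mul_ite, mul_one, mul_zero,
    sum_ite_eq', mem_univ, if_true, PiLp.neg_apply]
  have h3 : ∑ i, ε (kk l) l.2 i * (-kk l i * -kk l j / ‖-kk l‖ ^ 2) =
      (∑ i, ε (kk l) l.2 i * kk l i) * (kk l j / ‖-kk l‖ ^ 2) := by
    rw [sum_mul]
    exact sum_congr rfl fun i _ => by ring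
  rw [h3, h2, zero_mul, sub_zero]

lemma RM_sum (hε : IsPolarisation ε) (l : Mode L Λ) (j : Fin 3) (f : Kset L Λ → ℝ) :
    ∑ m, RM ε l m * (ε (kk m) m.2 j * f m.1) = ε (kk l) l.2 j * f (ng l.1) := by
  rw [Fintype.sum_prod_type, sum_eq_single (ng l.1)]
  · rw [← proj hε l j, sum_mul]
    refine sum_congr rfl fun μ _ => ?_
    have : kk ((ng l.1, μ) : Mode L Λ) = -kk l := mom_ng l.1
    simp only [RM, if_true, this]
    ring
  · intro z _ hz
    simp [RM, hz]
  · simp

lemma RM_sq (hε : IsPolarisation ε) (l l' : Mode L Λ) :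
    ∑ m, RM ε l m * RM ε l' m = if l = l' then 1 else 0 := by
  have h1 : ∀ m, RM ε l m * RM ε l' m = ∑ i, ε (kk l') l'.2 i *
      (RM ε l m * (ε (kk m) m.2 i * if m.1 = ng l'.1 then 1 else 0)) := by
    intro m
    conv_lhs => rw [RM.eq_1 ε l' m]
    split_ifs
    · rw [mul_sum]
      exact sum_congr rfl fun i _ => by ring
    · simp
  simp only [h1]
  rw [sum_comm]
  simp only [← mul_sum, RM_sum hε l _ fun z => if z = ng l'.1 then 1 else 0]
  obtain ⟨z, μ⟩ := l
  obtain ⟨z', μ'⟩ := l'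
  by_cases hz : z = z'
  · subst hz
    have ho := orthonormal_iff_ite.1 (hε _ z.2.1).1 μ μ'
    rw [V3_inner] at ho
    simp only [if_true, mul_one, Prod.mk.injEq, true_and, ← ho, kk]
    exact sum_congr rfl fun i _ => mul_comm _ _
  · have : ng z ≠ ng z' := fun h => hz (by rw [← ng_ng z, h, ng_ng])
    simp [this, hz]

def vv (ε : V3 → Fin 2 → V3) (l : Mode L Λ) : EuclideanSpace ℂ (Mode L Λ) :=
  WithLp.toLp 2 fun m => (1 - Complex.I) / 2 * (if l = m then 1 else 0) +
    (1 + Complex.I) / 2 * (RM ε l m : ℂ)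

lemma vv_apply (l m : Mode L Λ) : vv ε l m = (1 - Complex.I) / 2 * (if l = m then 1 else 0) +
    (1 + Complex.I) / 2 * (RM ε l m : ℂ) := rfl

lemma vv_symm (l m : Mode L Λ) : vv ε l m = vv ε m l := by
  simp only [vv_apply, RM_symm l m, eq_comm]

lemma vv_om (l m : Mode L Λ) : (om l : ℂ) * vv ε l m = om m * vv ε l m := by
  have h : (om l : ℂ) * RM ε l m = om m * RM ε l m := by exact_mod_cast RM_om l m
  rw [vv_apply]
  split_ifs with hl
  · rw [hl]
  · linear_combination (1 + Complex.I) / 2 * h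

lemma vv_orth (hε : IsPolarisation ε) (l l' : Mode L Λ) :
    ∑ m, vv ε l' m * conj (vv ε l m) = if l = l' then 1 else 0 := by
  have h : ∑ m, (RM ε l m : ℂ) * RM ε l' m = if l = l' then 1 else 0 := by
    have := congrArg (fun x : ℝ => (x : ℂ)) (RM_sq hε l l')
    simp only [Complex.ofReal_sum, Complex.ofReal_mul] at this
    rw [this]
    split_ifs <;> simp
  have h1 : ∀ m, vv ε l' m * conj (vv ε l m) =
      1 / 2 * (if l = m then (if l' = m then 1 else 0) else 0) +
      Complex.I / 2 * (if l = m then (RM ε l' m : ℂ) else 0) -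
      Complex.I / 2 * (if l' = m then (RM ε l m : ℂ) else 0) +
      1 / 2 * ((RM ε l m : ℂ) * RM ε l' m) := by
    intro m
    simp only [vv_apply, map_add, map_mul, map_div₀, map_sub, map_one, Complex.conj_I,
      Complex.conj_ofReal, Complex.conj_ofNat, apply_ite conj, map_zero]
    split_ifs
    · linear_combination (-1 / 4 + (RM ε l' m : ℂ) / 4 + (RM ε l m : ℂ) / 4 -
        (RM ε l m : ℂ) * RM ε l' m / 4) * Complex.I_mul_I
    · linear_combination ((RM ε l m : ℂ) / 4 - (RM ε l m : ℂ) * RM ε l' m / 4) * Complex.I_mul_I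
    · linear_combination ((RM ε l' m : ℂ) / 4 - (RM ε l m : ℂ) * RM ε l' m / 4) * Complex.I_mul_I
    · linear_combination (-(RM ε l m : ℂ) * RM ε l' m / 4) * Complex.I_mul_I
  simp only [h1, sum_add_distrib, sum_sub_distrib, ← mul_sum, h, sum_ite_eq, mem_univ, if_true]
  simp only [RM_symm l' l, eq_comm (a := l')]
  ring

lemma vv_on (hε : IsPolarisation ε) : Orthonormal ℂ (vv (L := L) (Λ := Λ) ε) := by
  rw [orthonormal_iff_ite]
  intro l l'
  rw [PiLp.inner_apply, ← vv_orth hε]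
  simp only [RCLike.inner_apply]

lemma field (hε : IsPolarisation ε) {S : Type} [SeminormedAddCommGroup S] [InnerProductSpace ℂ S]
    (y : Mode L Λ → S) :
    ∑ l, om l * ‖∑ m, conj (vv ε l m) • y m‖ ^ 2 = ∑ m, om m * ‖y m‖ ^ 2 := by
  have h1 : ∀ w : S, ((‖w‖ : ℂ)) ^ 2 = ⟪w, w⟫_ℂ := fun w => by
    rw [inner_self_eq_norm_sq_to_K]
    rfl
  apply Complex.ofReal_injective
  push_cast
  simp only [h1, sum_inner, inner_sum, inner_smul_left, inner_smul_right, Complex.conj_conj,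
    mul_sum]
  rw [sum_comm]
  refine sum_congr rfl fun m _ => ?_
  rw [sum_comm]
  have h2 : ∀ m', ∑ l, (om l : ℂ) * (conj (vv ε l m) * (vv ε l m' * ⟪y m', y m⟫_ℂ)) =
      om m' * ((if m = m' then 1 else 0) * ⟪y m', y m⟫_ℂ) := by
    intro m'
    rw [← vv_orth hε, sum_mul, mul_sum]
    refine sum_congr rfl fun l _ => ?_
    rw [vv_symm m', vv_symm m]
    linear_combination conj (vv ε l m) * ⟪y m', y m⟫_ℂ * vv_om (ε := ε) l m'
  simp [h2]

lemma pot (hε : IsPolarisation ε) (i : Fin 3) (x : V3) (m : Mode L Λ) :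
    ∑ l, (GG ε l i x : ℂ) * vv ε l m =
      wt ε i m * Complex.exp (-(Complex.I * (inner ℝ (kk m) x : ℝ))) := by
  have h := RM_sum hε m i fun z => (Real.cos (inner ℝ (mom L z) x) +
    Real.sin (inner ℝ (mom L z) x)) / √(2 * L ^ 3 * ‖mom L z‖)
  have h1 : ∑ l, RM ε m l * GG ε l i x =
      wt ε i m * (Real.cos (inner ℝ (kk m) x) - Real.sin (inner ℝ (kk m) x)) := by
    simp only [mom_ng, inner_neg_left, Real.cos_neg, Real.sin_neg, norm_neg] at h
    refine (sum_congr rfl fun l _ => ?_).trans (h.trans ?_)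
    · simp only [GG, wt, kk]
      ring
    · simp only [wt, kk]
      ring
  have h2 : ∑ l, (RM ε m l : ℂ) * GG ε l i x =
      wt ε i m * (Real.cos (inner ℝ (kk m) x) - Real.sin (inner ℝ (kk m) x)) := by
    exact_mod_cast h1
  have h3 : ∀ l, (GG ε l i x : ℂ) * vv ε l m =
      (1 - Complex.I) / 2 * (if l = m then (GG ε l i x : ℂ) else 0) +
        (1 + Complex.I) / 2 * ((RM ε m l : ℂ) * GG ε l i x) := by
    intro l
    rw [vv_apply, RM_symm l m]
    split_ifs <;> ring
  have h4 : Complex.exp (-(Complex.I * (inner ℝ (kk m) x : ℝ))) =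
      Real.cos (inner ℝ (kk m) x) - Real.sin (inner ℝ (kk m) x) * Complex.I := by
    rw [mul_comm, ← neg_mul, Complex.exp_mul_I, Complex.cos_neg, Complex.sin_neg,
      Complex.ofReal_cos, Complex.ofReal_sin]
    ring
  simp only [h3, sum_add_distrib, ← mul_sum, h2, sum_ite_eq', mem_univ, if_true, h4]
  simp only [GG, Complex.ofReal_mul, Complex.ofReal_add]
  ring

lemma kinet (hε : IsPolarisation ε) {N : ℕ} (α : ℝ) (j : Fin N) (i : Fin 3) (u : SS L Λ N) :
    Dop α ε j i u = fD (vv ε) (PN N (j, i)) (MN N (gA α ε) (j, i)) u := by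
  simp only [Dop, fD, LinearMap.add_apply, LinearMap.smul_apply]
  congr 1
  ext n σ x
  have hc : ∀ m : Mode L Λ, ∑ l, (GG ε l i (x j) : ℂ) * vv ε l m = wt ε i m * ex j (-kk m) x :=
    fun m => by rw [pot hε, ex_neg]
  have ha : ∀ m : Mode L Λ,
      ∑ l, (GG ε l i (x j) : ℂ) * conj (vv ε l m) = wt ε i m * ex j (kk m) x := fun m => by
    have := congrArg conj (hc m)
    simpa only [map_sum, map_mul, Complex.conj_ofReal, conj_ex, neg_neg] using this
  have e1 : ∀ m : Mode L Λ, (((dressed j).a m u).val n).val σ x =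
      ex j (kk m) x * ((Fk.ccr.a m u).val n).val σ x := fun m => rfl
  have e2 : ∀ m : Mode L Λ, (((dressed j).c m u).val n).val σ x =
      ex j (-kk m) x * ((Fk.ccr.c m u).val n).val σ x := fun m => rfl
  simp only [Aop, LinearMap.add_apply, CCR.An_apply, CCR.Cr_apply, Fk.val_smul, Fk.val_add,
    Fk.val_sum, Fk.val_lift, MN, val_mulN (gA_sm α ε _ i), Tst.val_smul, Tst.val_add, Tst.val_sum,
    Pi.smul_apply, Pi.add_apply, Finset.sum_apply, smul_eq_mul, e1, e2, uvec, Complex.conj_ofReal,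
    gA, Complex.ofReal_mul]
  simp only [← mul_assoc (wt ε i _ : ℂ), ← ha, ← hc]
  simp only [mul_add, mul_sum, sum_mul, sum_add_distrib, mul_assoc]
  congr 1 <;> rw [sum_comm]

end T5

theorem st_RM : St_RM := fun L Λ ε _ hε => ⟨T5.vv ε, T5.vv_on hε, fun N α u => by
  rw [energy, fE, Fintype.sum_prod_type (f := fun r : Fin N × Fin 3 =>
    ‖fD (T5.vv ε) (PN N r) (MN N (gA α ε) r) u‖ ^ 2)]
  simp only [CCR.An_apply, T5.field hε, ← T5.kinet hε]
  rfl⟩

end Pool.Agent.Lib.LL
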