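import Pool.Agent.Lib.LL.Blue
import Pool.Agent.Lib.LL.Sch

/-! Project ll90: the Schroedinger representation exists. -/

namespace Pool.Agent.Lib.LL

theorem st_SCH : St_SCH := fun _ _ _ _ h => exists_sch h

end Pool.Agent.Lib.LL
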