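import Pool.Agent.Lib.LL.Blue

/-! The Sobolev inequality and its diamagnetic form. -/

open scoped ContDiff NNReal ENNReal
open MeasureTheory

noncomputable section

namespace Pool.Agent.Lib.LL

open Pool.Agent.Lib.MP_791321_mp

namespace T31

lemma opn_sq_le (L : V3 →L[ℝ] ℝ) : ‖L‖ ^ 2 ≤ ∑ i, L (ei i) ^ 2 := by
  have h0 : 0 ≤ ∑ i, L (ei i) ^ 2 := Finset.sum_nonneg fun i _ => sq_nonneg _
  have h : ‖L‖ ≤ √(∑ i, L (ei i) ^ 2) := by
    refine L.opNorm_le_bound (Real.sqrt_nonneg _) fun v => ?_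
    have hv : v = ∑ i, v i • ei i := by
      ext j
      simp [ei, Finset.sum_apply, Pi.single_apply]
    have h1 : L v = ∑ i, L (ei i) * v i := by
      conv_lhs => rw [hv]
      simp [mul_comm]
    rw [EuclideanSpace.norm_eq, ← Real.sqrt_mul h0, Real.norm_eq_abs]
    refine Real.abs_le_sqrt ?_
    rw [h1]
    simpa using Finset.sum_mul_sq_le_sq_mul_sq Finset.univ (fun i => L (ei i)) (fun i => v i)
  calc ‖L‖ ^ 2 ≤ √(∑ i, L (ei i) ^ 2) ^ 2 := by gcongr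
    _ = _ := Real.sq_sqrt h0

lemma gr2_integrable {u : V3 → ℝ} (hu : ContDiff ℝ 1 u) (h2 : HasCompactSupport u) :
    Integrable (gr2 u) := by
  refine integrable_finsetSum _ fun i _ => ?_
  refine Continuous.integrable_of_hasCompactSupport
    (((hu.continuous_fderiv (by simp)).clm_apply continuous_const).pow 2) ?_
  exact (h2.fderiv_apply ℝ (ei i)).comp_left (g := fun z : ℝ => z ^ 2) (by simp)

lemma sob : ∃ C : ℝ, 0 < C ∧ ∀ u : V3 → ℝ, ContDiff ℝ 1 u → HasCompactSupport u →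
    ∫ x, u x ^ 6 ≤ (C * ∫ x, gr2 u x) ^ 3 := by
  set K : ℝ≥0 := SNormLESNormFDerivOfEqConst ℝ (volume : Measure V3) ((2 : ℝ≥0) : ℝ) with hK
  refine ⟨(K : ℝ) ^ 2 + 1, by positivity, fun u hu h2 => ?_⟩
  have h := eLpNorm_le_eLpNorm_fderiv_of_eq (volume : Measure V3) hu h2 (p := 2) (p' := 6)
    (by norm_num) (by simp) (by simp; norm_num)
  have m1 : MemLp u ((6 : ℝ≥0) : ℝ≥0∞) volume := hu.continuous.memLp_of_hasCompactSupport h2
  have m2 : MemLp (fderiv ℝ u) ((2 : ℝ≥0) : ℝ≥0∞) volume :=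
    (hu.continuous_fderiv (by simp)).memLp_of_hasCompactSupport (h2.fderiv ℝ)
  rw [m1.eLpNorm_eq_integral_rpow_norm (by simp) (by simp),
    m2.eLpNorm_eq_integral_rpow_norm (by simp) (by simp), ← hK, ← ENNReal.ofReal_coe_nnreal (p := K),
    ← ENNReal.ofReal_mul K.coe_nonneg] at h
  have e1 : ∫ x, ‖u x‖ ^ ((6 : ℝ≥0) : ℝ≥0∞).toReal = ∫ x, u x ^ 6 := by
    refine integral_congr_ae (.of_forall fun x => ?_)
    have : ((6 : ℝ≥0) : ℝ≥0∞).toReal = ((6 : ℕ) : ℝ) := by simp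
    simp only [this, Real.rpow_natCast, Real.norm_eq_abs]
    exact Even.pow_abs (by norm_num) _
  have e2 : ∫ x, ‖fderiv ℝ u x‖ ^ ((2 : ℝ≥0) : ℝ≥0∞).toReal = ∫ x, ‖fderiv ℝ u x‖ ^ 2 := by
    refine integral_congr_ae (.of_forall fun x => ?_)
    have : ((2 : ℝ≥0) : ℝ≥0∞).toReal = ((2 : ℕ) : ℝ) := by simp
    simp only [this, Real.rpow_natCast]
  rw [e1, e2] at h
  have p1 : 0 ≤ ∫ x, u x ^ 6 := integral_nonneg fun x => by positivity
  have p2 : 0 ≤ ∫ x, ‖fderiv ℝ u x‖ ^ 2 := integral_nonneg fun x => by positivity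
  have p3 : ∫ x, ‖fderiv ℝ u x‖ ^ 2 ≤ ∫ x, gr2 u x :=
    integral_mono_of_nonneg (.of_forall fun x => by positivity) (gr2_integrable hu h2)
      (.of_forall fun x => opn_sq_le _)
  generalize ∫ x, u x ^ 6 = A at h p1 ⊢
  generalize ∫ x, ‖fderiv ℝ u x‖ ^ 2 = B at h p2 p3
  generalize ∫ x, gr2 u x = G at p3 ⊢
  have h3 := (ENNReal.ofReal_le_ofReal_iff (by positivity)).1 h
  have c6 : ((6 : ℝ≥0) : ℝ≥0∞).toReal⁻¹ = ((6 : ℕ) : ℝ)⁻¹ := by simp
  have c2 : ((2 : ℝ≥0) : ℝ≥0∞).toReal⁻¹ = ((2 : ℕ) : ℝ)⁻¹ := by simp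
  rw [c6, c2] at h3
  have h4 := pow_le_pow_left₀ (by positivity) h3 6
  rw [Real.rpow_inv_natCast_pow p1 (by norm_num), show 6 = 2 * 3 from rfl, pow_mul, mul_pow,
    Real.rpow_inv_natCast_pow p2 (by norm_num)] at h4
  refine h4.trans (pow_le_pow_left₀ (by positivity) ?_ 3)
  nlinarith [mul_le_mul_of_nonneg_left p3 (sq_nonneg (K : ℝ))]

lemma inner_sq_le (z d : ℂ) (a : ℝ) :
    inner ℝ z d ^ 2 ≤ ‖z‖ ^ 2 * ‖-Complex.I * d + (a : ℂ) * z‖ ^ 2 := by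
  rw [Complex.inner, Complex.sq_norm, Complex.sq_norm, Complex.normSq_apply, Complex.normSq_apply]
  simp only [Complex.mul_re, Complex.mul_im, Complex.add_re, Complex.add_im, Complex.neg_re,
    Complex.neg_im, Complex.I_re, Complex.I_im, Complex.ofReal_re, Complex.ofReal_im,
    Complex.conj_re, Complex.conj_im]
  nlinarith [sq_nonneg (z.re * (d.im + a * z.re) + z.im * (a * z.im - d.re))]

lemma kap_integrable {a : Fin 3 → V3 → ℝ} (ha : Sm a) (φ : TF) : Integrable (kap a φ.val) := by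
  refine integrable_finsetSum _ fun i _ => ?_
  have := (TF.p i φ + TF.mul (a i) φ).integrable_normSq
  simpa only [TF.val_add, Pi.add_apply, TF.val_p, TF.val_mul (ha i)] using this

lemma gr2_le (a : Fin 3 → V3 → ℝ) (φ : TF) {η : ℝ} (hη : 0 < η) (x : V3) :
    gr2 (fun y => √(‖φ.val y‖ ^ 2 + η ^ 2) - η) x ≤ kap a φ.val x := by
  refine Finset.sum_le_sum fun i _ => ?_
  have hp : 0 < ‖φ.val x‖ ^ 2 + η ^ 2 := by positivity
  have hd := ((((φ.diff x).hasFDerivAt.norm_sq).add_const (η ^ 2)).sqrt hp.ne').sub_const η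
  have e : pd i (fun y => √(‖φ.val y‖ ^ 2 + η ^ 2) - η) x
      = inner ℝ (φ.val x) (pd i φ.val x) / √(‖φ.val x‖ ^ 2 + η ^ 2) := by
    have hs : √(‖φ.val x‖ ^ 2 + η ^ 2) ≠ 0 := (Real.sqrt_pos.2 hp).ne'
    rw [pd, hd.fderiv, pd]
    simp only [smul_apply, ContinuousLinearMap.comp_apply, innerSL_apply_apply,
      smul_eq_mul, nsmul_eq_mul]
    field_simp
    norm_num
  rw [e, div_pow, Real.sq_sqrt hp.le, div_le_iff₀ hp]
  have := inner_sq_le (φ.val x) (pd i φ.val x) (a i x)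
  nlinarith [mul_nonneg (sq_nonneg ‖-Complex.I * pd i φ.val x + (a i x : ℂ) * φ.val x‖)
    (sq_nonneg η)]

lemma pow_six_le {s η : ℝ} (hs : 0 ≤ s) (hη : 0 < η) :
    s ^ 6 ≤ (√(s ^ 2 + η ^ 2) - η) ^ 6 + η * (6 * s ^ 5) := by
  have h1 : s ≤ √(s ^ 2 + η ^ 2) := Real.le_sqrt_of_sq_le (by nlinarith)
  have h2 : η ≤ √(s ^ 2 + η ^ 2) := Real.le_sqrt_of_sq_le (by nlinarith)
  have h3 : √(s ^ 2 + η ^ 2) ≤ s + η := Real.sqrt_le_iff.2 ⟨by positivity, by nlinarith⟩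
  generalize ht : √(s ^ 2 + η ^ 2) - η = t
  have t0 : 0 ≤ t := by linarith
  have t1 : t ≤ s := by linarith
  have t2 : s - t ≤ η := by linarith
  have k : ∀ i j : ℕ, s ^ i * t ^ j ≤ s ^ (i + j) := fun i j => by
    rw [pow_add]; gcongr
  have h4 : s ^ 5 + s ^ 4 * t ^ 1 + s ^ 3 * t ^ 2 + s ^ 2 * t ^ 3 + s ^ 1 * t ^ 4 + s ^ 0 * t ^ 5
      ≤ 6 * s ^ 5 := by
    have k1 : s ^ 4 * t ^ 1 ≤ s ^ 5 := k 4 1
    have k2 : s ^ 3 * t ^ 2 ≤ s ^ 5 := k 3 2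
    have k3 : s ^ 2 * t ^ 3 ≤ s ^ 5 := k 2 3
    have k4 : s ^ 1 * t ^ 4 ≤ s ^ 5 := k 1 4
    have k5 : s ^ 0 * t ^ 5 ≤ s ^ 5 := k 0 5
    linarith
  have h5 := mul_le_mul t2 h4 (by positivity) hη.le
  nlinarith

end T31

theorem st_SOB : St_SOB := by
  obtain ⟨C, hC, h⟩ := T31.sob
  refine ⟨C, hC, h, fun a φ ha => ?_⟩
  have i5 : Integrable fun x => 6 * ‖φ.val x‖ ^ 5 :=
    Continuous.integrable_of_hasCompactSupport (continuous_const.mul (φ.cont.norm.pow 5))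
      (φ.cpt.comp_left (g := fun z : ℂ => 6 * ‖z‖ ^ 5) (by simp))
  have key : ∀ η : ℝ, 0 < η → ∫ x, ‖φ.val x‖ ^ 6
      ≤ (C * ∫ x, kap a φ.val x) ^ 3 + η * ∫ x, 6 * ‖φ.val x‖ ^ 5 := by
    intro η hη
    have hu : ContDiff ℝ 1 fun y => √(‖φ.val y‖ ^ 2 + η ^ 2) - η :=
      ((((φ.smooth.of_le (by simp)).norm_sq ℝ).add contDiff_const).sqrt
        fun y => by positivity).sub contDiff_const
    have hc : HasCompactSupport fun y => √(‖φ.val y‖ ^ 2 + η ^ 2) - η :=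
      φ.cpt.comp_left (g := fun z : ℂ => √(‖z‖ ^ 2 + η ^ 2) - η) (by simp [hη.le])
    have i6 : Integrable fun y => (√(‖φ.val y‖ ^ 2 + η ^ 2) - η) ^ 6 :=
      Continuous.integrable_of_hasCompactSupport (hu.continuous.pow 6)
        (hc.comp_left (g := fun z : ℝ => z ^ 6) (by simp))
    have h1 := h _ hu hc
    have h2 : ∫ x, gr2 (fun y => √(‖φ.val y‖ ^ 2 + η ^ 2) - η) x ≤ ∫ x, kap a φ.val x :=
      integral_mono (T31.gr2_integrable hu hc) (T31.kap_integrable ha φ) (T31.gr2_le a φ hη)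
    have h0 : 0 ≤ ∫ x, gr2 (fun y => √(‖φ.val y‖ ^ 2 + η ^ 2) - η) x :=
      integral_nonneg fun x => Finset.sum_nonneg fun i _ => sq_nonneg _
    have h3 : ∫ x, ‖φ.val x‖ ^ 6
        ≤ ∫ x, ((√(‖φ.val x‖ ^ 2 + η ^ 2) - η) ^ 6 + η * (6 * ‖φ.val x‖ ^ 5)) :=
      integral_mono_of_nonneg (.of_forall fun x => by positivity) (i6.add (i5.const_mul η))
        (.of_forall fun x => T31.pow_six_le (norm_nonneg _) hη)
    rw [integral_add i6 (i5.const_mul η), integral_const_mul] at h3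
    have h4 : (C * ∫ x, gr2 (fun y => √(‖φ.val y‖ ^ 2 + η ^ 2) - η) x) ^ 3
        ≤ (C * ∫ x, kap a φ.val x) ^ 3 := by gcongr
    linarith
  have p5 : 0 ≤ ∫ x, 6 * ‖φ.val x‖ ^ 5 := integral_nonneg fun x => by positivity
  generalize ∫ x, 6 * ‖φ.val x‖ ^ 5 = D at key p5
  refine le_of_forall_pos_le_add fun ε hε => (key (ε / (D + 1)) (by positivity)).trans ?_
  have : ε / (D + 1) * D ≤ ε := by
    rw [div_mul_eq_mul_div, div_le_iff₀ (by positivity)]; nlinarith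
  linarith

end Pool.Agent.Lib.LL
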