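import Pool.Agent.Lib.LL.Defs

/-! Project ll90: blueprint. -/

open scoped ComplexConjugate InnerProductSpace ContDiff Matrix ComplexOrder Topology
open MeasureTheory Filter

noncomputable section

namespace Pool.Agent.Lib.LL

open Pool.Agent.Lib.MP_791321_mp

/-! ### From Fock space to Gaussian space and back -/

def St_SCH : Prop := ∀ (I : Type) [Fintype I] [DecidableEq I] (v : I → EuclideanSpace ℂ I),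
  Orthonormal ℂ v → ∃ h, Sch v h

def St_DENS : Prop := ∀ (I : Type) [Fintype I] (f : (I → ℝ) → ℂ), MemLp f 2 (gam I) →
  (∀ n : I → ℕ, ∫ q, (∏ l, (q l : ℂ) ^ n l) * f q ∂gam I = 0) → f =ᵐ[gam I] 0

def St_CONV : Prop := ∀ (I : Type) [Fintype I] [DecidableEq I] (v : I → EuclideanSpace ℂ I)
  (h : (I → ℕ) → (I → ℝ) → ℂ), Sch v h → ∀ (c c' : (I → ℝ) → ℂ) (a b : ℕ), PG c → PG c' →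
  Tendsto (fun m => ⟪tr h (m + a) c, tr h (m + b) c'⟫_ℂ) atTop
    (𝓝 (∫ q, conj (c q) * c' q ∂gam I))

def St_EXT : Prop := ∀ (I T J B : Type) [Fintype I] [DecidableEq I] [SeminormedAddCommGroup T]
  [InnerProductSpace ℂ T] [Fintype J] [Fintype B] (ν : I → ℝ) (v : I → EuclideanSpace ℂ I)
  (P : J → T →ₗ[ℂ] T) (M : J → I → T →ₗ[ℂ] T) (V : Submodule ℂ T) (E : ℝ), Orthonormal ℂ v →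
  (∀ u : Fk I T, (∀ n, u.val n ∈ V) → E * ‖u‖ ^ 2 ≤ fE ν v P M u) →
  ∀ (p : B → (I → ℝ) → ℂ) (e : B → T), (∀ b, C1 (p b)) → (∀ b, e b ∈ V) →
    E * sN p e ≤ sF ν p e + 1 / 2 * sK P M p e

def St_REP : Prop := ∀ (I T J : Type) [Fintype I] [DecidableEq I] [SeminormedAddCommGroup T]
  [InnerProductSpace ℂ T] [Fintype J] (ν : I → ℝ) (v : I → EuclideanSpace ℂ I)
  (P : J → T →ₗ[ℂ] T) (M : J → I → T →ₗ[ℂ] T), Orthonormal ℂ v → ∀ u : Fk I T,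
  ∃ (d : ℕ) (p : Fin d → (I → ℝ) → ℂ) (n : Fin d → I → ℕ), (∀ b, C1 (p b)) ∧
    ‖u‖ ^ 2 = sN p (fun b => u.val (n b)) ∧
    fE ν v P M u = sF ν p (fun b => u.val (n b)) + 1 / 2 * sK P M p (fun b => u.val (n b))

def St_RM : Prop := ∀ (L Λ : ℝ) (ε : V3 → Fin 2 → V3), 0 < L → IsPolarisation ε →
  ∃ v : Mode L Λ → EuclideanSpace ℂ (Mode L Λ), Orthonormal ℂ v ∧
    ∀ (N : ℕ) (α : ℝ) (u : SS L Λ N), energy α ε u = fE om v (PN N) (MN N (gA α ε)) u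

def St_RED : Prop := ∀ (I : Type) [Fintype I] [DecidableEq I] (ν : I → ℝ)
  (v : I → EuclideanSpace ℂ I) (g : I → Fin 3 → V3 → ℝ) (E : ℝ) (u : Fk I (Tst 1)),
  (∀ l, Sm (g l)) → fE ν v (PN 1) (MN 1 g) u < E * ‖u‖ ^ 2 →
  ∃ u' : Fk I TF, fE ν v TF.p (M1 g) u' < E * ‖u'‖ ^ 2

def St_IMS : Prop := ∃ C : ℝ, 0 < C ∧ ∀ (I : Type) [Fintype I] [DecidableEq I] (ν : I → ℝ)
  (v : I → EuclideanSpace ℂ I) (g : I → Fin 3 → V3 → ℝ) (E R : ℝ) (u : Fk I TF),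
  (∀ l, Sm (g l)) → 0 < R → fE ν v TF.p (M1 g) u < E * ‖u‖ ^ 2 →
  ∃ (c : V3) (u' : Fk I TF), (∀ n, u'.val n ∈ SupS c R) ∧
    fE ν v TF.p (M1 g) u' < (E + C / R ^ 2) * ‖u'‖ ^ 2

def St_DEN : Prop := ∀ (I T B : Type) [Fintype I] [DecidableEq I] [SeminormedAddCommGroup T]
  [InnerProductSpace ℂ T] [Fintype B] (p : B → (I → ℝ) → ℂ) (e : B → T), (∀ b, C1 (p b)) →
  Dens (rh p e) (de p e) ∧ ∀ (J : Type) [Fintype J] (P : J → T →ₗ[ℂ] T)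
    (M : J → I → T →ₗ[ℂ] T), PG (ke P M p e)

def St_ONB : Prop := ∀ (I : Type) [Fintype I] [DecidableEq I] (d : ℕ)
  (p : Fin d → (I → ℝ) → ℂ) (e : Fin d → TF) (u₀ : TF) (S : Submodule ℂ TF), (∀ b, C1 (p b)) →
  (∀ b, e b ∈ S) → u₀ ∈ S → ∃ (d' : ℕ) (p' : Fin d' → (I → ℝ) → ℂ) (e' : Fin d' → TF)
    (w : Fin d' → ℂ), (∀ b, C1 (p' b)) ∧ Orthonormal ℂ e' ∧ (∀ b, e' b ∈ S) ∧
    vc p' e' = vc p e ∧ de p' e' = de p e ∧ ∑ b, w b • e' b = u₀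

/-- The kinetic energy as an integral. -/
def St_KAP : Prop := ∀ (I : Type) [Fintype I] (g : I → Fin 3 → V3 → ℝ) (q : I → ℝ),
  (∀ l, Sm (g l)) → (∀ φ : TF,
    ∑ i, ‖sD (TF.p i) (M1 g i) q φ‖ ^ 2 = ∫ x, kap (Aq g q) φ.val x) ∧
  (∀ i x, curl (Aq g q) i x = ∑ l, q l * curl (g l) i x) ∧
  ∀ (a : Fin 3 → V3 → ℝ) (φ : TF), Sm a → Continuous (kap a φ.val) ∧ Integrable (kap a φ.val) ∧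
    ∀ i, ContDiff ℝ ∞ (curl a i)

/-! ### Field lemmas -/

def St_F0 : Prop := ∀ (I : Type) [Fintype I] [DecidableEq I] (ν : I → ℝ) (ρ : (I → ℝ) → ℝ)
  (δ x : I → (I → ℝ) → ℝ), (∀ l, 0 ≤ ν l) → Dens ρ δ → (∀ l, C1 (x l)) →
  ∫ q, (∑ l, (√(ν l) * dl l (x l) q - x l q ^ 2 - √(ν l) * q l * x l q)) * ρ q ∂gam I ≤ Dr ν δ

def St_F2 : Prop := ∀ (I : Type) [Fintype I] [DecidableEq I] (ν : I → ℝ) (ρ : (I → ℝ) → ℝ)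
  (δ : I → (I → ℝ) → ℝ) (M : Matrix I I ℝ) (κ : ℝ), (∀ l, 0 < ν l) → Dens ρ δ → M.PosSemidef →
  0 ≤ κ → (∀ ξ : I → ℝ, ξ ⬝ᵥ M *ᵥ ξ ≤ κ * ∑ l, ν l * ξ l ^ 2) →
  ∫ q, (q ⬝ᵥ M *ᵥ q) * ρ q ∂gam I ≤ 2 * M.trace * ∫ q, ρ q ∂gam I + 4 * κ * Dr ν δ

def St_F1 : Prop := ∀ (I Q J : Type) [Fintype I] [DecidableEq I] [Fintype Q] [Fintype J]
  (ν : I → ℝ) (ρ : (I → ℝ) → ℝ) (δ : I → (I → ℝ) → ℝ) (g : Q → J → I → ℝ) (Λ K d θ : ℝ),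
  (∀ l, 0 < ν l ∧ ν l ≤ Λ) → 0 ≤ Λ → Dens ρ δ → 0 < K → 8 * K ≤ d → 0 < θ →
  (∀ c : Q → J → ℝ, ∑ l, ν l * (∑ z, ∑ t, c z t * g z t l) ^ 2 ≤ K * ∑ z, ∑ t, c z t ^ 2) →
  (∀ z, d ≤ ∑ t, ∑ l, ν l * g z t l ^ 2) →
  PG (fun q : I → ℝ => ∑ z, 1 / (∑ t, (∑ l, q l * g z t l) ^ 2 + θ)) ∧
  d ^ 2 / (8 * K) * ∫ q, (∑ z, 1 / (∑ t, (∑ l, q l * g z t l) ^ 2 + θ)) * ρ q ∂gam I ≤
    Dr ν δ + Λ * (Fintype.card Q * Fintype.card J) / 2 * ∫ q, ρ q ∂gam I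

def St_PSD : Prop := ∀ (I : Type) [Fintype I] [DecidableEq I] (ν : I → ℝ) (M : Matrix I I ℝ),
  (∀ l, 0 < ν l) → M.PosSemidef →
  (∀ ξ : I → ℝ, ξ ⬝ᵥ M *ᵥ ξ ≤ (∑ l, M l l / ν l) * ∑ l, ν l * ξ l ^ 2) ∧
  (C1 fun q : I → ℝ => q ⬝ᵥ M *ᵥ q) ∧
  ∀ q : I → ℝ, ∑ l, ν l * dl l (fun q : I → ℝ => q ⬝ᵥ M *ᵥ q) q ^ 2 ≤
    4 * (∑ l, ν l * M l l) * (q ⬝ᵥ M *ᵥ q)

def St_GRAM : Prop := ∀ (I J : Type) [Fintype I] [Fintype J] (g : J → I → V3 → ℝ) (c : V3)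
  (s : ℝ), (∀ j l, Continuous (g j l)) → ∃ M : Matrix I I ℝ, M.PosSemidef ∧
  (∀ l, M l l = ∑ j, ∫ x in cube c s, g j l x ^ 2) ∧
  ∀ q : I → ℝ, q ⬝ᵥ M *ᵥ q = ∑ j, ∫ x in cube c s, (∑ l, q l * g j l x) ^ 2

/-! ### Electron lemmas -/

def St_CUB : Prop :=
  (∀ (c : V3) (s : ℝ), MeasurableSet (cube c s) ∧ Convex ℝ (cube c s) ∧
    volume (cube c s) < ⊤ ∧ (0 ≤ s → volume.real (cube c s) = s ^ 3) ∧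
    (∀ x ∈ cube c s, ∀ y ∈ cube c s, ‖x - y‖ ^ 2 ≤ 3 * s ^ 2) ∧
    (∀ f : V3 → ℝ, Continuous f → IntegrableOn f (cube c s)) ∧
    ∀ f : V3 → ℂ, Continuous f → IntegrableOn f (cube c s)) ∧
  (∀ (c : V3) (s : ℝ) (M : ℕ), 0 < s →
    (∀ z : Fin 3 → Fin M, cube (pt c s z) s ⊆ cube c (M * s)) ∧
    (Pairwise fun z z' : Fin 3 → Fin M => Disjoint (cube (pt c s z) s) (cube (pt c s z') s)) ∧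
    ∀ f : V3 → ℝ, Continuous f →
      ∑ z : Fin 3 → Fin M, ∫ x in cube (pt c s z) s, f x = ∫ x in cube c (M * s), f x) ∧
  ∀ (χ : V3 → ℝ) (c : V3) (s γ : ℝ), Bump χ c s γ → HasCompactSupport χ ∧
    ∀ x, x ∉ cube c s → ∀ i, pd i χ x = 0

def St_BMP : Prop := ∃ γ : ℝ, 0 < γ ∧ ∀ (c : V3) (s : ℝ), 0 < s → ∃ χ, Bump χ c s (γ / s) ∧
  ∀ x ∈ cube (sh c (s / 3)) (s / 3), χ x = 1

def St_POI : Prop := ∃ C : ℝ, 0 < C ∧ ∀ (c : V3) (s : ℝ) (u : V3 → ℝ), 0 < s → ContDiff ℝ 1 u →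
  ∫ x in cube c s, ∫ y in cube c s, (u x - u y) ^ 2 ≤ C * s ^ 5 * ∫ x in cube c s, gr2 u x

def St_SOB : Prop := ∃ C : ℝ, 0 < C ∧
  (∀ u : V3 → ℝ, ContDiff ℝ 1 u → HasCompactSupport u → ∫ x, u x ^ 6 ≤ (C * ∫ x, gr2 u x) ^ 3) ∧
  ∀ (a : Fin 3 → V3 → ℝ) (φ : TF), Sm a → ∫ x, ‖φ.val x‖ ^ 6 ≤ (C * ∫ x, kap a φ.val x) ^ 3

/-- The curl identity tested against a bump. -/
def St_EA : Prop := ∃ C : ℝ, 0 < C ∧ ∀ (a : Fin 3 → V3 → ℝ) (φ : TF) (χ : V3 → ℝ) (c : V3)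
  (S γ r : ℝ) (j : Fin 3), Sm a → Bump χ c S γ → 0 < S → 0 < r →
  (∫ x, χ x ^ 3 * (1 - ((r - ‖φ.val x‖ ^ 2) / (r + ‖φ.val x‖ ^ 2)) ^ 3) * curl a j x) ^ 2 ≤
    C * (γ ^ 2 * S ^ 3 * ((∫ x in cube c S, kap a φ.val x) / r) +
      ((∫ x in cube c S, kap a φ.val x) / r) ^ 2)

/-- The deviation of the density from its mean. -/
def St_EB : Prop := ∃ C : ℝ, 0 < C ∧ ∀ (a : Fin 3 → V3 → ℝ) (φ : TF) (χ : V3 → ℝ) (c : V3)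
  (S γ r : ℝ), Sm a → Bump χ c S γ → 0 < S → 0 < r →
  ∫ x in cube c S, ‖φ.val x‖ ^ 2 = r * S ^ 3 →
  ∫ x, (χ x * ((r - ‖φ.val x‖ ^ 2) / (r + ‖φ.val x‖ ^ 2))) ^ 6 ≤
    (C * (1 + γ ^ 2 * S ^ 2) * ((∫ x in cube c S, kap a φ.val x) / r)) ^ 3

def St_E1 : Prop := ∃ C : ℝ, 0 < C ∧ ∀ (a : Fin 3 → V3 → ℝ) (φ : TF) (χ : V3 → ℝ) (c : V3)
  (S γ lam : ℝ) (j : Fin 3), Sm a → Bump χ c S γ → 0 < S → 0 ≤ lam →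
  0 < ∫ x in cube c S, ‖φ.val x‖ ^ 2 →
  ∫ x in cube c S, kap a φ.val x ≤ lam * ∫ x in cube c S, ‖φ.val x‖ ^ 2 →
  (∫ x, χ x ^ 3 * curl a j x) ^ 2 ≤ C * (γ ^ 2 * S ^ 6 * lam + S ^ 6 * lam ^ 2 +
    ((1 + γ ^ 2 * S ^ 2) * S ^ 3 * lam) ^ 3 * ∫ x in cube c S, curl a j x ^ 2)

open scoped Classical in
def St_E2 : Prop := ∃ C : ℝ, 0 < C ∧ ∀ (a : Fin 3 → V3 → ℝ) (φ : TF) (c : V3) (S lam : ℝ)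
  (M : ℕ), Sm a → 0 < S → 0 < lam → φ ∈ SupS c (M * S) → φ ≠ 0 →
  ∫ x, kap a φ.val x ≤ lam * ‖φ‖ ^ 2 →
  1 ≤ C * lam ^ 3 * (((Finset.univ.filter fun z : Fin 3 → Fin M =>
    0 < ∫ x in cube (pt c S z) S, ‖φ.val x‖ ^ 2 ∧ ∫ x in cube (pt c S z) S, kap a φ.val x ≤
      2 * lam * ∫ x in cube (pt c S z) S, ‖φ.val x‖ ^ 2).card : ℝ) * S ^ 3) ^ 2

def St_PTW : Prop := ∃ C : ℝ, 0 < C ∧ ∀ (J : Type) [Fintype J] (a : Fin 3 → V3 → ℝ) (φ : TF)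
  (c : V3) (M : ℕ) (χ : (Fin 3 → Fin M) → J → V3 → ℝ) (S γ lam β n θ : ℝ), Sm a → 0 < S →
  0 < lam → 0 < β → 0 < n → 0 < θ → φ ∈ SupS c (M * S) →
  (∀ z t, Bump (χ z t) (pt c S z) S γ) → C * lam ^ 3 * (n * S ^ 3) ^ 2 ≤ 1 →
  C * Fintype.card J * (γ ^ 2 * S ^ 6 * lam + S ^ 6 * lam ^ 2 +
    ((1 + γ ^ 2 * S ^ 2) * S ^ 3 * lam) ^ 3 * β / n) ≤ θ →
  n / (4 * θ) * (‖φ‖ ^ 2 - (∫ x, kap a φ.val x) / lam -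
      (∑ i, ∫ x in cube c (M * S), curl a i x ^ 2) * ‖φ‖ ^ 2 / β) ≤
    (∑ z, 1 / (∑ t : J × Fin 3, (∫ x, χ z t.1 x ^ 3 * curl a t.2 x) ^ 2 + θ)) * ‖φ‖ ^ 2

/-! ### The modes -/

def St_BES : Prop := ∀ (L Λ : ℝ) (c : V3) (R : ℝ) (Y : V3 → ℂ), 0 < L → R ≤ L → Continuous Y →
  ∑ z : Kset L Λ, ‖∫ x in cube c R,
      Y x * Complex.exp (Complex.I * (inner ℝ (mom L z) x : ℝ))‖ ^ 2 ≤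
    L ^ 3 * ∫ x in cube c R, ‖Y x‖ ^ 2

def St_CURL : Prop := ∀ (L Λ : ℝ) (ε : V3 → Fin 2 → V3) (c : V3) (R : ℝ) (Y : Fin 3 → V3 → ℝ),
  0 < L → R ≤ L → IsPolarisation ε → (∀ i, Continuous (Y i)) →
  ∑ l : Mode L Λ, (∑ i, ∫ x in cube c R, Y i x * curl (GG ε l) i x) ^ 2 / om l ≤
    2 * ∑ i, ∫ x in cube c R, Y i x ^ 2

def St_LAT : Prop := ∃ C : ℝ, 0 < C ∧ ∀ L Λ : ℝ, 0 < L → 0 < Λ →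
  ∑ z : Kset L Λ, 1 / ‖mom L z‖ ^ 2 ≤ C * Λ * L ^ 3

def St_GB : Prop := ∃ C : ℝ, 0 < C ∧ ∀ (L Λ : ℝ) (ε : V3 → Fin 2 → V3), 0 < L → 0 < Λ →
  IsPolarisation ε → (∀ l : Mode L Λ, 0 < om l ∧ om l ≤ Λ) ∧
  (∀ i x, ∑ l : Mode L Λ, GG ε l i x ^ 2 / om l ≤ C * Λ) ∧
  (∀ i j x, ∑ l : Mode L Λ, pd j (GG ε l i) x ^ 2 / om l ≤ C * Λ ^ 3) ∧
  (∀ i x, ∑ l : Mode L Λ, curl (GG ε l) i x ^ 2 ≤ C * Λ ^ 4) ∧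
  ∀ (α : ℝ) (u : TF), 0 ≤ α →
    ∑ l : Mode L Λ, om l * ∑ i, ‖M1 (gA α ε) i l u‖ ^ 2 ≤ C * α * Λ ^ 3 * ‖u‖ ^ 2

def St_DLO : Prop := ∃ c : ℝ, 0 < c ∧ ∀ Λ : ℝ, 0 < Λ → ∀ᶠ L in atTop,
  ∀ (ε : V3 → Fin 2 → V3) (ψ : V3 → ℝ) (y : V3), IsPolarisation ε → Continuous ψ →
  (∀ x, 0 ≤ ψ x) → (∀ x, ψ x ≠ 0 → ‖x - y‖ ≤ 1 / Λ) →
  c * Λ ^ 5 * (∫ x, ψ x) ^ 2 ≤
    ∑ i, ∑ l : Mode L Λ, om l * (∫ x, ψ x * curl (GG ε l) i x) ^ 2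

def St_TAU : Prop := ∃ (σ γ k d : ℝ) (j : ℕ), 0 < σ ∧ 0 < γ ∧ 0 < k ∧ 8 * k ≤ d ∧
  ∀ (Λ : ℝ) (M : ℕ), 0 < Λ → ∀ᶠ L in atTop, ∀ (ε : V3 → Fin 2 → V3) (c : V3),
  IsPolarisation ε → ∃ χ : (Fin 3 → Fin M) → (Fin 3 → Fin j) → V3 → ℝ,
    (∀ z t, Bump (χ z t) (pt c (σ / Λ) z) (σ / Λ) (γ * Λ)) ∧
    (∀ f : (Fin 3 → Fin M) → (Fin 3 → Fin j) × Fin 3 → ℝ,
      ∑ l : Mode L Λ, om l * (∑ z, ∑ t, f z t * ∫ x, χ z t.1 x ^ 3 * curl (GG ε l) t.2 x) ^ 2 ≤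
        k / Λ * ∑ z, ∑ t, f z t ^ 2) ∧
    ∀ z, d / Λ ≤ ∑ t : (Fin 3 → Fin j) × Fin 3, ∑ l : Mode L Λ,
      om l * (∫ x, χ z t.1 x ^ 3 * curl (GG ε l) t.2 x) ^ 2

def St_BM : Prop := ∃ C : ℝ, 0 < C ∧ ∀ (L Λ : ℝ) (ε : V3 → Fin 2 → V3) (c : V3) (R : ℝ)
  (ρ : (Mode L Λ → ℝ) → ℝ) (δ : Mode L Λ → (Mode L Λ → ℝ) → ℝ), 0 < R → R ≤ L → 0 < Λ →
  IsPolarisation ε → Dens ρ δ →
  PG (fun q : Mode L Λ → ℝ => ∑ i, ∫ x in cube c R, curl (Aq (GG ε) q) i x ^ 2) ∧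
  ∫ q, (∑ i, ∫ x in cube c R, curl (Aq (GG ε) q) i x ^ 2) * ρ q ∂gam (Mode L Λ) ≤
    C * R ^ 3 * Λ ^ 4 * ∫ q, ρ q ∂gam (Mode L Λ) + 8 * Dr om δ

/-- The lower bound on the field energy. -/
def St_LOW : Prop := ∃ σ c C : ℝ, 0 < σ ∧ 0 < c ∧ 0 < C ∧ ∀ (α Λ τ : ℝ) (M : ℕ), 0 < α → 0 < Λ →
  0 < τ → τ ≤ 1 → 0 < M → α * τ ^ 7 * (M ^ 3 + τ ^ 2 * Λ) ≤ 1 → ∀ᶠ L in atTop,
  ∀ (ε : V3 → Fin 2 → V3) (y : V3) (d : ℕ) (p : Fin d → (Mode L Λ → ℝ) → ℂ) (e : Fin d → TF),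
  IsPolarisation ε → (∀ b, C1 (p b)) → (∀ b, e b ∈ SupS y (M * (σ / Λ))) →
  sF om p e + 1 / 2 * sK TF.p (M1 (gA α ε)) p e ≤ τ ^ 2 * Λ ^ 2 * sN p e →
  (c * α * Λ / τ ^ 5 - C * Λ * M ^ 3) * sN p e ≤ sF om p e

/-- A crude upper bound. -/
def St_UP : Prop := ∀ α : ℝ, 0 < α → ∃ C : ℝ, 0 < C ∧ ∀ (x L : ℝ) (ε : V3 → Fin 2 → V3), 1 ≤ x →
  0 < L → IsPolarisation ε → E0 1 α (x ^ 40) L ε ≤ ((C * x ^ 70 : ℝ) : EReal)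

/-! ### Two electrons -/

def St_KIN : Prop := ∀ (d k : ℕ) (h : Matrix (Fin d) (Fin d) ℂ) (z η Γ : ℝ), 0 < d →
  h.PosSemidef → 0 < z → 0 < η → 0 ≤ Γ → CH h Γ → ∃ μ : ℝ, 0 < μ ∧
  (∀ w : Fin d → ℂ, μ * ∑ b, ‖w b‖ ^ 2 ≤ qf h w + z * ∑ b, ‖w b‖ ^ 2) ∧
  tk (RR h z ^ (k + 3)) h + z * fro (RR h z ^ (k + 3)) ≤
    μ * (1 + η + 128 * (1 + Γ * μ) ^ 4 / (1 + η) ^ k) * fro (RR h z ^ (k + 3))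

def St_KSM : Prop := ∀ (I : Type) [Fintype I] [DecidableEq I] (d n : ℕ)
  (h : (I → ℝ) → Matrix (Fin d) (Fin d) ℂ) (z : ℝ), 0 < z → (∀ q, (h q).PosSemidef) →
  (∀ b c, ContDiff ℝ 1 fun q => h q b c) →
  (∀ b c, ContDiff ℝ 1 fun q => (RR (h q) z ^ n) b c) ∧
  ∀ l q b c, dl l (fun q => (RR (h q) z ^ n) b c) q = -(∑ a ∈ Finset.range n,
    RR (h q) z ^ (a + 1) * (Matrix.of fun b c => dl l (fun q => h q b c) q) *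
      RR (h q) z ^ (n - a)) b c

def St_KDB : Prop := ∃ C : ℝ, 0 < C ∧ ∀ (I T : Type) [Fintype I] [SeminormedAddCommGroup T]
  [InnerProductSpace ℂ T] (d n : ℕ) (ν : I → ℝ) (D : Fin 3 → T →ₗ[ℂ] T)
  (M : Fin 3 → I → T →ₗ[ℂ] T) (e : Fin d → T) (a z : ℝ), (∀ l, 0 ≤ ν l) → 0 < z → 0 ≤ a →
  Orthonormal ℂ e → (∀ i l u w, ⟪M i l u, w⟫_ℂ = ⟪u, M i l w⟫_ℂ) →
  (∀ u, ∑ l, ν l * ∑ i, ‖M i l u‖ ^ 2 ≤ a * ‖u‖ ^ 2) →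
  ∑ l, ν l * fro (∑ m ∈ Finset.range n, RR (hM D e) z ^ (m + 1) *
      (Matrix.of fun b c => ∑ i, (⟪M i l (e b), D i (e c)⟫_ℂ + ⟪D i (e b), M i l (e c)⟫_ℂ)) *
      RR (hM D e) z ^ (n - m)) ≤
    C * a * n ^ 2 / z ^ 2 * (tk (RR (hM D e) z ^ n) (hM D e) + z * fro (RR (hM D e) z ^ n))

/-- Elementary facts on the matrices. -/
def St_HM : Prop :=
  (∀ (T : Type) [SeminormedAddCommGroup T] [InnerProductSpace ℂ T] (d : ℕ)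
    (D : Fin 3 → T →ₗ[ℂ] T) (e : Fin d → T), (hM D e).PosSemidef ∧
    ∀ w : Fin d → ℂ, qf (hM D e) w = ∑ i, ‖D i (∑ b, w b • e b)‖ ^ 2) ∧
  ∀ (d n : ℕ) (h : Matrix (Fin d) (Fin d) ℂ) (z : ℝ), 0 < d → h.PosSemidef → 0 < z →
    0 < fro (RR h z ^ n) ∧ 0 ≤ tk (RR h z ^ n) h ∧
    tk (RR h z ^ n) h ≤ h.trace.re * fro (RR h z ^ n)

def St_RR : Prop := ∃ C : ℝ, 0 < C ∧ ∀ (I T : Type) [Fintype I] [DecidableEq I]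
  [SeminormedAddCommGroup T] [InnerProductSpace ℂ T] (d n : ℕ) (ν : I → ℝ)
  (P : Fin 3 → T →ₗ[ℂ] T) (M : Fin 3 → I → T →ₗ[ℂ] T) (e : Fin d → T) (a z : ℝ)
  (h K : (I → ℝ) → Matrix (Fin d) (Fin d) ℂ), (∀ l, 0 < ν l) → 0 < z → 0 ≤ a → 0 < d →
  Orthonormal ℂ e → (∀ i l u w, ⟪M i l u, w⟫_ℂ = ⟪u, M i l w⟫_ℂ) →
  (∀ u, ∑ l, ν l * ∑ i, ‖M i l u‖ ^ 2 ≤ a * ‖u‖ ^ 2) →
  (∀ q, h q = hM (fun i => sD (P i) (M i) q) e) → (∀ q, K q = RR (h q) z ^ n) →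
  (∀ t, C1 fun q => r2 (K q) t) ∧ (PG fun q => tk (K q) (h q) / fro (K q)) ∧
  ∀ q, ∑ l, ν l * ∑ t, ‖dl l (fun q => r2 (K q) t) q‖ ^ 2 ≤
    C * a * n ^ 2 / z ^ 2 * (tk (K q) (h q) / fro (K q) + z)

def St_WED : Prop := ∃ W : TF →ₗ[ℂ] TF →ₗ[ℂ] Tst 2,
  (∀ c s, ∀ u ∈ SupS c s, ∀ v ∈ SupS c s, W u v ∈ SupN 2 c s) ∧
  (∀ u v u' v', ⟪W u v, W u' v'⟫_ℂ = 2 * (⟪u, u'⟫_ℂ * ⟪v, v'⟫_ℂ)) ∧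
  ∀ (I : Type) [Fintype I] (g : I → Fin 3 → V3 → ℝ) (q : I → ℝ) (u v : TF), (∀ l, Sm (g l)) →
    ∑ r, ‖sD (PN 2 r) (MN 2 g r) q (W u v)‖ ^ 2 =
      2 * ((∑ i, ‖sD (TF.p i) (M1 g i) q u‖ ^ 2) * ‖v‖ ^ 2 +
        ‖u‖ ^ 2 * ∑ i, ‖sD (TF.p i) (M1 g i) q v‖ ^ 2)

def St_TRI : Prop := ∀ (I : Type) [Fintype I] [DecidableEq I] (ν : I → ℝ)
  (g : I → Fin 3 → V3 → ℝ) (c : V3) (R E : ℝ) (d : ℕ) (p : Fin d → (I → ℝ) → ℂ)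
  (e : Fin d → TF) (χ : (I → ℝ) → ℝ) (K : (I → ℝ) → Matrix (Fin d) (Fin d) ℂ),
  (∀ l, 0 ≤ ν l) → (∀ l, Sm (g l)) →
  (∀ (p' : Fin d × Fin d → (I → ℝ) → ℂ) (e' : Fin d × Fin d → Tst 2), (∀ b, C1 (p' b)) →
    (∀ b, e' b ∈ SupN 2 c R) → E * sN p' e' ≤ sF ν p' e' + 1 / 2 * sK (PN 2) (MN 2 g) p' e') →
  (∀ b, C1 (p b)) → Orthonormal ℂ e → (∀ b, e b ∈ SupS c R) → C1 χ → (∀ q, 0 < fro (K q)) →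
  (∀ t, C1 fun q => r2 (K q) t) →
  E * ∫ q, χ q ^ 2 * rh p e q ∂gam I ≤ 3 / 2 * ∫ q, χ q ^ 2 * ∑ l, ν l * de p e l q ∂gam I +
    6 * ∫ q, (∑ l, ν l * dl l χ q ^ 2) * rh p e q ∂gam I +
    6 * ∫ q, χ q ^ 2 * rh p e q * ∑ l, ν l * ∑ t, ‖dl l (fun q => r2 (K q) t) q‖ ^ 2 ∂gam I +
    ∫ q, χ q ^ 2 * rh p e q *
      (tk (K q) (hM (fun i => sD (TF.p i) (M1 g i) q) e) / fro (K q)) ∂gam I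

def St_HOL : Prop := ∃ C : ℝ, 0 < C ∧ ∀ (a a' : Fin 3 → V3 → ℝ) (φ : TF) (χ : V3 → ℝ)
  (c c' : V3) (R s γ : ℝ), Sm a → Sm a' → 0 < R → Bump χ c' s γ → (∀ x ∈ cube c R, χ x = 1) →
  φ ∈ SupS c R → ∑ i, ∫ x, a i x ^ 2 * ‖φ.val x‖ ^ 2 ≤
    C * R * (∑ i, ∫ x in cube c' s, gr2 (fun x => χ x * a i x) x) * ∫ x, kap a' φ.val x

def St_CNT : Prop := ∃ C : ℝ, 0 < C ∧ ∀ (k : ℕ) (w : Fin k → TF) (c : V3) (R E : ℝ), 0 < R →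
  0 ≤ E → Orthonormal ℂ w → (∀ a, w a ∈ SupS c R) →
  (∀ f : Fin k → ℂ, ∫ x, kap 0 (∑ a, f a • w a).val x ≤ E * ∑ a, ‖f a‖ ^ 2) →
  (k : ℝ) ≤ 8 * (1 + C * R ^ 2 * E) ^ 2

def St_CHH : Prop := ∃ C : ℝ, 0 < C ∧ ∀ (I : Type) [Fintype I] (g : I → Fin 3 → V3 → ℝ)
  (q : I → ℝ) (d : ℕ) (e : Fin d → TF) (χ : V3 → ℝ) (c c' : V3) (R s γ W : ℝ),
  (∀ l, Sm (g l)) → 0 < R → Bump χ c' s γ → (∀ x ∈ cube c R, χ x = 1) → Orthonormal ℂ e →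
  (∀ b, e b ∈ SupS c R) → W = ∑ i, ∫ x in cube c' s, gr2 (fun x => χ x * Aq g q i x) x →
  CH (hM (fun i => sD (TF.p i) (M1 g i) q) e) (C * R ^ 2 * (1 + R * W)) ∧
  ∀ φ ∈ SupS c R, ∫ x, kap (Aq g q) φ.val x ≤ C * (1 + R * W) * ∫ x, kap 0 φ.val x

def St_WQ : Prop := ∃ C : ℝ, 0 < C ∧ ∀ (L Λ α : ℝ) (ε : V3 → Fin 2 → V3) (χ : V3 → ℝ) (c : V3)
  (s γ κ : ℝ) (W : (Mode L Λ → ℝ) → ℝ), 0 < L → 0 < Λ → 0 ≤ α → 0 < s → IsPolarisation ε →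
  Bump χ c s γ → κ = C * α * s ^ 3 * (γ ^ 2 * Λ + Λ ^ 3) →
  (∀ q, W q = ∑ i, ∫ x in cube c s, gr2 (fun x => χ x * Aq (gA α ε) q i x) x) →
  C1 W ∧ (∀ q, 0 ≤ W q) ∧ (∀ q, ∑ l, om l * dl l W q ^ 2 ≤ Λ ^ 2 * κ * W q) ∧
  ∀ ρ δ, Dens ρ δ →
    ∫ q, W q * ρ q ∂gam (Mode L Λ) ≤ κ * (Λ * ∫ q, ρ q ∂gam (Mode L Λ) + Dr om δ)

/-- The cut-off in Gaussian space. -/
def St_CUT : Prop := ∀ (I : Type) [Fintype I] [DecidableEq I] (ν : I → ℝ) (W : (I → ℝ) → ℝ)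
  (X κ : ℝ), (∀ l, 0 ≤ ν l) → 0 < X → 0 ≤ κ → C1 W → (∀ q, 0 ≤ W q) →
  (∀ q, ∑ l, ν l * dl l W q ^ 2 ≤ κ * W q) →
  C1 (fun q => 1 / (1 + W q / X) ^ 5) ∧
  (∀ q, ∑ l, ν l * dl l (fun q => 1 / (1 + W q / X) ^ 5) q ^ 2 ≤ 25 * κ / X) ∧
  ∀ q, 1 - 10 * W q / X ≤ (1 / (1 + W q / X) ^ 5) ^ 2

/-- Two electrons share the state of the field. -/
def St_BO : Prop := ∃ C : ℝ, 0 < C ∧ ∀ (L Λ α : ℝ) (ε : V3 → Fin 2 → V3) (c : V3)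
  (R z η X E κ m : ℝ) (k d : ℕ) (p : Fin d → (Mode L Λ → ℝ) → ℂ) (e : Fin d → TF), 0 < L →
  0 < Λ → 0 < α → IsPolarisation ε → 1 ≤ R * Λ → 0 < z → 0 < η → η ≤ 1 → 0 < X → 0 ≤ E + z →
  (∀ u : SS L Λ 2, (∀ n, u.val n ∈ SupN 2 c R) → E * ‖u‖ ^ 2 ≤ energy α ε u) →
  (∀ b, C1 (p b)) → (∀ b, e b ∈ SupS c R) → κ = C * α * R ^ 3 * Λ ^ 3 →
  m = z + C * (1 + R * X) / R ^ 2 →
  (E + z) * (sN p e - κ * (Λ * sN p e + sF om p e) / X) ≤ 3 / 2 * sF om p e +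
    Λ ^ 2 * κ / X * sN p e + (1 + C * α * Λ ^ 3 * (k + 3) ^ 2 / z ^ 2) *
      ((1 + η) * (sK TF.p (M1 (gA α ε)) p e + z * sN p e) +
        C * m * (1 + C * R ^ 2 * (1 + R * X) * m) ^ 4 / (1 + η) ^ k * sN p e)

/-- A localised state of almost minimal energy. -/
def St_NEAR : Prop := ∃ C : ℝ, 0 < C ∧ ∀ (L Λ α E R : ℝ) (ε : V3 → Fin 2 → V3), 0 < L → 0 < R →
  IsPolarisation ε → E0 1 α Λ L ε < (E : EReal) → ∃ (c : V3) (d : ℕ)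
    (p : Fin d → (Mode L Λ → ℝ) → ℂ) (e : Fin d → TF), (∀ b, C1 (p b)) ∧ (∀ b, e b ∈ SupS c R) ∧
    0 < sN p e ∧ 0 ≤ sF om p e ∧ 0 ≤ sK TF.p (M1 (gA α ε)) p e ∧
    sF om p e + 1 / 2 * sK TF.p (M1 (gA α ε)) p e < (E + C / R ^ 2) * sN p e

/-! ### The results -/

def St_A : Prop := ∃ c : ℝ, 0 < c ∧ ∀ α : ℝ, 0 < α → ∃ Λ₀ : ℝ, 0 < Λ₀ ∧ ∀ Λ : ℝ, Λ₀ ≤ Λ →
  ∀ᶠ L in atTop, ∀ ε : V3 → Fin 2 → V3, IsPolarisation ε →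
    ((c * α ^ (2 / 7 : ℝ) * Λ ^ (12 / 7 : ℝ) : ℝ) : EReal) ≤ E0 1 α Λ L ε

/-- Binding of two electrons, with a localised state. -/
def St_B : Prop := ∀ α : ℝ, 0 < α → ∃ Λ₀ : ℝ, 0 < Λ₀ ∧ ∀ Λ : ℝ, Λ₀ ≤ Λ → ∃ R : ℝ, 0 < R ∧
  ∀ᶠ L in atTop, ∀ (ε : V3 → Fin 2 → V3) (E : ℝ), IsPolarisation ε →
    E0 1 α Λ L ε < (E : EReal) → ∃ (c : V3) (u : SS L Λ 2), (∀ n, u.val n ∈ SupN 2 c R) ∧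
      energy α ε u < (2 * E - Λ ^ (8 / 5 : ℝ)) * ‖u‖ ^ 2

end Pool.Agent.Lib.LL
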