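import Pool.Agent.Lib.MP_791321_mp.Main

/-! Project ll90: definitions. -/

open scoped ComplexConjugate InnerProductSpace ContDiff Matrix
open MeasureTheory

noncomputable section

namespace Pool.Agent.Lib.LL

open Pool.Agent.Lib.MP_791321_mp

/-! ### Gaussian space -/

section Gauss

variable {I : Type} [Fintype I] {F : Type} [NormedAddCommGroup F]

def gw (q : I → ℝ) : ℝ := Real.exp (-(∑ l, q l ^ 2) / 2)

/-- The standard Gaussian measure. -/
def gam (I : Type) [Fintype I] : Measure (I → ℝ) :=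
  volume.withDensity fun q => ENNReal.ofReal (gw q / ∫ q : I → ℝ, gw q)

/-- Continuous and of polynomial growth. -/
def PG (f : (I → ℝ) → F) : Prop :=
  Continuous f ∧ ∃ (C : ℝ) (k : ℕ), ∀ q, ‖f q‖ ≤ C * (1 + ‖q‖) ^ k

variable [DecidableEq I] [NormedSpace ℝ F]

/-- Derivative in the direction `l`. -/
def dl (l : I) (f : (I → ℝ) → F) (q : I → ℝ) : F := fderiv ℝ f q (Pi.single l 1)

def C1 (f : (I → ℝ) → F) : Prop := Differentiable ℝ f ∧ PG f ∧ ∀ l, PG (dl l f)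

/-- A density and the squared lengths of the derivatives of the state. -/
structure Dens (ρ : (I → ℝ) → ℝ) (δ : I → (I → ℝ) → ℝ) : Prop where
  c1 : C1 ρ
  pg : ∀ l, PG (δ l)
  nn : ∀ q, 0 ≤ ρ q
  nd : ∀ l q, 0 ≤ δ l q
  cs : ∀ l q, dl l ρ q ^ 2 ≤ 4 * ρ q * δ l q

/-- The field energy. -/
def Dr (ν : I → ℝ) (δ : I → (I → ℝ) → ℝ) : ℝ := ∑ l, ν l * ∫ q, δ l q ∂gam I

end Gauss

/-! ### The abstract model in Fock space and in Gaussian space -/

section Model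

variable {I : Type} [Fintype I] [DecidableEq I] {T : Type} [SeminormedAddCommGroup T]
  [InnerProductSpace ℂ T] {J : Type} [Fintype J] {B : Type} [Fintype B]

def fD (v : I → EuclideanSpace ℂ I) (P : T →ₗ[ℂ] T) (M : I → T →ₗ[ℂ] T) (u : Fk I T) : Fk I T :=
  Fk.lift P u + ∑ l, Fk.lift (M l) (Fk.ccr.An (v l) u + Fk.ccr.Cr (v l) u)

def fE (ν : I → ℝ) (v : I → EuclideanSpace ℂ I) (P : J → T →ₗ[ℂ] T) (M : J → I → T →ₗ[ℂ] T)
    (u : Fk I T) : ℝ :=
  ∑ l, ν l * ‖Fk.ccr.An (v l) u‖ ^ 2 + 1 / 2 * ∑ j, ‖fD v (P j) (M j) u‖ ^ 2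

def vc (p : B → (I → ℝ) → ℂ) (e : B → T) (q : I → ℝ) : T := ∑ b, p b q • e b

def sD (P : T →ₗ[ℂ] T) (M : I → T →ₗ[ℂ] T) (q : I → ℝ) : T →ₗ[ℂ] T :=
  P + ∑ l, (q l : ℂ) • M l

def rh (p : B → (I → ℝ) → ℂ) (e : B → T) (q : I → ℝ) : ℝ := ‖vc p e q‖ ^ 2

def de (p : B → (I → ℝ) → ℂ) (e : B → T) (l : I) (q : I → ℝ) : ℝ :=
  ‖vc (fun b => dl l (p b)) e q‖ ^ 2

def ke (P : J → T →ₗ[ℂ] T) (M : J → I → T →ₗ[ℂ] T) (p : B → (I → ℝ) → ℂ) (e : B → T)
    (q : I → ℝ) : ℝ := ∑ j, ‖sD (P j) (M j) q (vc p e q)‖ ^ 2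

def sN (p : B → (I → ℝ) → ℂ) (e : B → T) : ℝ := ∫ q, rh p e q ∂gam I

def sF (ν : I → ℝ) (p : B → (I → ℝ) → ℂ) (e : B → T) : ℝ := Dr ν (de p e)

def sK (P : J → T →ₗ[ℂ] T) (M : J → I → T →ₗ[ℂ] T) (p : B → (I → ℝ) → ℂ) (e : B → T) : ℝ :=
  ∫ q, ke P M p e q ∂gam I

def Jh (h : (I → ℕ) → (I → ℝ) → ℂ) (u : Fk I T) (q : I → ℝ) : T :=
  ∑ n ∈ u.fin.toFinset, h n q • u.val n

/-- The images of the occupation basis in Gaussian space. -/
structure Sch (v : I → EuclideanSpace ℂ I) (h : (I → ℕ) → (I → ℝ) → ℂ) : Prop where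
  c1 : ∀ n, C1 (h n)
  on : ∀ n n', ∫ q, conj (h n q) * h n' q ∂gam I = if n = n' then 1 else 0
  vac : ∀ q, h 0 q = 1
  an : ∀ l (u : Fk I ℂ) q, Jh h (Fk.ccr.An (v l) u) q = dl l (Jh h u) q
  cr : ∀ l (u : Fk I ℂ) q, Jh h (Fk.ccr.An (v l) u + Fk.ccr.Cr (v l) u) q = q l * Jh h u q

omit [DecidableEq I] in
theorem deg_fin (m : ℕ) : {n : I → ℕ | ∑ l, n l ≤ m}.Finite :=
  (Set.Finite.pi' fun _ : I => Set.finite_Iic m).subset fun n hn l =>
    (Finset.single_le_sum (f := n) (fun _ _ => Nat.zero_le _) (Finset.mem_univ l)).trans hn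

/-- The coefficients of degree at most `m`. -/
def tr (h : (I → ℕ) → (I → ℝ) → ℂ) (m : ℕ) (c : (I → ℝ) → ℂ) : Fk I ℂ :=
  Fk.mk (fun n => if ∑ l, n l ≤ m then ∫ q, conj (h n q) * c q ∂gam I else 0)
    ((deg_fin m).subset fun n hn => by
      by_contra hc
      exact hn (if_neg hc))

end Model

/-! ### Test functions of one spinless particle -/

def TFs : Submodule ℂ (V3 → ℂ) where
  carrier := {φ | ContDiff ℝ ∞ φ ∧ HasCompactSupport φ}
  add_mem' hu hv := ⟨hu.1.add hv.1, hu.2.add hv.2⟩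
  zero_mem' := ⟨contDiff_const, HasCompactSupport.zero⟩
  smul_mem' c _ hu := ⟨hu.1.const_smul c, hu.2.smul_left (f := fun _ => c)⟩

def TF : Type := ↥TFs

def ei (i : Fin 3) : V3 := EuclideanSpace.single i 1

def pd {F : Type} [NormedAddCommGroup F] [NormedSpace ℝ F] (i : Fin 3) (u : V3 → F) (x : V3) : F :=
  fderiv ℝ u x (ei i)

namespace TF

instance : AddCommGroup TF := inferInstanceAs (AddCommGroup ↥TFs)
instance : Module ℂ TF := inferInstanceAs (Module ℂ ↥TFs)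

def val (u : TF) : V3 → ℂ := (show ↥TFs from u).1
def mk (u : V3 → ℂ) (h : ContDiff ℝ ∞ u ∧ HasCompactSupport u) : TF := (⟨u, h⟩ : ↥TFs)

@[simp] lemma val_mk (u : V3 → ℂ) (h : ContDiff ℝ ∞ u ∧ HasCompactSupport u) :
    (mk u h).val = u := rfl
lemma smooth (u : TF) : ContDiff ℝ ∞ u.val := (show ↥TFs from u).2.1
lemma cpt (u : TF) : HasCompactSupport u.val := (show ↥TFs from u).2.2
lemma cont (u : TF) : Continuous u.val := u.smooth.continuous
lemma diff (u : TF) : Differentiable ℝ u.val := u.smooth.differentiable (by simp)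
@[ext] lemma ext {u v : TF} (h : ∀ x, u.val x = v.val x) : u = v := Subtype.ext (funext h)
@[simp] lemma val_add (u v : TF) : (u + v).val = u.val + v.val := rfl
@[simp] lemma val_smul (c : ℂ) (u : TF) : (c • u).val = c • u.val := rfl
@[simp] lemma val_zero : (0 : TF).val = 0 := rfl
@[simp] lemma val_sum {J : Type*} (s : Finset J) (u : J → TF) :
    (∑ j ∈ s, u j).val = ∑ j ∈ s, (u j).val := by
  classical
  induction s using Finset.induction_on with
  | empty => simp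
  | insert a s ha ih => simp [Finset.sum_insert ha, ih]

lemma integrable_inner (u v : TF) : Integrable fun x => conj (u.val x) * v.val x :=
  Continuous.integrable_of_hasCompactSupport
    ((Complex.continuous_conj.comp u.cont).mul v.cont) v.cpt.mul_left

lemma integrable_normSq (u : TF) : Integrable fun x => ‖u.val x‖ ^ 2 :=
  Continuous.integrable_of_hasCompactSupport (u.cont.norm.pow 2)
    (u.cpt.comp_left (g := fun z : ℂ => ‖z‖ ^ 2) (by simp))

lemma integral_self (u : TF) :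
    ∫ x, conj (u.val x) * u.val x = ((∫ x, ‖u.val x‖ ^ 2 : ℝ) : ℂ) := by
  rw [← integral_complex_ofReal]
  simp [Complex.conj_mul']

@[reducible] def core : InnerProductSpace.Core ℂ TF where
  inner u v := ∫ x, conj (u.val x) * v.val x
  conj_inner_symm u v := by
    simp only [← integral_conj, map_mul, Complex.conj_conj, mul_comm]
  re_inner_nonneg u := by
    simp only [integral_self, RCLike.re_to_complex, Complex.ofReal_re]
    exact integral_nonneg fun x => sq_nonneg _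
  add_left u v w := by
    rw [← integral_add (integrable_inner u w) (integrable_inner v w)]
    simp [add_mul]
  smul_left u v r := by
    rw [← integral_const_mul]
    simp [mul_assoc]
  definite u h := by
    by_contra h0
    obtain ⟨x, hx⟩ : ∃ x, u.val x ≠ 0 := by
      by_contra hc
      exact h0 (ext fun x => by simpa using not_exists.1 hc x)
    have h1 : 0 < ∫ x, ‖u.val x‖ ^ 2 :=
      Continuous.integral_pos_of_hasCompactSupport_nonneg_nonzero (x := x) (u.cont.norm.pow 2)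
        (u.cpt.comp_left (g := fun z : ℂ => ‖z‖ ^ 2) (by simp)) (fun x => sq_nonneg _)
        (by simpa using hx)
    have h2 : ((∫ x, ‖u.val x‖ ^ 2 : ℝ) : ℂ) = 0 := (integral_self u).symm.trans h
    exact h1.ne' (Complex.ofReal_eq_zero.1 h2)

instance : NormedAddCommGroup TF :=
  letI := core
  InnerProductSpace.Core.toNormedAddCommGroup (𝕜 := ℂ)

instance : InnerProductSpace ℂ TF := InnerProductSpace.ofCore core.toCore

lemma inner_def (u v : TF) : ⟪u, v⟫_ℂ = ∫ x, conj (u.val x) * v.val x := rfl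

lemma norm_sq_eq (u : TF) : ‖u‖ ^ 2 = ∫ x, ‖u.val x‖ ^ 2 := by
  have h := inner_def u u
  simp only [inner_self_eq_norm_sq_to_K, integral_self] at h
  apply Complex.ofReal_injective
  push_cast
  exact h

/-- momentum -/
def p (i : Fin 3) : TF →ₗ[ℂ] TF where
  toFun u := mk (fun x => -Complex.I * pd i u.val x)
    ⟨contDiff_const.mul ((u.smooth.fderiv_right (m := ∞) (by simp)).clm_apply contDiff_const),
      (u.cpt.fderiv_apply ℝ (ei i)).mul_left⟩
  map_add' u w := by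
    ext x
    simp only [val_mk, val_add, Pi.add_apply, pd]
    rw [fderiv_add (u.diff x) (w.diff x)]
    simp [mul_add]
  map_smul' c u := by
    ext x
    simp only [val_mk, val_smul, Pi.smul_apply, RingHom.id_apply, smul_eq_mul, pd]
    rw [fderiv_const_smul (u.diff x)]
    simp; ring

lemma val_p (i : Fin 3) (u : TF) (x : V3) : (p i u).val x = -Complex.I * pd i u.val x := rfl

open scoped Classical in
/-- multiplication by a smooth real function -/
def mul (f : V3 → ℝ) : TF →ₗ[ℂ] TF :=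
  if hf : ContDiff ℝ ∞ f then
    { toFun := fun u => mk (fun x => (f x : ℂ) * u.val x)
        ⟨(Complex.ofRealCLM.contDiff.comp hf).mul u.smooth, u.cpt.mul_left⟩
      map_add' := fun u w => by ext x; simp [mul_add]
      map_smul' := fun c u => by ext x; simp; ring }
  else 0

lemma val_mul {f : V3 → ℝ} (hf : ContDiff ℝ ∞ f) (u : TF) (x : V3) :
    (mul f u).val x = (f x : ℂ) * u.val x := by
  rw [mul, dif_pos hf]; rfl

end TF

/-! ### Cubes, bumps, magnetic energy density -/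

def gr2 (u : V3 → ℝ) (x : V3) : ℝ := ∑ i, pd i u x ^ 2

def curl (a : Fin 3 → V3 → ℝ) (j : Fin 3) (x : V3) : ℝ :=
  pd (j + 1) (a (j + 2)) x - pd (j + 2) (a (j + 1)) x

def kap (a : Fin 3 → V3 → ℝ) (φ : V3 → ℂ) (x : V3) : ℝ :=
  ∑ i, ‖-Complex.I * pd i φ x + (a i x : ℂ) * φ x‖ ^ 2

def Sm (a : Fin 3 → V3 → ℝ) : Prop := ∀ i, ContDiff ℝ ∞ (a i)

def cube (c : V3) (s : ℝ) : Set V3 := {x | ∀ i, c i ≤ x i ∧ x i < c i + s}

/-- The point `c + (t, t, t)`. -/
def sh (c : V3) (t : ℝ) : V3 := WithLp.toLp 2 fun i => c i + t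

/-- The corner of the cell `z`. -/
def pt (c : V3) (s : ℝ) {M : ℕ} (z : Fin 3 → Fin M) : V3 :=
  WithLp.toLp 2 fun i => c i + s * ((z i : ℕ) : ℝ)

structure Bump (χ : V3 → ℝ) (c : V3) (s γ : ℝ) : Prop where
  sm : ContDiff ℝ ∞ χ
  nn : ∀ x, 0 ≤ χ x
  le : ∀ x, χ x ≤ 1
  su : ∀ x, χ x ≠ 0 → x ∈ cube c s
  gr : ∀ x, gr2 χ x ≤ γ ^ 2

def SupS (c : V3) (s : ℝ) : Submodule ℂ TF where
  carrier := {φ | ∀ x, φ.val x ≠ 0 → x ∈ cube c s}
  add_mem' {u v} hu hv x hx := by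
    by_cases h : u.val x = 0
    · exact hv x fun h' => hx (by simp [h, h'])
    · exact hu x h
  zero_mem' x hx := absurd rfl hx
  smul_mem' a u hu x hx := hu x fun h => hx (by simp [h])

/-- Antisymmetric test functions with all particles in a cube. -/
def SupN (N : ℕ) (c : V3) (s : ℝ) : Submodule ℂ (Tst N) where
  carrier := {φ | Anti φ ∧ ∀ σ x, φ.val σ x ≠ 0 → ∀ j, x j ∈ cube c s}
  add_mem' {u v} hu hv := ⟨fun π σ x => by simp [hu.1 π σ x, hv.1 π σ x, mul_add], fun σ x hx => by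
    by_cases h : u.val σ x = 0
    · exact hv.2 σ x fun h' => hx (by simp [h, h'])
    · exact hu.2 σ x h⟩
  zero_mem' := ⟨fun π σ x => by simp, fun σ x hx => absurd rfl hx⟩
  smul_mem' a u hu := ⟨fun π σ x => by simp [hu.1 π σ x, mul_left_comm],
    fun σ x hx => hu.2 σ x fun h => hx (by simp [h])⟩

/-! ### Real modes -/

section Modes

variable {I : Type} [Fintype I] {N : ℕ} {L Λ : ℝ}

/-- The classical vector potential. -/
def Aq (g : I → Fin 3 → V3 → ℝ) (q : I → ℝ) (i : Fin 3) (x : V3) : ℝ := ∑ l, q l * g l i x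

def M1 (g : I → Fin 3 → V3 → ℝ) (i : Fin 3) (l : I) : TF →ₗ[ℂ] TF := TF.mul (g l i)

open scoped Classical in
def mulN (f : V3 → ℝ) (j : Fin N) : Tst N →ₗ[ℂ] Tst N :=
  if hf : ContDiff ℝ ∞ f then
    Tst.mul (fun x => (f (x j) : ℂ))
      (Complex.ofRealCLM.contDiff.comp (hf.comp (contDiff_apply ℝ V3 j)))
  else 0

lemma val_mulN {f : V3 → ℝ} (hf : ContDiff ℝ ∞ f) (j : Fin N) (u : Tst N) (σ : Fin N → Fin 2)
    (x : Fin N → V3) : (mulN f j u).val σ x = (f (x j) : ℂ) * u.val σ x := by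
  rw [mulN, dif_pos hf]; rfl

def PN (N : ℕ) (r : Fin N × Fin 3) : Tst N →ₗ[ℂ] Tst N := Tst.p (dir r.1 r.2)

def MN (N : ℕ) (g : I → Fin 3 → V3 → ℝ) (r : Fin N × Fin 3) (l : I) : Tst N →ₗ[ℂ] Tst N :=
  mulN (g l r.2) r.1

def om (l : Mode L Λ) : ℝ := ‖kk l‖

def GG (ε : V3 → Fin 2 → V3) (l : Mode L Λ) (i : Fin 3) (x : V3) : ℝ :=
  wt ε i l * (Real.cos (inner ℝ (kk l) x) + Real.sin (inner ℝ (kk l) x))

def gA (α : ℝ) (ε : V3 → Fin 2 → V3) (l : Mode L Λ) (i : Fin 3) (x : V3) : ℝ :=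
  √α * GG ε l i x

lemma GG_sm (ε : V3 → Fin 2 → V3) (l : Mode L Λ) : Sm (GG ε l) := fun _ =>
  contDiff_const.mul (((innerSL ℝ (kk l)).contDiff.cos).add ((innerSL ℝ (kk l)).contDiff.sin))

lemma gA_sm (α : ℝ) (ε : V3 → Fin 2 → V3) (l : Mode L Λ) : Sm (gA α ε l) := fun i =>
  contDiff_const.mul (GG_sm ε l i)

lemma Aq_sm {g : I → Fin 3 → V3 → ℝ} (hg : ∀ l, Sm (g l)) (q : I → ℝ) : Sm (Aq g q) := fun i =>
  ContDiff.sum fun l _ => contDiff_const.mul (hg l i)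

end Modes

/-! ### Matrices -/

section Mat

variable {d : ℕ} {T : Type} [SeminormedAddCommGroup T] [InnerProductSpace ℂ T]

def hM (D : Fin 3 → T →ₗ[ℂ] T) (e : Fin d → T) : Matrix (Fin d) (Fin d) ℂ :=
  fun b c => ∑ i, ⟪D i (e b), D i (e c)⟫_ℂ

def RR (h : Matrix (Fin d) (Fin d) ℂ) (z : ℝ) : Matrix (Fin d) (Fin d) ℂ := (h + (z : ℂ) • 1)⁻¹

def fro (K : Matrix (Fin d) (Fin d) ℂ) : ℝ := ∑ b, ∑ c, ‖K b c‖ ^ 2

def qf (h : Matrix (Fin d) (Fin d) ℂ) (w : Fin d → ℂ) : ℝ := (star w ⬝ᵥ h *ᵥ w).re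

def tk (K h : Matrix (Fin d) (Fin d) ℂ) : ℝ := ∑ c, qf h fun b => K b c

/-- The counting hypothesis. -/
def CH (h : Matrix (Fin d) (Fin d) ℂ) (Γ : ℝ) : Prop :=
  ∀ (k : ℕ) (w : Fin k → Fin d → ℂ) (E : ℝ), 0 ≤ E →
    (∀ a a', star (w a) ⬝ᵥ w a' = if a = a' then 1 else 0) →
    (∀ cf : Fin k → ℂ, qf h (∑ a, cf a • w a) ≤ E * ∑ a, ‖cf a‖ ^ 2) →
    (k : ℝ) ≤ 8 * (1 + Γ * E) ^ 2

/-- The normalised tensor square. -/
def r2 (K : Matrix (Fin d) (Fin d) ℂ) (t : (Fin d × Fin d) × Fin d × Fin d) : ℂ :=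
  K t.1.1 t.2.1 * K t.1.2 t.2.2 / (fro K : ℂ)

end Mat

end Pool.Agent.Lib.LL
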