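import Mathlib

/-! The matrix inequality behind the squeezed trial state. -/

open Matrix

namespace Pool.Agent.Lib.LL.T47

variable {I : Type} [Fintype I] [DecidableEq I]

theorem diag_form {A : Matrix I I ℝ} (hA : A.IsHermitian) :
    ∃ (V : Matrix I I ℝ) (σ : I → ℝ), Vᵀ * V = 1 ∧ V * Vᵀ = 1 ∧ A = V * diagonal σ * Vᵀ := by
  refine ⟨(hA.eigenvectorUnitary : Matrix I I ℝ), hA.eigenvalues, ?_, ?_, ?_⟩
  · have := Unitary.coe_star_mul_self hA.eigenvectorUnitary
    rwa [star_eq_conjTranspose, conjTranspose_eq_transpose_of_trivial] at this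
  · have := Unitary.coe_mul_star_self hA.eigenvectorUnitary
    rwa [Unitary.coe_star, star_eq_conjTranspose, conjTranspose_eq_transpose_of_trivial] at this
  · have := hA.spectral_theorem
    rw [Unitary.conjStarAlgAut_apply, star_eq_conjTranspose,
      conjTranspose_eq_transpose_of_trivial] at this
    simpa using this

omit [DecidableEq I] in
theorem psd_conj {A : Matrix I I ℝ} (hA : A.PosSemidef) (B : Matrix I I ℝ) :
    (Bᵀ * A * B).PosSemidef := by
  simpa [conjTranspose_eq_transpose_of_trivial] using hA.conjTranspose_mul_mul_same B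

omit [DecidableEq I] [Fintype I] in
theorem psd_tr {A : Matrix I I ℝ} (hA : A.PosSemidef) : Aᵀ = A := by
  have := hA.1
  rwa [IsHermitian, conjTranspose_eq_transpose_of_trivial] at this

theorem trace_conj (V M : Matrix I I ℝ) (σ : I → ℝ) :
    (V * diagonal σ * Vᵀ * M).trace = ∑ r, σ r * (Vᵀ * M * V) r r := by
  rw [Matrix.mul_assoc, Matrix.mul_assoc, trace_mul_comm, Matrix.mul_assoc]
  simp [trace, diagonal_mul]

theorem trace_mul_nonneg {M N : Matrix I I ℝ} (hM : M.PosSemidef) (hN : N.PosSemidef) :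
    0 ≤ (M * N).trace := by
  obtain ⟨V, σ, h1, -, h3⟩ := diag_form hM.1
  have h4 : diagonal σ = Vᵀ * M * V := by
    rw [h3]
    calc diagonal σ = (Vᵀ * V) * diagonal σ * (Vᵀ * V) := by simp [h1]
      _ = _ := by simp only [Matrix.mul_assoc]
  have h5 : ∀ r, 0 ≤ σ r := posSemidef_diagonal_iff.1 (h4 ▸ psd_conj hM V)
  rw [h3, trace_conj]
  exact Finset.sum_nonneg fun r _ => mul_nonneg (h5 r) (psd_conj hN V).diag_nonneg

theorem trace_mono {M M' N : Matrix I I ℝ} (hM : (M' - M).PosSemidef) (hN : N.PosSemidef) :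
    (M * N).trace ≤ (M' * N).trace := by
  have := trace_mul_nonneg hM hN
  rw [Matrix.sub_mul, trace_sub] at this
  linarith

theorem ineq_a {G N T : Matrix I I ℝ} (hG : G.PosSemidef) (hN : N.PosSemidef) (hT : Tᵀ = T)
    (h : (G + N) * T = 1) : (G - G * T * G).PosSemidef := by
  have e : G - G * T * G = (1 - T * G)ᵀ * G * (1 - T * G) + (T * G)ᵀ * N * (T * G) := by
    have h' : G * T * ((G + N) * T) * G = G * T * G := by rw [h, Matrix.mul_one]
    rw [transpose_sub, transpose_one, transpose_mul, hT, psd_tr hG, ← sub_eq_zero]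
    calc _ = G * T * G - G * T * ((G + N) * T) * G := by noncomm_ring
      _ = 0 := by rw [h', sub_self]
  rw [e]
  exact (psd_conj hG _).add (psd_conj hN _)

theorem ineq_b {G R R' T : Matrix I I ℝ} (hG : G.PosSemidef) (hR : R.PosSemidef) (hT : Tᵀ = T)
    (hR' : R'ᵀ = R') (h1 : R * R' = 1) (h2 : R' * R = 1) (h : (G + R) * T = 1) :
    (R' - T).PosSemidef := by
  have e : R' - T = (R' - T)ᵀ * R * (R' - T) + Tᵀ * G * T := by
    rw [transpose_sub, hT, hR', ← sub_eq_zero]
    calc _ = R' - T - (R' * R) * R' + (R' * R) * T + T * (R * R') - T * ((G + R) * T) := by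
          noncomm_ring
      _ = 0 := by rw [h1, h2, h]; noncomm_ring
  rw [e]
  exact (psd_conj hR _).add (psd_conj hG _)

theorem mat (ω : I → ℝ) (h0 : ∀ m, 0 < ω m) (Λ η : ℝ) (hL : ∀ m, ω m ≤ Λ) (hη : 0 < η)
    (A1 A2 P : Matrix I I ℝ) (h1 : A1.PosSemidef) (h2 : (A2 - A1 * A1).PosSemidef)
    (hP : P.IsSymm) (hPP : P * P = P) :
    ∃ (v : I → I → ℝ) (σ : I → ℝ),
      (∀ r r', ∑ m, v r m * v r' m = if r = r' then 1 else 0) ∧
      (∀ m m', ∑ r, v r m * v r m' = if m = m' then 1 else 0) ∧ (∀ r, 1 ≤ σ r) ∧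
      ∑ r, (σ r - 1) * (∑ m, ω m * v r m ^ 2) +
          ∑ r, (σ r)⁻¹ * (∑ m, ∑ m', v r m * (A2 m m' / (√(ω m) * √(ω m'))) * v r m') ≤
        2 * A1.trace + η * Λ * P.trace +
          ((1 - P) * of fun m m' => A2 m m' / (√(ω m) * √(ω m'))).trace +
          (∑ m, (A2 - A1 * A1) m m / ω m) / η := by
  have hs : ∀ m, 0 < √(ω m) := fun m => Real.sqrt_pos.2 (h0 m)
  obtain ⟨D, hD⟩ : ∃ D : Matrix I I ℝ, D = diagonal fun m => (√(ω m))⁻¹ := ⟨_, rfl⟩
  obtain ⟨K, hK⟩ : ∃ K : Matrix I I ℝ, K = diagonal ω := ⟨_, rfl⟩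
  have hDt : Dᵀ = D := by rw [hD, diagonal_transpose]
  have hsq : ∀ m, (√(ω m))⁻¹ * ω m * (√(ω m))⁻¹ = 1 := fun m => by
    have := Real.mul_self_sqrt (h0 m).le
    have := (hs m).ne'
    field_simp
    nlinarith
  have hDKD : D * K * D = 1 := by
    rw [hD, hK, diagonal_mul_diagonal, diagonal_mul_diagonal, ← diagonal_one]
    exact congrArg _ (funext hsq)
  have hKp : K.PosSemidef := hK ▸ PosSemidef.diagonal fun m => (h0 m).le
  have hPt : Pᵀ = P := hP
  have hPp : P.PosSemidef := by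
    have := psd_conj (PosSemidef.one (n := I) (R := ℝ)) P
    rwa [hPt, Matrix.mul_one, hPP] at this
  have hQp : (1 - P).PosSemidef := by
    have := psd_conj (PosSemidef.one (n := I) (R := ℝ)) (1 - P)
    rwa [transpose_sub, transpose_one, hPt, Matrix.mul_one, Matrix.sub_mul, Matrix.one_mul,
      Matrix.mul_sub P, Matrix.mul_one, hPP, sub_self, sub_zero] at this
  obtain ⟨G, hG⟩ : ∃ G, G = D * A1 * D := ⟨_, rfl⟩
  obtain ⟨B, hB⟩ : ∃ B, B = D * (A2 - A1 * A1) * D := ⟨_, rfl⟩
  obtain ⟨R, hR⟩ : ∃ R : Matrix I I ℝ, R = 1 + η • P := ⟨_, rfl⟩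
  have hGp : G.PosSemidef := by have := psd_conj h1 D; rwa [hDt, ← hG] at this
  have hBp : B.PosSemidef := by have := psd_conj h2 D; rwa [hDt, ← hB] at this
  have hηP : (η • P).PosSemidef := hPp.smul hη.le
  have hRp : R.PosSemidef := hR ▸ PosSemidef.one.add hηP
  have hGKG : (G * K * G).PosSemidef := by have := psd_conj hKp G; rwa [psd_tr hGp] at this
  have hB2 : (of fun m m' => A2 m m' / (√(ω m) * √(ω m'))) = G * K * G + B := by
    have e : G * K * G + B = D * A2 * D := by
      calc _ = D * A1 * (D * K * D) * A1 * D + D * (A2 - A1 * A1) * D := by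
            rw [hG, hB]; noncomm_ring
        _ = _ := by rw [hDKD]; noncomm_ring
    rw [e, hD]
    ext m m'
    simp only [of_apply, mul_diagonal, diagonal_mul]
    field_simp
  obtain ⟨V, σ, v1, v2, v3⟩ := diag_form (hGp.add hRp).1
  have hσ : ∀ r, 1 ≤ σ r := by
    have e : diagonal (fun r => σ r - 1) = Vᵀ * (G + η • P) * V := by
      have e1 : G + η • P = (G + R) - 1 := by rw [hR]; abel
      rw [e1, v3, ← diagonal_sub, diagonal_one]
      calc _ = (Vᵀ * V) * diagonal σ * (Vᵀ * V) - Vᵀ * V := by simp [v1]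
        _ = _ := by noncomm_ring
    have := posSemidef_diagonal_iff.1 (e ▸ psd_conj (hGp.add hηP) V)
    exact fun r => sub_nonneg.1 (this r)
  obtain ⟨T, hT⟩ : ∃ T, T = V * diagonal (fun r => (σ r)⁻¹) * Vᵀ := ⟨_, rfl⟩
  have hTt : Tᵀ = T := by
    rw [hT, transpose_mul, transpose_mul, transpose_transpose, diagonal_transpose,
      Matrix.mul_assoc]
  have hST : (G + R) * T = 1 := by
    have e : diagonal σ * diagonal (fun r => (σ r)⁻¹) = (1 : Matrix I I ℝ) := by
      rw [diagonal_mul_diagonal, ← diagonal_one]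
      exact congrArg _ (funext fun r => mul_inv_cancel₀ (by linarith [hσ r]))
    calc _ = V * (diagonal σ * (Vᵀ * V) * diagonal (fun r => (σ r)⁻¹)) * Vᵀ := by
          rw [v3, hT]; simp only [Matrix.mul_assoc]
      _ = 1 := by rw [v1, Matrix.mul_one, e, Matrix.mul_one, v2]
  have ia := ineq_a hGp hRp hTt hST
  have hη1 : (1 + η) ≠ 0 := by linarith
  have hRR : R * ((1 - P) + (1 + η)⁻¹ • P) = 1 := by
    rw [hR]
    simp only [Matrix.add_mul, Matrix.mul_add, Matrix.mul_sub, Matrix.one_mul, Matrix.mul_one,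
      Matrix.smul_mul, Matrix.mul_smul, hPP, smul_add, smul_smul]
    have : (1 + η)⁻¹ + (1 + η)⁻¹ * η = 1 := by field_simp
    rw [← add_smul, this, one_smul]
    abel
  have hRt : ((1 - P) + (1 + η)⁻¹ • P)ᵀ = (1 - P) + (1 + η)⁻¹ • P := by
    rw [transpose_add, transpose_sub, transpose_smul, transpose_one, hPt]
  have hRR' : ((1 - P) + (1 + η)⁻¹ • P) * R = 1 := by
    have := congrArg transpose hRR
    rwa [transpose_mul, hRt, psd_tr hRp, transpose_one] at this
  have ib := ineq_b hGp hRp hTt hRt hRR hRR' hST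
  have ic : (((1 - P) + η⁻¹ • (1 : Matrix I I ℝ)) - T).PosSemidef := by
    have e : ((1 - P) + η⁻¹ • (1 : Matrix I I ℝ)) - T =
        (((1 - P) + (1 + η)⁻¹ • P) - T) + (η⁻¹ • (1 - P) + (η⁻¹ - (1 + η)⁻¹) • P) := by
      module
    rw [e]
    refine ib.add ((hQp.smul (inv_nonneg.2 hη.le)).add (hPp.smul ?_))
    exact sub_nonneg.2 (inv_anti₀ hη (by linarith))
  have t1 : (G * K).trace = A1.trace := by
    rw [hG, Matrix.mul_assoc, Matrix.mul_assoc, trace_mul_comm, Matrix.mul_assoc,
      Matrix.mul_assoc, ← Matrix.mul_assoc D, hDKD, Matrix.mul_one]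
  have t2 : (P * K).trace ≤ Λ * P.trace := by
    rw [hK]
    simp only [trace, diag_apply, mul_diagonal, Finset.mul_sum]
    exact Finset.sum_le_sum fun m _ => by
      have := hPp.diag_nonneg (i := m)
      nlinarith [hL m]
  have t3 : B.trace = ∑ m, (A2 - A1 * A1) m m / ω m := by
    rw [hB, hD]
    simp only [trace, diag_apply, mul_diagonal, diagonal_mul]
    refine Finset.sum_congr rfl fun m _ => ?_
    have h3 := hsq m
    have := (h0 m).ne'
    rw [eq_div_iff this]
    linear_combination (A2 - A1 * A1) m m * h3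
  have s1 : ∑ r, (σ r - 1) * (∑ m, ω m * V m r ^ 2) = ((G + η • P) * K).trace := by
    have e : G + η • P = V * diagonal (fun r => σ r - 1) * Vᵀ := by
      have e1 : G + η • P = (G + R) - 1 := by rw [hR]; abel
      rw [e1, v3, ← diagonal_sub, diagonal_one, Matrix.mul_sub, Matrix.sub_mul, Matrix.mul_one, v2]
    rw [e, trace_conj, hK]
    refine Finset.sum_congr rfl fun r _ => congrArg _ ?_
    rw [mul_apply]
    exact Finset.sum_congr rfl fun m _ => by rw [mul_diagonal, transpose_apply]; ring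
  have s2 : ∑ r, (σ r)⁻¹ * (∑ m, ∑ m', V m r * (A2 m m' / (√(ω m) * √(ω m'))) * V m' r) =
      (T * (G * K * G + B)).trace := by
    rw [hT, trace_conj, ← hB2]
    refine Finset.sum_congr rfl fun r _ => congrArg _ ?_
    rw [Finset.sum_comm]
    simp only [mul_apply, transpose_apply, of_apply, Finset.sum_mul]
  refine ⟨fun r m => V m r, σ, fun r r' => ?_, fun m m' => ?_, hσ, ?_⟩
  · have := congrFun (congrFun v1 r) r'
    simpa only [mul_apply, transpose_apply, one_apply] using this
  · have := congrFun (congrFun v2 m) m'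
    simpa only [mul_apply, transpose_apply, one_apply] using this
  · rw [s1, s2, hB2, ← t3]
    have a1 : (T * (G * K * G)).trace ≤ (G * K).trace := by
      have e : (T * (G * K * G)).trace = (G * T * G * K).trace := by
        rw [← Matrix.mul_assoc, trace_mul_comm]; simp only [Matrix.mul_assoc]
      rw [e]
      exact trace_mono ia hKp
    have a2 := trace_mono ic hBp
    have a3 := trace_mul_nonneg hQp hGKG
    rw [Matrix.add_mul, Matrix.smul_mul, Matrix.one_mul, trace_add, trace_smul, smul_eq_mul] at a2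
    rw [Matrix.add_mul, Matrix.smul_mul, Matrix.mul_add, Matrix.mul_add, trace_add, trace_add,
      trace_add, trace_smul, smul_eq_mul, div_eq_inv_mul]
    have a4 := mul_le_mul_of_nonneg_left t2 hη.le
    linarith

end Pool.Agent.Lib.LL.T47
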